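import Pool.Agent.P.MP_6f5b02_nt.CP.If

/-! Step AS. -/

namespace Pool.Agent.P.MP_6f5b02_nt.CP

open Polynomial Finset Filter
open Pool.Agent.P.MP_8be758_nt Pool.Agent.P.MP_8be758_nt.C2 Pool.Agent.P.MP_8be758_nt.L2
open scoped Classical

theorem c_AS :
    Q_AS := by
  intro K _ _ _ a
  have hQ : (0 : ℝ) < Fintype.card K := by exact_mod_cast Fintype.card_pos
  have h2 : (2 : K) = 0 := CharTwo.two_eq_zero
  refine mul_left_cancel₀ hQ.ne' ?_
  calc _ = ∑ x : K, ∑ t : K, psi ((x ^ 2 + x + a) * t) := by
        simp only [sum_psi_mul]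
        rw [← sum_filter, sum_const, nsmul_eq_mul, mul_comm, filter_congr fun x _ =>
          (CharTwo.add_eq_zero (R := K) (a := x ^ 2 + x) (b := a)).symm]
    _ = ∑ t : K, psi (a * t) * ∑ x : K, psi ((t + t ^ 2) * x ^ 2) := by
        rw [sum_comm]
        refine sum_congr rfl fun t _ => ?_
        rw [mul_sum]
        refine sum_congr rfl fun x _ => ?_
        rw [add_mul t, ← mul_pow, psi_add, psi_sq, ← psi_add, ← psi_add]
        congr 1; ring
    _ = _ := by
        simp only [sum_psi_sq, mul_ite, mul_zero]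
        rw [← sum_filter, show (univ.filter fun t : K => t + t ^ 2 = 0) = {0, 1} from ?_,
          sum_pair zero_ne_one, mul_zero, psi_zero, mul_one]
        · ring
        · ext t
          rw [mem_filter, mem_insert, mem_singleton, ← sub_eq_zero (a := t) (b := 1), ← mul_eq_zero,
            show t * (t - 1) = t + t ^ 2 by linear_combination (-t) * h2]
          simp

end Pool.Agent.P.MP_6f5b02_nt.CP
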