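import Pool.Agent.P.MP_6f5b02_nt.CP.If

/-! Step CHI. -/

namespace Pool.Agent.P.MP_6f5b02_nt.CP

open Polynomial Finset Filter
open Pool.Agent.P.MP_8be758_nt Pool.Agent.P.MP_8be758_nt.C2 Pool.Agent.P.MP_8be758_nt.L2
open scoped Classical

theorem c_CHI (hLOC : C2.S_LOC) :
    Q_CHI := by
  intro k _ _ _ A
  have h : ∀ (A P : k[X]), IsPr P → chi A P = C2.lp P A 1 := fun A P hP => by
    have : Fact (Irreducible P) := ⟨hP.2⟩
    have hd : AdjoinRoot.mk P (derivative P) ≠ 0 := fun h => hP.2.not_isUnit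
      ((PerfectField.separable_of_irreducible hP.2).isUnit_of_dvd' dvd_rfl
        (AdjoinRoot.mk_eq_zero.1 h))
    rw [chi, hLOC k P _ hP.1 hP.2, lp_eq, lp_eq, map_mul, map_one, div_one, mul_div_cancel_right₀ _ hd]
  refine ⟨fun f g hf hg => ?_, h A, fun t P hP => ?_⟩
  · rw [chi, chi, chi, ← psi_add, ← res_mul_mul f _ hg, ← res_mul_mul g _ hf, mul_comm g f,
      ← res_add, derivative_mul]
    congr 2; ring
  · have : Fact (Irreducible P) := ⟨hP.2⟩
    have := finite_adjoinRoot hP.ne_zero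
    have := charP_adjoinRoot (P := P)
    rw [h _ P hP, h _ P hP, lp_eq, lp_eq, map_one, div_one, div_one, map_add, map_add, map_pow,
      psi_add, psi_add, psi_sq, mul_assoc, psi_mul_self, mul_one]

end Pool.Agent.P.MP_6f5b02_nt.CP
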