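import Pool.Agent.P.MP_6f5b02_nt.CP.If

/-! Step CNT. -/

namespace Pool.Agent.P.MP_6f5b02_nt.CP

open Polynomial Finset Filter
open Pool.Agent.P.MP_8be758_nt Pool.Agent.P.MP_8be758_nt.C2 Pool.Agent.P.MP_8be758_nt.L2
open scoped Classical

theorem CNT_perm {k : Type} [Field k] [Finite k] [CharP k 2] (v : k[X]) {P : k[X]} (hP : IsPr P)
    (B : k[X] → Prop) (hB : ∀ x y, P ∣ x - y → (B x ↔ B y)) :
    ((low k P.natDegree).filter fun u => B (gg u v)).card =
      ((low k P.natDegree).filter B).card := by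
  have hs := hP.2.squarefree
  refine card_bij (fun u _ => gg u v % P) (fun u hu => mem_filter.2 ⟨mod_mem_low hP.ne_zero _,
    (hB _ _ (ROOT_mod P _)).1 (mem_filter.1 hu).2⟩) (fun x hx y hy e => ?_) fun ρ hρ => ?_
  · refine sub_eq_zero.1 (eq_zero_of_mem_low (sub_mem_low (mem_filter.1 hx).1 (mem_filter.1 hy).1)
      (ROOT_rad hs ?_) le_rfl)
    have := dvd_sub (ROOT_mod P (gg x v)) (ROOT_mod P (gg y v))
    rwa [e, sub_sub_sub_cancel_right, gg, gg, add_sub_add_right_eq_sub, ← ROOT_sq] at this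
  · obtain ⟨x, hx⟩ := ROOT_surj hs (ρ - X * v ^ 2)
    have h1 : P ∣ gg (x % P) v - ρ := by
      have := dvd_sub hx ((ROOT_mod P x).mul_right (x + x % P))
      rwa [show x ^ 2 - (ρ - X * v ^ 2) - (x - x % P) * (x + x % P) = gg (x % P) v - ρ by
        unfold gg; ring] at this
    refine ⟨x % P, mem_filter.2 ⟨mod_mem_low hP.ne_zero _, (hB _ _ h1).2 (mem_filter.1 hρ).2⟩,
      sub_eq_zero.1 (eq_zero_of_mem_low
        (sub_mem_low (mod_mem_low hP.ne_zero _) (mem_filter.1 hρ).1) ?_ le_rfl)⟩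
    have := dvd_sub h1 (ROOT_mod P (gg (x % P) v))
    rwa [sub_sub_sub_cancel_left] at this

theorem CNT_cls {k : Type} [Field k] [Finite k] {M : k[X]} (hM : M ≠ 0) {N : ℕ}
    (h : M.natDegree ≤ N) (B : k[X] → Prop) [DecidablePred B] (hB : ∀ x y, M ∣ x - y → (B x ↔ B y)) :
    (((Mo k N).filter B).card : ℝ) =
      ((low k M.natDegree).filter B).card * (qq k ^ N / qq k ^ M.natDegree) := by
  rw [card_eq_sum_card_fiberwise (f := (· % M)) (t := (low k M.natDegree).filter B)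
    fun u hu => mem_coe.2 (mem_filter.2 ⟨mod_mem_low hM _,
      (hB _ _ (ROOT_mod M u)).1 (mem_filter.1 (mem_coe.1 hu)).2⟩), Nat.cast_sum, ← nsmul_eq_mul,
    ← sum_const]
  refine sum_congr rfl fun ρ hρ => ?_
  obtain ⟨h1, h2⟩ := mem_filter.1 hρ
  rw [← card_Gs hM ρ h]
  congr 2
  ext u
  rw [mem_filter, mem_filter, mem_Mo, mem_Gs, and_assoc, and_assoc]
  refine and_congr_right fun _ => and_congr_right fun _ => ⟨fun a => a.2 ▸ ROOT_mod M u, fun a =>
    ⟨(hB _ _ a).2 h2, sub_eq_zero.1 (eq_zero_of_mem_low (sub_mem_low (mod_mem_low hM _) h1) ?_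
      le_rfl)⟩⟩
  have := dvd_sub a (ROOT_mod M u)
  rwa [sub_sub_sub_cancel_left] at this

theorem c_CNT (hRES : Q_RES) :
    Q_CNT := by
  intro k _ _ _ al v z y N D E hD hE hd hN
  have hq := qq_pos (k := k)
  have hU : ∀ P ∈ D ∪ E, IsPr P := fun P hP => (mem_union.1 hP).elim (hD P) (hE P)
  obtain ⟨B, hB⟩ : ∃ B : k[X] → k[X] → Prop,
    B = fun P g => if P ∈ D then P ∣ g else Bp al z y P g := ⟨_, rfl⟩
  have h1 : ∀ P x y, P ∣ x - y → (B P x ↔ B P y) := fun P x y h => by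
    simp only [hB]
    split_ifs
    exacts [dvd_iff_dvd_of_dvd_sub h, Bp_congr _ _ _ h]
  have h2 : ∀ P x y : k[X], P ∣ x - y → P ∣ gg x v - gg y v := fun P x y h => by
    rw [show gg x v - gg y v = (x - y) * (x + y) by unfold gg; ring]
    exact h.mul_right _
  have e : ∀ P ∈ E, P ∉ D := fun P hP h => disjoint_left.1 hd h hP
  rw [filter_congr (q := fun u => ∀ P ∈ D ∪ E, B P (gg u v)) fun u _ => by
      rw [pr_dvd_iff hD, forall_mem_union]
      exact and_congr (forall₂_congr fun P hP => by simp [hB, hP])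
        (forall₂_congr fun P hP => by simp [hB, e P hP]),
    CNT_cls (monic_pr hU).ne_zero (by rwa [natDegree_pr hU, dg_union hd])
      (fun u => ∀ P ∈ D ∪ E, B P (gg u v)) fun x y h => forall₂_congr fun P hP => h1 _ _ _ (h2 _ _ _ ((dvd_prod_of_mem _ hP).trans h)),
    natDegree_pr hU, hRES k (D ∪ E) (fun P u => B P (gg u v)) hU
      fun P _ x t => h1 _ _ _ (h2 _ _ _ ⟨t, by ring⟩),
    prod_congr rfl fun P hP => CNT_perm v (hU P hP) (B P) (h1 P), prod_union hd,
    prod_eq_one (s := D) fun P hP => ?_, one_mul, dg_union hd, ww, Nat.cast_prod]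
  · simp only [hp]
    rw [prod_div_distrib, prod_pow_eq_pow_sum, ← dg, pow_add, prod_congr rfl fun P hP => by
      rw [filter_congr (q := Bp al z y P) fun x _ => by simp [hB, e P hP]]]
    field_simp
  · refine card_eq_one.2 ⟨0, ?_⟩
    ext x
    simp only [mem_filter, mem_singleton, hB, if_pos hP]
    exact ⟨fun h => eq_zero_of_mem_low h.1 h.2 le_rfl, fun h => h ▸ ⟨zero_mem_low _, dvd_zero _⟩⟩

end Pool.Agent.P.MP_6f5b02_nt.CP
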