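import Pool.Agent.P.MP_6f5b02_nt.CP.If

/-! Step CST. -/

namespace Pool.Agent.P.MP_6f5b02_nt.CP

open Polynomial Finset Filter
open Pool.Agent.P.MP_8be758_nt Pool.Agent.P.MP_8be758_nt.C2 Pool.Agent.P.MP_8be758_nt.L2
open scoped Classical

theorem CST_alt (n : ℕ) :
    ∑ b ∈ Ioc 0 n, (-1 : ℝ) ^ b / b ≤ if Even n then 0 else -(1 / ((n : ℝ) + 1)) := by
  induction n with
  | zero => simp
  | succ n ih =>
    rw [sum_Ioc_succ_top (Nat.zero_le n), pow_succ]
    push_cast
    by_cases h : Even n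
    · rw [if_pos h] at ih
      have : 1 / ((n : ℝ) + 1 + 1) ≤ 1 / (n + 1) := by gcongr; linarith
      rw [if_neg (by simpa [Nat.even_add_one] using h), h.neg_one_pow, one_mul, neg_div]
      linarith
    · rw [if_neg h] at ih
      rw [if_pos (Nat.even_add_one.2 h), (Nat.not_even_iff_odd.1 h).neg_one_pow]
      norm_num at ih ⊢
      linarith

theorem c_CST (_hGAUSS : L2.S_GAUSS) (hGAU : Q_GAU) :
    Q_CST := by
  intro k _ _ _ a ha
  have hq := qq_pos (k := k)
  have e0 : ∀ n : ℕ, psi (a * n) = (-1) ^ n := fun n => by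
    induction n with
    | zero => simp [psi_zero]
    | succ n ih => rw [Nat.cast_succ, mul_add, mul_one, psi_add, ih, ha, pow_succ]
  have e : ∀ P : k[X], IsPr P → chi (C a) P = (-1) ^ P.natDegree := fun P hP => by
    obtain ⟨n, hn⟩ : ∃ n, P.natDegree = n + 1 := ⟨P.natDegree - 1, by have := hP.pos; omega⟩
    have a1 : P.coeff (n + 1) = 1 := by rw [← hn]; exact hP.1
    rw [chi, res_C_mul, res_of_lt (degree_derivative_lt hP.ne_zero), hP.1.leadingCoeff, div_one, hn,
      Nat.add_sub_cancel, coeff_derivative, a1, one_mul, ← Nat.cast_succ, e0]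
  refine ⟨8, fun y => ?_⟩
  rw [sum_congr rfl fun P hP => by rw [e P (mem_Pr.1 hP).1], Pr_eq_Rg,
    sum_Rg 0 y fun b => (-1) ^ b / qq k ^ b]
  refine (sum_le_sum (g := fun b : ℕ => (-1 : ℝ) ^ b / b + 2 * (3 / 4) ^ b) fun b hb => ?_).trans ?_
  · have b1 := (mem_Ioc.1 hb).1
    have b0 : (1 : ℝ) ≤ b := by exact_mod_cast b1
    rcases b.even_or_odd with h | h
    · rw [h.neg_one_pow, mul_one_div]
      exact le_add_of_le_of_nonneg (card_Pd_le b1) (by positivity)
    · have a1 := hGAU k b b1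
      have a2 : √(qq k) ^ b ≤ (3 / 4) ^ b * qq k ^ b := by
        rw [← mul_pow]
        refine pow_le_pow_left₀ (by positivity) ?_ _
        have := two_le_qq (k := k)
        exact Real.sqrt_le_iff.2 ⟨by positivity, by nlinarith⟩
      have a3 : (0 : ℝ) ≤ (3 / 4) ^ b * qq k ^ b := by positivity
      rw [h.neg_one_pow, mul_div_assoc', div_add' _ _ _ (by positivity),
        div_le_div_iff₀ (by positivity) (by positivity)]
      nlinarith
  · rw [sum_add_distrib, ← mul_sum]
    have a1 := (CST_alt y).trans (show _ ≤ 0 by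
      split_ifs; exacts [le_rfl, neg_nonpos.2 (by positivity)])
    have a2 := ((summable_geometric_of_lt_one (r := (3 / 4 : ℝ)) (by norm_num) (by norm_num)).sum_le_tsum
      (Ioc 0 y) fun _ _ => by positivity).trans_eq
      (tsum_geometric_of_lt_one (by norm_num) (by norm_num))
    norm_num at a2
    linarith

end Pool.Agent.P.MP_6f5b02_nt.CP
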