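import Pool.Agent.P.MP_6f5b02_nt.CP.If

/-! Step CZ. -/

namespace Pool.Agent.P.MP_6f5b02_nt.CP

open Polynomial Finset Filter
open Pool.Agent.P.MP_8be758_nt Pool.Agent.P.MP_8be758_nt.C2 Pool.Agent.P.MP_8be758_nt.L2
open scoped Classical

theorem c_CZ :
    Q_CZ := by
  intro k _ _ _ A j hA hj
  have h1 := hA.pos
  have h0 : A.leadingCoeff ≠ 0 := fun h => by simp [leadingCoeff_eq_zero.1 h] at h1
  obtain ⟨t, ht⟩ := exists_psi_neg (K := k)
  obtain ⟨m, rfl⟩ := Nat.exists_eq_add_of_le hj
  set c := t / A.leadingCoeff with hc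
  have hl : C c * X ^ m ∈ low k (A.natDegree + m) :=
    mem_low_of_natDegree_lt ((natDegree_C_mul_X_pow_le _ _).trans_lt (by omega))
  refine sum_char_zero (v := C c * X ^ m) _ (fun f hf => add_mem_Mo hf hl) fun f hf => ?_
  obtain ⟨f1, f2⟩ := mem_Mo.1 hf
  obtain ⟨g1, g2⟩ := mem_Mo.1 (add_mem_Mo hf hl)
  set W := derivative (C c * X ^ m) * f + derivative f * (C c * X ^ m) with hW
  have e1 : X * W = (C (m : k) * f + X * derivative f) * (C c * X ^ m) := by
    rw [hW, derivative_C_mul, derivative_X_pow]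
    cases m with
    | zero => simp [mul_assoc]
    | succ m => rw [Nat.add_sub_cancel]; ring
  have e2 : (C (m : k) * f + X * derivative f).natDegree ≤ A.natDegree + m := by
    have := natDegree_derivative_lt (p := f) (by omega)
    have := natDegree_mul_le (p := X) (q := derivative f)
    rw [natDegree_X] at this
    exact natDegree_add_le_of_degree_le ((natDegree_C_mul_le _ _).trans f2.le) (by omega)
  have e3 : (C (m : k) * f + X * derivative f).coeff (A.natDegree + m) = 1 := by
    obtain ⟨n, hn⟩ : ∃ n, A.natDegree + m = n + 1 := ⟨A.natDegree + m - 1, by omega⟩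
    have a1 : f.coeff (n + 1) = 1 := by rw [← hn, ← f2]; exact f1
    obtain ⟨d, hd⟩ := hA
    rw [hn, coeff_add, coeff_C_mul, coeff_X_mul, coeff_derivative, a1, mul_one, one_mul,
      ← Nat.cast_succ, ← Nat.cast_add, show m + (n + 1) = 2 * (d + m) + 1 by omega]
    simp [CharTwo.two_eq_zero]
  have e4 : (X * (A * W)).natDegree ≤ 2 * (A.natDegree + m) ∧
      (X * (A * W)).coeff (2 * (A.natDegree + m)) = t := by
    rw [mul_left_comm, e1, show 2 * (A.natDegree + m) = A.natDegree + (A.natDegree + m + m) by ring]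
    have a1 := natDegree_mul_le_of_le e2 (natDegree_C_mul_X_pow_le c m)
    refine ⟨natDegree_mul_le_of_le le_rfl a1, ?_⟩
    rw [coeff_mul_add_eq_of_natDegree_le le_rfl a1,
      coeff_mul_add_eq_of_natDegree_le e2 (natDegree_C_mul_X_pow_le c m), e3, coeff_C_mul_X_pow,
      if_pos rfl, one_mul, coeff_natDegree, hc, mul_div_cancel₀ _ h0]
  have e5 : ((f + C c * X ^ m) * f).natDegree = 2 * (A.natDegree + m) := by
    rw [g1.natDegree_mul f1, g2, f2, two_mul]
  have e6 : res ((f + C c * X ^ m) * f) (A * W) = t := by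
    have a1 : (A * W).natDegree < 2 * (A.natDegree + m) := by
      by_cases h : A * W = 0
      · rw [h, natDegree_zero]; omega
      · have := e4.1
        rw [natDegree_X_mul h] at this
        omega
    rw [res_of_lt (degree_lt_degree (e5 ▸ a1)), (g1.mul f1).leadingCoeff, div_one, e5,
      ← coeff_X_mul, Nat.sub_add_cancel (by omega), e4.2]
  have e7 : chi A (f + C c * X ^ m) * chi A f = -1 := by
    rw [chi, chi, ← psi_add, ← res_split g1.ne_zero f1.ne_zero, ← ht, ← e6, hW, derivative_add]
    congr 2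
    linear_combination (A * derivative f * f) * two0 (k := k)
  have e8 : chi A f * chi A f = 1 := psi_mul_self _
  linear_combination chi A f * e7 - chi A (f + C c * X ^ m) * e8

end Pool.Agent.P.MP_6f5b02_nt.CP
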