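import Pool.Agent.P.MP_6f5b02_nt.CP.If
import Pool.Agent.P.MP_8be758_nt.C2.TDEC2

/-! Step DEC. -/

namespace Pool.Agent.P.MP_6f5b02_nt.CP

open Polynomial Finset Filter
open Pool.Agent.P.MP_8be758_nt Pool.Agent.P.MP_8be758_nt.C2 Pool.Agent.P.MP_8be758_nt.L2
open scoped Classical

theorem c_DEC (hLOCF : Q_LOCF) (hFORM : C2.S_FORM) (hSPLIT : C2.S_SPLIT) :
    Q_DEC := by
  intro k _ _ _ V V1 s hV1 hV hs
  have h2 := two0 (k := k)
  rw [pr] at hV
  choose h0 h1 hh using exists_sq_add (k := k)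
  have hs' : ∀ P ∈ s, P.Monic ∧ Irreducible P := fun P hP => (hs P hP).1
  have hV0 : V ≠ 0 := by
    rw [hV]
    exact mul_ne_zero hV1 (prod_ne_zero_iff.2 fun P hP => (hs P hP).1.ne_zero)
  have hPV : ∀ P ∈ s, P ∣ V := fun P hP => hV ▸ (dvd_prod_of_mem _ hP).mul_left _
  have hd : ∀ P ∈ s, ¬ P ∣ derivative V := fun P hP => hV ▸ DEC2_der hs' hP (hs P hP).2
  choose! c hc using fun P (hP : P ∈ s) =>
    ROOT_surj (hs P hP).1.2.squarefree (X * derivative V ^ 2)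
  obtain ⟨w0, w1, hw1⟩ : IsCoprime V1 (∏ P ∈ s, P) := IsCoprime.prod_right fun P hP =>
    ((hs P hP).1.2.coprime_iff_not_dvd.2 (hs P hP).2).symm
  have hw1' : V1 ∣ w1 * ∏ P ∈ s, P - 1 := ⟨-w0, by linear_combination hw1⟩
  set H : k[X] → k[X] := fun U => X * h1 U ^ 2 * h1 V ^ 2 + h1 U ^ 3 * h0 U +
    X * h1 V ^ 3 * h0 V with hH
  refine ⟨fun U => DEC2_a V1 U (H U * w1), c,
    fun D => psi ((((D + 1) / 2 + D * (V.natDegree + 1) : ℕ) : k)), fun U => DEC2_abs _ _ _,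
    fun U S => ?_, fun D => (abs_psi _).le, hd, fun U hU hlt => ?_⟩
  · obtain ⟨e0, e1⟩ := gg_inj (u := h0 (U + V1 ^ 2 * S)) (v := h1 (U + V1 ^ 2 * S))
      (u' := h0 U + V1 * h0 S) (v' := h1 U + V1 * h1 S) (by
        unfold gg
        linear_combination hh U - hh (U + V1 ^ 2 * S) + V1 ^ 2 * hh S -
          (h0 U * V1 * h0 S + X * h1 U * V1 * h1 S) * h2)
    refine DEC2_congr ⟨V1 * S, by ring⟩ ?_
    rw [← AdjoinRoot.mk_eq_mk]
    simp only [hH, e0, e1, map_add, map_mul, map_pow, AdjoinRoot.mk_self, zero_mul, add_zero]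
  have dU : derivative U = h1 U ^ 2 := by
    conv_lhs => rw [hh U]
    exact derivative_sq_add _ _
  show _ = _ * _ * DEC2_a V1 U (H U * w1) * _
  rw [mu_gg]
  by_cases hco : IsCoprime U V
  · obtain ⟨w, w', hw⟩ := id hco
    have hw2 : V ∣ w * U - 1 := ⟨-w', by linear_combination hw⟩
    have f1 := hFORM k U V _ _ _ _ w (hh U) (hh V) hU hV0 hlt hw2
    have f2 := hSPLIT k V V1 w1 (w * H U) s hV1 hV
      (fun P hP => ⟨(hs P hP).1.1, (hs P hP).1.2, (hs P hP).2⟩) hw1'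
    have f3 : ∏ P ∈ s, lp P (w * H U) (derivative V) =
        ∏ P ∈ s, lk P ((derivative U + c P) ^ 3) (U * derivative V ^ 2) :=
      prod_congr rfl fun P hP => by
        rw [lk, if_neg]
        · exact hLOCF k P U V _ _ _ _ w (c P) (hs P hP).1 (hh U) (hh V) (hPV P hP) (hd P hP)
            ((hPV P hP).trans hw2) (hc P hP)
        · intro h
          rcases (hs P hP).1.prime.dvd_or_dvd h with h | h
          · exact (hs P hP).1.2.not_isUnit (hco.isUnit_of_dvd' h (hPV P hP))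
          · exact hd P hP ((hs P hP).1.prime.dvd_of_dvd_pow h)
    have f6 := DEC2_eq ((hV ▸ dvd_mul_right V1 _ : V1 ∣ V).trans hw2) (H U * w1)
    rw [f1, f6, psi_add, psi_add, f2, f3, dU, ← pow_mul, ← mul_assoc w]
    exact (mul_assoc _ _ _).symm
  · rw [mu_eo_eq_zero hco]
    by_cases h1 : ∃ w, V1 ∣ w * U - 1
    · obtain ⟨w, w', hw⟩ := h1
      by_cases h3 : ∃ P ∈ s, P ∣ U
      · obtain ⟨P, hP, h3⟩ := h3
        rw [prod_eq_zero hP (by rw [lk, if_pos (h3.mul_right _)]), mul_zero]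
      · push Not at h3
        refine absurd ?_ hco
        rw [hV]
        exact IsCoprime.mul_right ⟨w, -w', by linear_combination hw⟩
          (IsCoprime.prod_right fun P hP =>
            ((hs P hP).1.2.coprime_iff_not_dvd.2 (h3 P hP)).symm)
    · rw [DEC2_a, dif_neg h1]
      simp

end Pool.Agent.P.MP_6f5b02_nt.CP
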