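import Pool.Agent.P.MP_6f5b02_nt.CP.If

/-! Step DIV. -/

namespace Pool.Agent.P.MP_6f5b02_nt.CP

open Polynomial Finset Filter
open Pool.Agent.P.MP_8be758_nt Pool.Agent.P.MP_8be758_nt.C2 Pool.Agent.P.MP_8be758_nt.L2
open scoped Classical

theorem c_DIV :
    Q_DIV := by
  intro k _ _ a b
  set f : (k[X] × k[X]) × (k[X] × k[X]) → (k[X] × k[X]) × (k[X] × k[X]) := fun t =>
    ((t.1.1 * t.2.1, t.2.2 * t.1.2), (t.1.1 * t.2.2, t.2.1 * t.1.2)) with hf
  have h1 : (((low k a).erase 0 ×ˢ (low k b).erase 0) ×ˢ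
      ((low k a).erase 0 ×ˢ (low k b).erase 0)).filter (fun p => p.1.1 * p.1.2 = p.2.1 * p.2.2) ⊆
      (range (min a b)).biUnion fun i =>
        ((low k (a - i) ×ˢ low k (b - i)) ×ˢ (low k (i + 1) ×ˢ low k (i + 1))).image f := by
    rintro ⟨⟨h, v⟩, h', v'⟩ hp
    simp only [mem_filter, mem_product, mem_erase] at hp
    obtain ⟨⟨⟨⟨a1, a2⟩, a3, a4⟩, ⟨b1, b2⟩, b3, b4⟩, e⟩ := hp
    obtain ⟨g, α, ⟨α', rfl⟩, ⟨β, rfl⟩, rfl⟩ :=
      exists_dvd_and_dvd_of_dvd_mul (⟨v, e.symm⟩ : h ∣ h' * v')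
    obtain rfl : v = α' * β := mul_left_cancel₀ a1 (by rw [e]; ring)
    have c1 := natDegree_lt_of_mem_low a2 a1
    have c2 := natDegree_lt_of_mem_low a4 a3
    have c3 := natDegree_lt_of_mem_low b2 b1
    have c4 := natDegree_lt_of_mem_low b4 b3
    rw [natDegree_mul (left_ne_zero_of_mul a1) (right_ne_zero_of_mul a1)] at c1
    rw [natDegree_mul (left_ne_zero_of_mul a3) (right_ne_zero_of_mul a3)] at c2
    rw [natDegree_mul (left_ne_zero_of_mul b1) (right_ne_zero_of_mul b1)] at c3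
    rw [natDegree_mul (left_ne_zero_of_mul b3) (right_ne_zero_of_mul b3)] at c4
    refine mem_biUnion.2 ⟨max α.natDegree α'.natDegree, mem_range.2 (by omega),
      mem_image.2 ⟨((g, β), (α, α')), ?_, rfl⟩⟩
    simp only [mem_product]
    refine ⟨⟨?_, ?_⟩, ?_, ?_⟩ <;> exact mem_low_of_natDegree_lt (by omega)
  have h2 : ((min a b : ℕ) : ℝ) ≤ a * b := by
    rcases Nat.eq_zero_or_pos b with h | h
    · simp [h]
    · exact_mod_cast (min_le_left a b).trans (Nat.le_mul_of_pos_right a h)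
  refine le_trans (Nat.cast_le.2 ((card_le_card h1).trans card_biUnion_le)) ?_
  rw [Nat.cast_sum]
  refine le_trans (sum_le_card_nsmul _ _ (qq k ^ (a + b + 2)) fun i hi => ?_) ?_
  · refine (Nat.cast_le.2 card_image_le).trans_eq ?_
    have := mem_range.1 hi
    simp only [card_product, Nat.cast_mul, card_low', ← pow_add]
    congr 1
    omega
  · rw [card_range, nsmul_eq_mul]
    exact mul_le_mul_of_nonneg_right h2 (pow_pos qq_pos _).le

end Pool.Agent.P.MP_6f5b02_nt.CP
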