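import Pool.Agent.P.MP_6f5b02_nt.CP.If

/-! Step EEB. -/

namespace Pool.Agent.P.MP_6f5b02_nt.CP

open Polynomial Finset Filter
open Pool.Agent.P.MP_8be758_nt Pool.Agent.P.MP_8be758_nt.C2 Pool.Agent.P.MP_8be758_nt.L2
open scoped Classical

theorem c_EEB :
    Q_EEB := by
  intro k _ S N J
  have h1 : ∀ x, |ps1 N J x| ≤ N := fun x => by
    unfold ps1
    split_ifs with h
    · have a1 : (x : ℝ) < N := by exact_mod_cast h.2
      have a2 : (0 : ℝ) ≤ x := by exact_mod_cast (by omega : 0 ≤ x)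
      rw [abs_le]; constructor <;> linarith
    · simp
  have h2 : ∀ ψ : ℤ → ℝ, (∀ x, |ψ x| ≤ N) → |Gf ψ S 0| ≤ N * 2 ^ S.card := fun ψ h => by
    refine (abs_sum_le_sum_abs _ _).trans ((sum_le_card_nsmul _ _ (N : ℝ) fun t _ => ?_).trans ?_)
    · rw [abs_mul, abs_sg, one_mul]; exact h _
    · simp [mul_comm]
  refine ⟨by unfold ee; linarith [h2 _ h1, h2 (ps2 N J) fun x => h1 _],
    fun P hP hd => ?_⟩
  have e0 : ∀ A : Finset k[X], EE N J A = Gf (ps1 N J) A 0 := fun A => by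
    rw [EE, sum_filter, Gf]
    refine sum_congr rfl fun d _ => ?_
    simp only [ps1, zero_add, Nat.cast_lt, Int.cast_natCast, mul_ite, mul_zero]
  have e : Gf (ps1 N J) S (0 + P.natDegree) = sg S * Gf (ps2 N J) S 0 := by
    rw [Gf, Gf, mul_sum]
    refine sum_nbij' (S \ ·) (S \ ·) (fun _ _ => by simp) (fun _ _ => by simp)
      (fun d hd => Finset.sdiff_sdiff_eq_self (mem_powerset.1 hd))
      (fun d hd => Finset.sdiff_sdiff_eq_self (mem_powerset.1 hd)) fun d h => ?_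
    have a1 := dg_sdiff (mem_powerset.1 h)
    have a2 := sg_union (disjoint_sdiff (s := d) (t := S))
    rw [union_sdiff_of_subset (mem_powerset.1 h)] at a2
    rw [ps2, show 2 * (N : ℤ) - (0 + dg (S \ d)) = 0 + P.natDegree + dg d by omega, a2,
      ← mul_assoc, mul_assoc (sg d), sg_mul_self, mul_one]
  rw [e0, Gf_insert _ hP, e, ee]
  exact (abs_sub _ _).trans (by rw [abs_mul, abs_sg, one_mul])

end Pool.Agent.P.MP_6f5b02_nt.CP
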