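import Pool.Agent.P.MP_6f5b02_nt.CP.If

/-! Step EQD. -/

namespace Pool.Agent.P.MP_6f5b02_nt.CP

open Polynomial Finset Filter
open Pool.Agent.P.MP_8be758_nt Pool.Agent.P.MP_8be758_nt.C2 Pool.Agent.P.MP_8be758_nt.L2
open scoped Classical

theorem c_EQD :
    Q_EQD := by
  intro k K _ _ _ _ φ P c H F hP hs hk hc hH
  have hc' : φ c ≠ 0 := fun h => hc ((hk c).1 h)
  have hl : ∀ t : K, ∃ y ∈ low k H, φ (c * y) = t := fun t => by
    obtain ⟨y, hy⟩ := hs (t / φ c)
    refine ⟨y % P, low_mono hH (mod_mem_low hP.ne_zero y), ?_⟩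
    have := (hk _).2 (ROOT_mod P y)
    rw [map_sub, sub_eq_zero] at this
    rw [map_mul, ← this, hy, mul_div_cancel₀ _ hc']
  have h1 : ∀ t : K, ∑ y ∈ low k H, F (φ (c * y)) = ∑ y ∈ low k H, F (φ (c * y) + t) := fun t => by
    obtain ⟨s, h1, rfl⟩ := hl t
    refine sum_nbij' (· - s) (· + s) (fun y hy => sub_mem_low hy h1)
      (fun y hy => add_mem_low hy h1) (fun _ _ => by simp) (fun _ _ => by simp) fun y _ => ?_
    rw [← map_add, ← mul_add, sub_add_cancel]
  rw [← card_univ, ← nsmul_eq_mul, ← sum_const, sum_congr rfl fun t _ => h1 t, sum_comm,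
    ← card_low', ← nsmul_eq_mul, ← sum_const]
  exact sum_congr rfl fun y _ => Equiv.sum_comp (Equiv.addLeft (φ (c * y))) F

end Pool.Agent.P.MP_6f5b02_nt.CP
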