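import Pool.Agent.P.MP_6f5b02_nt.CP.If

/-! Step ERR. -/

namespace Pool.Agent.P.MP_6f5b02_nt.CP

open Polynomial Finset Filter
open Pool.Agent.P.MP_8be758_nt Pool.Agent.P.MP_8be758_nt.C2 Pool.Agent.P.MP_8be758_nt.L2
open scoped Classical

theorem c_ERR (hERR1 : Q_ERR1) (hUP : Q_UP) (hETF : Q_ETF) (hEEB : Q_EEB) (_hHP : Q_HP) :
    Q_ERR := by
  obtain ⟨C, y0, hC, hUP⟩ := hUP
  obtain ⟨C', hC', hETF⟩ := hETF
  refine ⟨C * C', y0, by positivity, fun k _ _ _ al z y N J G W hz h0 h1 h2 h3 h4 h5 h6 hW => ?_⟩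
  have hq := qq_pos (k := k)
  have hV := VV_nonneg al z y
  refine (hERR1 k al z y N J W (by omega) (hW.trans (erase_subset _ _))).trans
    ((sum_le_sum fun a ha => hUP k al z y N a W (ee N J) (2 * N * 2 ^ G) hz h0 (mem_Ioc.1 ha).1
      (mem_Ioc.1 ha).2 h5 hW (by positivity) fun S hS => ⟨ee_nonneg N J S,
        (hEEB k S N J).1.trans ?_⟩).trans ?_)
  · obtain ⟨a1, a2⟩ := mem_Tp.1 hS
    have := card_mul_le_dg fun P hP => (mem_Rg.1 (a1 hP)).2.1.le
    have : S.card ≤ G := Nat.le_of_mul_le_mul_right (by omega) h1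
    gcongr
    norm_num
  · rw [sum_add_distrib, ← mul_sum, sum_const, nsmul_eq_mul, Nat.card_Ioc]
    refine add_le_add ((mul_le_mul_of_nonneg_left (hETF k y N J h1 h2 h3 h4)
      (by positivity)).trans_eq (by ring)) ?_
    have : ((2 * N - y : ℕ) : ℝ) ≤ 2 * N := by exact_mod_cast Nat.sub_le _ _
    exact (mul_le_mul_of_nonneg_right this (by positivity)).trans_eq (by ring)

end Pool.Agent.P.MP_6f5b02_nt.CP
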