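import Pool.Agent.P.MP_6f5b02_nt.CP.If

/-! Step ETF1. -/

namespace Pool.Agent.P.MP_6f5b02_nt.CP

open Polynomial Finset Filter
open Pool.Agent.P.MP_8be758_nt Pool.Agent.P.MP_8be758_nt.C2 Pool.Agent.P.MP_8be758_nt.L2
open scoped Classical

theorem c_ETF1 (hOPN : Q_OPN) (hRNK : Q_RNK) :
    Q_ETF1 := by
  refine ⟨Real.exp 4 * (Real.exp 4 * (720 * 4 ^ 6)), by positivity,
    fun k _ _ ψ y n hψ hy hn h0 => ?_⟩
  have y0 : (0 : ℝ) < y := by exact_mod_cast hy
  have n0 : (0 : ℝ) < n := by exact_mod_cast hy.trans hn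
  set T : ℕ → Finset (Finset k[X]) := fun a =>
    (Rg k y a).powerset.filter fun S => (n : ℝ) / 4 - a ≤ dg S with hT
  have e1 : ∀ a : ℕ, ∑ S ∈ (Rg k y a).powerset, ww S * |Gf ψ S a| =
      ∑ S ∈ T a, ww S * |Gf ψ S a| := fun a => by
    refine (sum_filter_of_ne fun S _ h => ?_).symm
    by_contra h1
    refine h ?_
    rw [Gf, sum_eq_zero fun t ht => ?_, abs_zero, mul_zero]
    have h2 : (dg t : ℝ) ≤ dg S := by exact_mod_cast dg_mono (mem_powerset.1 ht)
    rw [h0 _ (by exact_mod_cast (show 4 * ((a : ℝ) + dg t) < n by linarith)), mul_zero]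
  simp only [e1, mul_sum]
  rw [sum_sigma']
  refine (sum_sq_le_sum_mul_sum_of_sq_le_mul _
    (f := fun x : (_ : ℕ) × Finset k[X] => (((n : ℝ) / x.1) ^ 2 / x.1) ^ 2 *
      ((3 / 2) ^ x.2.card * ww x.2))
    (g := fun x => (2 / 3) ^ x.2.card * ww x.2 * Gf ψ x.2 x.1 ^ 2)
    (fun x _ => by have := ww_pos x.2; positivity) (fun x _ => by have := ww_pos x.2; positivity)
    fun x _ => le_of_eq ?_).trans ?_
  · have : (3 / 2 : ℝ) ^ x.2.card * (2 / 3) ^ x.2.card = 1 := by rw [← mul_pow]; norm_num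
    rw [mul_pow, mul_pow, sq_abs]
    linear_combination (-(((n : ℝ) / x.1) ^ 2 / x.1) ^ 2 * ww x.2 ^ 2 * Gf ψ x.2 x.1 ^ 2) * this
  rw [sum_sigma, sum_sigma]
  have b1 : ∑ a ∈ Ioc y n, ∑ S ∈ T a, (((n : ℝ) / a) ^ 2 / a) ^ 2 * ((3 / 2) ^ S.card * ww S) ≤
      Real.exp 4 * (720 * 4 ^ 6) * ((n : ℝ) / y) ^ (3 / 2 : ℝ) / n := by
    refine (sum_le_card_nsmul _ _ (Real.exp 4 * (720 * 4 ^ 6) * ((n : ℝ) / y) ^ (3 / 2 : ℝ) / n ^ 2)
      fun a ha => ?_).trans ?_
    · obtain ⟨a1, a2⟩ := mem_Ioc.1 ha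
      have a0 : (0 : ℝ) < a := by exact_mod_cast (by omega : 0 < a)
      have a3 : ((a : ℝ) / y) ^ (3 / 2 : ℝ) ≤ ((n : ℝ) / y) ^ (3 / 2 : ℝ) := by gcongr
      have a4 := Real.pow_div_factorial_le_exp ((n : ℝ) / a / 4) (by positivity) 6
      have a5 : Real.exp (-(((n : ℝ) / 4 - a) / a)) = Real.exp 1 / Real.exp (n / a / 4) := by
        rw [← Real.exp_sub]; congr 1; field_simp; ring
      rw [← mul_sum]
      refine (mul_le_mul_of_nonneg_left ((hRNK k y a _ hy a1.le).trans (mul_le_mul_of_nonneg_right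
        (mul_le_mul_of_nonneg_left a3 (by positivity)) (by positivity))) (by positivity)).trans ?_
      have a6 : ((n : ℝ) / a) ^ 6 / Real.exp (n / a / 4) ≤ 720 * 4 ^ 6 := by
        rw [div_le_iff₀ (Real.exp_pos _)]
        rw [div_pow, div_div, div_le_iff₀ (by positivity)] at a4
        norm_num [Nat.factorial] at a4 ⊢
        linarith
      rw [a5, show Real.exp 4 = Real.exp 3 * Real.exp 1 by rw [← Real.exp_add]; norm_num]
      refine le_trans (le_of_eq ?_) (div_le_div_of_nonneg_right (mul_le_mul_of_nonneg_right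
        (mul_le_mul_of_nonneg_left a6 (by positivity)) (by positivity)) (by positivity))
      field_simp
    · rw [Nat.card_Ioc, nsmul_eq_mul, Nat.cast_sub hn, sq (n : ℝ), ← div_div, mul_div_assoc',
        div_le_iff₀ n0, mul_comm]
      exact mul_le_mul_of_nonneg_left (by linarith) (by positivity)
  have b2 : ∑ a ∈ Ioc y n, ∑ S ∈ T a, (2 / 3 : ℝ) ^ S.card * ww S * Gf ψ S a ^ 2 ≤
      Real.exp 4 * ((n : ℝ) / y) ^ (4 / 3 : ℝ) * nrm ψ := by
    refine le_trans ((sum_le_sum fun a ha => sum_le_sum_of_subset_of_nonneg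
      (t := (Rg k y n).powerset) ((filter_subset _ _).trans
        (powerset_mono.2 (Rg_mono le_rfl (mem_Ioc.1 ha).2)))
      fun S _ _ => by have := ww_pos S; positivity).trans ?_) (hOPN k ψ y n hψ hy hn)
    rw [sum_comm]
    refine sum_le_sum fun S _ => ?_
    rw [← mul_sum]
    refine mul_le_mul_of_nonneg_left ?_ (by have := ww_pos S; positivity)
    have := sum_le_nrm (Gf_finite hψ S) ((Ioc y n).image (Nat.cast : ℕ → ℤ))
    rwa [sum_image fun _ _ _ _ => Nat.cast_injective.eq_iff.1] at this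
  refine (mul_le_mul b1 b2 (sum_nonneg fun a _ => sum_nonneg fun S _ => by
    have := ww_pos S; positivity) (by positivity)).trans (le_of_eq ?_)
  rw [show (17 / 6 : ℝ) = 3 / 2 + 4 / 3 by norm_num, Real.rpow_add (by positivity)]
  ring

end Pool.Agent.P.MP_6f5b02_nt.CP
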