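import Pool.Agent.P.MP_6f5b02_nt.CP.If

/-! Step ETF2. -/

namespace Pool.Agent.P.MP_6f5b02_nt.CP

open Polynomial Finset Filter
open Pool.Agent.P.MP_8be758_nt Pool.Agent.P.MP_8be758_nt.C2 Pool.Agent.P.MP_8be758_nt.L2
open scoped Classical

theorem ETF2_a {k α : Type} [Field k] [LinearOrder α] {r : k[X] → α} (hr : Function.Injective r)
    {ψ : ℤ → ℝ} (h0 : ψ 0 = 0) (S : Finset k[X]) :
    |Gf ψ S 0| ≤ ∑ P ∈ S, |Gf ψ (S.filter fun Q => r Q < r P) P.natDegree| := by
  induction S using Finset.induction_on_max_value r with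
  | empty => simp [Gf_empty, h0]
  | insert a s ha hs ih =>
    rw [Gf_insert ψ ha, sum_insert ha, zero_add, add_comm, filter_insert, if_neg (lt_irrefl _),
      filter_true_of_mem fun x hx => (hs x hx).lt_of_ne fun e => ha (hr e ▸ hx),
      sum_congr rfl fun P hP => by rw [filter_insert, if_neg (hs P hP).not_gt]]
    exact (abs_sub _ _).trans (add_le_add ih le_rfl)

theorem ETF2_b {k α : Type} [Field k] [Finite k] [LinearOrder α] {r : k[X] → α}
    (hr : Function.Injective r) (hm : ∀ P Q, r P < r Q → P.natDegree ≤ Q.natDegree)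
    (F : Finset k[X] → ℝ) (hF : ∀ S, 0 ≤ F S) (y n : ℕ) {P : k[X]} (hP : 1 ≤ P.natDegree) :
    ∑ S ∈ (Rg k y n).powerset.filter (P ∈ ·), F (S.filter fun Q => r Q < r P) * ww S ≤
      1 / qq k ^ P.natDegree * ((∑ S ∈ (Rg k y P.natDegree).powerset, ww S * F S) *
        ∑ S ∈ (Rg k (P.natDegree - 1) n).powerset, ww S) := by
  have hq := qq_pos (k := k)
  have e : ∀ S : Finset k[X], P ∈ S →
      S = insert P ((S.filter fun Q => r Q < r P) ∪ S.filter fun Q => r P < r Q) := fun S hS => by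
    ext Q
    simp only [mem_insert, mem_union, mem_filter]
    refine ⟨fun h => ?_, fun h => h.elim (· ▸ hS) fun h => h.elim (·.1) (·.1)⟩
    rcases lt_trichotomy (r Q) (r P) with h1 | h1 | h1
    exacts [.inr (.inl ⟨h, h1⟩), .inl (hr h1), .inr (.inr ⟨h, h1⟩)]
  rw [sum_mul_sum, ← sum_product', mul_sum]
  refine le_trans (le_of_eq ?_) (sum_le_sum_of_subset_of_nonneg
    (s := ((Rg k y n).powerset.filter (P ∈ ·)).image fun S =>
      (S.filter fun Q => r Q < r P, S.filter fun Q => r P < r Q)) (fun x hx => ?_) fun x _ _ => by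
        have := ww_pos x.1; have := ww_pos x.2; have := hF x.1; positivity)
  · rw [sum_image fun S hS T hT h => by
      rw [e S (mem_filter.1 hS).2, e T (mem_filter.1 hT).2, (Prod.mk.inj h).1, (Prod.mk.inj h).2]]
    refine sum_congr rfl fun S hS => ?_
    nth_rewrite 2 [e S (mem_filter.1 hS).2]
    rw [ww_insert (by simp), ww_union (disjoint_filter.2 fun _ _ h => h.not_gt)]
    ring
  · obtain ⟨S, hS, rfl⟩ := mem_image.1 hx
    have h1 := fun Q hQ => mem_Rg.1 (mem_powerset.1 (mem_filter.1 hS).1 (x := Q) hQ)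
    refine mem_product.2 ⟨mem_powerset.2 fun Q hQ => ?_, mem_powerset.2 fun Q hQ => ?_⟩ <;>
      obtain ⟨a, b⟩ := mem_filter.1 hQ
    · exact mem_Rg.2 ⟨(h1 Q a).1, (h1 Q a).2.1, hm _ _ b⟩
    · exact mem_Rg.2 ⟨(h1 Q a).1, by have := hm _ _ b; omega, (h1 Q a).2.2⟩

theorem c_ETF2 (hPRD : Q_PRD) (_hGAUSS : L2.S_GAUSS) :
    Q_ETF2 := by
  intro k _ _ ψ y n hy h0
  have hq := qq_pos (k := k)
  let _ : LinearOrder k[X] := linearOrderOfSTO WellOrderingRel
  obtain ⟨r, hr, hm⟩ : ∃ r : k[X] → ℕ ×ₗ k[X], Function.Injective r ∧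
      ∀ P Q, r P < r Q → P.natDegree ≤ Q.natDegree :=
    ⟨fun P => toLex (P.natDegree, P), fun _ _ h => congrArg (fun x => (ofLex x).2) h,
      fun _ _ h => (Prod.Lex.toLex_lt_toLex.1 h).elim le_of_lt fun h => h.1.le⟩
  set F : Finset k[X] → ℝ := fun S =>
    ∑ P ∈ S, |Gf ψ (S.filter fun Q => r Q < r P) P.natDegree| * ww S / P.natDegree with hF
  have b1 : ∀ a ∈ Ioc y n, (∑ S ∈ Tp k y n a, |Gf ψ S 0| * ww S) / a ≤ ∑ S ∈ Tp k y n a, F S :=
    fun a _ => by
      rw [sum_div]
      refine sum_le_sum fun S hS => (div_le_div_of_nonneg_right (mul_le_mul_of_nonneg_right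
        (ETF2_a hr h0 S) (ww_pos S).le) (by positivity)).trans ?_
      rw [sum_mul, sum_div]
      refine sum_le_sum fun P hP => ?_
      obtain ⟨-, a1, a2⟩ := mem_Rg.1 ((mem_Tp.1 hS).1 hP)
      exact div_le_div_of_nonneg_left (by have := ww_pos S; positivity)
        (by exact_mod_cast (by omega : 0 < P.natDegree)) (by exact_mod_cast a2)
  refine (sum_le_sum b1).trans ?_
  rw [← sum_biUnion fun a _ b _ h => disjoint_left.2 fun S h1 h2 => h (by
    have := (mem_Tp.1 h1).2; have := (mem_Tp.1 h2).2; omega)]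
  refine (sum_le_sum_of_subset_of_nonneg (t := (Rg k y n).powerset) (fun S hS => ?_)
    fun S _ _ => sum_nonneg fun _ _ => by have := ww_pos S; positivity).trans ?_
  · obtain ⟨a, h1, h2⟩ := mem_biUnion.1 hS
    exact mem_powerset.2 ((mem_Tp.1 h2).1.trans (Rg_mono le_rfl (mem_Ioc.1 h1).2))
  rw [sum_comm' (t' := Rg k y n) (s' := fun P => (Rg k y n).powerset.filter (P ∈ ·))
    fun S P => by
      simp only [mem_filter, mem_powerset]
      exact ⟨fun h => ⟨h, h.1 h.2⟩, fun h => h.1⟩]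
  refine (sum_le_sum (g := fun P : k[X] => 1 / qq k ^ P.natDegree *
    ((∑ S ∈ (Rg k y P.natDegree).powerset, ww S * |Gf ψ S P.natDegree|) *
      (2 * n / P.natDegree)) / P.natDegree) fun P hP => ?_).trans ?_
  · obtain ⟨-, a1, a2⟩ := mem_Rg.1 hP
    rw [← sum_div]
    refine div_le_div_of_nonneg_right ((ETF2_b hr hm (fun S => |Gf ψ S P.natDegree|)
      (fun _ => abs_nonneg _) y n (by omega)).trans ?_) (by positivity)
    refine mul_le_mul_of_nonneg_left (mul_le_mul_of_nonneg_left ?_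
      (sum_nonneg fun S _ => by have := ww_pos S; positivity)) (by positivity)
    obtain ⟨b, hb⟩ : ∃ b, P.natDegree = b + 1 := ⟨P.natDegree - 1, by omega⟩
    have := hPRD k b n (fun _ => 1) fun _ => zero_le_one
    have b0 : (1 : ℝ) ≤ b := by exact_mod_cast (by omega : 1 ≤ b)
    have n0 : (0 : ℝ) < n := by exact_mod_cast (by omega : 0 < n)
    simp only [prod_const_one, one_mul] at this
    rw [hb, Nat.add_sub_cancel]
    refine this.trans ((Real.exp_le_exp.2 (harm_le (by omega) (by omega))).trans ?_)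
    rw [Real.exp_log (by positivity), div_le_div_iff₀ (by positivity) (by positivity)]
    push_cast
    nlinarith
  · rw [sum_Rg y n fun b => 1 / qq k ^ b *
      ((∑ S ∈ (Rg k y b).powerset, ww S * |Gf ψ S b|) * (2 * n / b)) / b, mul_sum]
    refine sum_le_sum fun b hb => ?_
    obtain ⟨a1, a2⟩ := mem_Ioc.1 hb
    have b0 : (0 : ℝ) < b := by exact_mod_cast (by omega : 0 < b)
    have n0 : (0 : ℝ) < n := by exact_mod_cast (by omega : 0 < n)
    have := mul_le_mul_of_nonneg_right (card_Pd_le (k := k) (a := b) (by omega))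
      (show 0 ≤ (∑ S ∈ (Rg k y b).powerset, ww S * |Gf ψ S b|) * (2 * n / b) / b from by
        have : 0 ≤ ∑ S ∈ (Rg k y b).powerset, ww S * |Gf ψ S b| :=
          sum_nonneg fun S _ => by have := ww_pos S; positivity
        positivity)
    refine le_trans (le_of_eq ?_) (this.trans (le_of_eq ?_)) <;> field_simp

end Pool.Agent.P.MP_6f5b02_nt.CP
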