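import Pool.Agent.P.MP_6f5b02_nt.CP.If

/-! Step FEJ. -/

namespace Pool.Agent.P.MP_6f5b02_nt.CP

open Polynomial Finset Filter
open Pool.Agent.P.MP_8be758_nt Pool.Agent.P.MP_8be758_nt.C2 Pool.Agent.P.MP_8be758_nt.L2
open scoped Classical

theorem FEJ_a (a : ℕ → ℝ) (h : ℕ) :
    ∑ j ∈ range h, ∑ i ∈ range j, (a i - a j) ^ 2 =
      h * ∑ i ∈ range h, a i ^ 2 - (∑ i ∈ range h, a i) ^ 2 := by
  induction h with
  | zero => simp
  | succ h ih =>
    have e : ∑ i ∈ range h, (a i - a h) ^ 2 =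
        ∑ i ∈ range h, a i ^ 2 - 2 * a h * ∑ i ∈ range h, a i + h * a h ^ 2 := by
      rw [mul_sum, ← sum_sub_distrib, ← card_range h, ← nsmul_eq_mul, ← sum_const, card_range,
        ← sum_add_distrib]
      exact sum_congr rfl fun _ _ => by ring
    rw [sum_range_succ, ih, e, sum_range_succ, sum_range_succ]
    push_cast
    ring

theorem FEJ_b (D : ℕ → ℝ) (h : ℕ) :
    ∑ j ∈ range h, ∑ i ∈ range j, D (j - i) = ∑ a ∈ Ioc 0 h, ((h : ℝ) - a) * D a := by
  induction h with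
  | zero => simp
  | succ h ih =>
    rw [sum_range_succ, ih, sum_Ioc_succ_top (Nat.zero_le h), sub_self, zero_mul, add_zero,
      show ∑ i ∈ range h, D (h - i) = ∑ a ∈ Ioc 0 h, D a from sum_nbij' (h - ·) (h - ·)
        (fun i hi => by simp at hi ⊢; omega) (fun i hi => by simp at hi ⊢; omega)
        (fun i hi => by simp at hi ⊢; omega) (fun i hi => by simp at hi ⊢; omega) fun _ _ => rfl,
      ← sum_add_distrib]
    exact sum_congr rfl fun _ _ => by push_cast; ring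

theorem FEJ_c {f : ℤ → ℝ} (hf : (Function.support f).Finite) (h : ℕ) :
    ∑ a ∈ Ioc 0 h, ((h : ℝ) - a) * nrm (fun x => f x - f (x + a)) ≤ h ^ 2 * nrm f := by
  obtain ⟨T, hT⟩ : ∃ T : Finset ℤ, ∀ x ∉ T, ∀ i ∈ range h, f (x + i) = 0 :=
    ⟨(range h).biUnion fun i => hf.toFinset.image (· - (i : ℤ)), fun x hx i hi => by
      by_contra h1
      exact hx (mem_biUnion.2 ⟨i, hi, mem_image.2 ⟨_, hf.mem_toFinset.2 h1, by simp⟩⟩)⟩
  have e1 : ∀ j ∈ range h, ∀ i ∈ range j, nrm (fun x => f x - f (x + (j - i : ℕ))) =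
      ∑ x ∈ T, (f (x + i) - f (x + j)) ^ 2 := fun j hj i hi => by
    rw [mem_range] at hi hj
    rw [← nrm_shift _ i, nrm_eq (T := T) fun x hx => by
      rw [Nat.cast_sub hi.le, add_assoc, add_sub_cancel, hT x hx j (mem_range.2 hj),
        hT x hx i (mem_range.2 (hi.trans hj)), sub_zero]]
    simp only [Nat.cast_sub hi.le, add_assoc, add_sub_cancel]
  have e2 : ∀ i ∈ range h, ∑ x ∈ T, f (x + i) ^ 2 = nrm f := fun i hi => by
    rw [← nrm_shift f i, nrm_eq (T := T) fun x hx => hT x hx i hi]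
  rw [← FEJ_b fun a => nrm (fun x => f x - f (x + a)),
    sum_congr rfl fun j hj => (sum_congr rfl (e1 j hj)).trans sum_comm, sum_comm]
  refine (sum_le_sum fun x _ => (FEJ_a (fun i => f (x + i)) h).le.trans
    (sub_le_self _ (sq_nonneg _))).trans (le_of_eq ?_)
  rw [← mul_sum, sum_comm, sum_congr rfl e2, sum_const, card_range, nsmul_eq_mul]
  ring

theorem FEJ_d {a : ℕ} (ha : 1 ≤ a) {n : ℕ} (h : a ≤ n) :
    ∑ h ∈ Ioc a n, 2 / (((h : ℝ) - 1) * h * (h + 1)) * (h - a) =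
      1 / a - (2 * n + 1 - a) / (n * (n + 1)) := by
  have h0 : (0 : ℝ) < a := by exact_mod_cast ha
  induction n, h using Nat.le_induction with
  | base => simp only [Ioc_self, sum_empty]; field_simp; ring
  | succ n hn ih =>
    have : (0 : ℝ) < n := by exact_mod_cast (by omega : 0 < n)
    rw [sum_Ioc_succ_top hn, ih]
    push_cast
    rw [add_sub_cancel_right]
    field_simp
    ring

theorem FEJ_e {y : ℕ} (hy : 1 ≤ y) {n : ℕ} (h : y ≤ n) :
    ∑ h ∈ Ioc y n, 2 / (((h : ℝ) - 1) * h * (h + 1)) * h ^ 2 + 1 / n ≤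
      1 / y + 2 * ∑ h ∈ Ioc y n, 1 / (h : ℝ) := by
  induction n, h using Nat.le_induction with
  | base => simp
  | succ n hn ih =>
    have : (0 : ℝ) < n := by exact_mod_cast (by omega : 0 < n)
    rw [sum_Ioc_succ_top hn, sum_Ioc_succ_top hn]
    push_cast
    have e : 2 / (((n : ℝ) + 1 - 1) * (n + 1) * (n + 1 + 1)) * (n + 1) ^ 2 =
        1 / n + 1 / (n + 1 + 1) := by rw [add_sub_cancel_right]; field_simp; ring
    have : 1 / ((n : ℝ) + 1 + 1) ≤ 1 / (n + 1) := by gcongr; linarith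
    linarith

theorem c_FEJ :
    Q_FEJ := by
  intro f y n hf hy hn
  have h0 : (0 : ℝ) < n := by exact_mod_cast (by omega : 0 < n)
  set D : ℕ → ℝ := fun a => nrm (fun x => f x - f (x + a)) with hD
  have hD0 : ∀ a, 0 ≤ D a := fun a => nrm_nonneg _
  set w : ℕ → ℝ := fun h => 2 / (((h : ℝ) - 1) * h * (h + 1)) with hw
  have hw0 : ∀ h ∈ Ioc y n, 0 ≤ w h := fun h hh => by
    have : (1 : ℝ) ≤ h := by exact_mod_cast hy.trans (mem_Ioc.1 hh).1.le
    exact div_nonneg two_pos.le (mul_nonneg (mul_nonneg (by linarith) (by linarith)) (by linarith))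
  have k1 : ∀ h : ℕ, ∑ a ∈ Ioc y n, (if a < h then ((h : ℝ) - a) * D a else 0) ≤ h ^ 2 * nrm f :=
    fun h => by
      rw [← sum_filter]
      refine le_trans (sum_le_sum_of_subset_of_nonneg (fun a ha => ?_) fun a ha _ => ?_) (FEJ_c hf h)
      · simp only [mem_filter, mem_Ioc] at ha ⊢; omega
      · exact mul_nonneg (sub_nonneg.2 (by exact_mod_cast (mem_Ioc.1 ha).2)) (hD0 a)
  have k2 : ∀ a ∈ Ioc y n, D a / a ≤
      ∑ h ∈ Ioc y n, w h * (if a < h then ((h : ℝ) - a) * D a else 0) +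
        1 / (n : ℝ) ^ 2 * if a < 2 * n then (((2 * n : ℕ) : ℝ) - a) * D a else 0 := fun a ha => by
    obtain ⟨a1, a2⟩ := mem_Ioc.1 ha
    have a3 : (a : ℝ) ≤ n := by exact_mod_cast a2
    simp only [mul_ite, mul_zero, ← mul_assoc]
    rw [← sum_filter, show (Ioc y n).filter (a < ·) = Ioc a n by ext; simp; omega, ← sum_mul,
      FEJ_d (by omega) a2, if_pos (by omega), ← add_mul, div_eq_mul_one_div, mul_comm]
    refine mul_le_mul_of_nonneg_right ?_ (hD0 a)
    have : (2 * n + 1 - a) / ((n : ℝ) * (n + 1)) ≤ 1 / (n : ℝ) ^ 2 * (((2 * n : ℕ) : ℝ) - a) := by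
      rw [one_div_mul_eq_div, div_le_div_iff₀ (by positivity) (by positivity)]
      push_cast
      nlinarith [mul_nonneg h0.le (sub_nonneg.2 a3)]
    linarith
  refine (sum_le_sum k2).trans ?_
  rw [sum_add_distrib, sum_comm, ← mul_sum]
  simp only [← mul_sum]
  refine (add_le_add (sum_le_sum fun h hh => mul_le_mul_of_nonneg_left (k1 h) (hw0 h hh))
    (mul_le_mul_of_nonneg_left (k1 _) (by positivity))).trans ?_
  simp only [← mul_assoc, ← sum_mul, ← add_mul]
  refine mul_le_mul_of_nonneg_right ?_ (nrm_nonneg f)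
  have b1 := FEJ_e hy hn
  have b2 := harm_le hy hn
  have b3 : 1 / (n : ℝ) ^ 2 * ((2 * n : ℕ) : ℝ) ^ 2 = 4 := by push_cast; field_simp; norm_num
  have b4 : 1 / (y : ℝ) ≤ 1 := by rw [one_div]; exact Nat.cast_inv_le_one y
  have b5 : 0 ≤ 1 / (n : ℝ) := by positivity
  linarith

end Pool.Agent.P.MP_6f5b02_nt.CP
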