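import Pool.Agent.P.MP_6f5b02_nt.CP.If

/-! Step FIN. -/

namespace Pool.Agent.P.MP_6f5b02_nt.CP

open Polynomial Finset Filter
open Pool.Agent.P.MP_8be758_nt Pool.Agent.P.MP_8be758_nt.C2 Pool.Agent.P.MP_8be758_nt.L2
open scoped Classical

open UniqueFactorizationMonoid in
theorem c_FIN (hLOW : Q_LOW) :
    Q_FIN := by
  intro k _ _ _ al hal
  obtain ⟨H, n0, c, hH, hc, h⟩ := hLOW k al 2 le_rfl hal
  refine ⟨(Pr k 2).card + 8 * H, c, hc, eventually_atTop.2 ⟨n0 + H + al.natDegree, fun N hN e => ?_⟩⟩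
  refine (h N (by omega) ((-1) ^ e) (neg_one_pow_eq_or _ _)).trans (Nat.cast_le.2 ?_)
  rw [← Set.ncard_coe_finset]
  refine Set.ncard_le_ncard_of_injOn (fun p => gg p.1 p.2) (fun p hp => ?_)
    (fun _ _ _ _ e => Prod.ext (gg_inj e).1 (gg_inj e).2)
    ((Mo k (2 * N)).finite_toSet.subset fun P hP => mem_coe.2 (mem_Mo.2 ⟨hP.1, hP.2.2.1⟩))
  obtain ⟨p0, p3, p4, p5⟩ := mem_filter.1 (mem_coe.1 hp)
  obtain ⟨p1, p2⟩ := mem_product.1 p0
  have v1 := (mem_erase.1 (Mo_low (by omega) (mem_Vs.1 p2).1)).2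
  obtain ⟨g1, g2⟩ := mem_Mo.1 (gg_mem p1 v1)
  obtain ⟨f1, f2⟩ := mem_Mo.1 (gg_mem (U2_mem (al := al) p1 v1 (by omega) (by omega))
    (low_mono (by omega) v1))
  rw [← FQ_gg] at f1 f2
  generalize gg p.1 p.2 = g at *
  have hs : Squarefree (FQ al g) := by
    by_contra h0
    rw [mu_zero h0] at p5
    exact pow_ne_zero e (by norm_num) p5.symm
  have e1 : (normalizedFactors (FQ al g)).card = (pf (FQ al g)).card := by
    rw [← Multiset.toFinset_card_of_nodup
      ((squarefree_iff_nodup_normalizedFactors f1.ne_zero).1 hs)]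
    congr 1
    ext P
    rw [Multiset.mem_toFinset, Polynomial.mem_normalizedFactors_iff f1.ne_zero, mem_pf f1.ne_zero, IsPr]
    tauto
  refine ⟨g1, p4, g2, hs, e1.trans_le ?_, ?_⟩
  · have y1 : 1 ≤ N / H := (Nat.le_div_iff_mul_le hH).2 (by omega)
    have y2 := Nat.lt_mul_div_succ N hH
    have a1 := card_mul_le_dg (S := (pf (FQ al g)).filter fun P => N / H < P.natDegree)
      fun P hP => (mem_filter.1 hP).2.le
    have a2 := (dg_mono (filter_subset (fun P => N / H < P.natDegree) _)).trans (dg_pf_le f1.ne_zero)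
    refine (card_le_card (t := Pr k 2 ∪ (pf (FQ al g)).filter fun P => N / H < P.natDegree)
      fun P hP => ?_).trans ((card_union_le _ _).trans (Nat.add_le_add_left
        (Nat.le_of_mul_le_mul_right (by nlinarith) y1) _))
    obtain ⟨a, b⟩ := (mem_pf f1.ne_zero).1 hP
    by_contra h1
    simp only [mem_union, mem_Pr, mem_filter, a, hP, true_and, not_or, not_le, not_lt] at h1
    exact p3 P (mem_Pr.2 ⟨a, h1.2⟩) (Or.inr ⟨h1.1, h1.2, b⟩)
  · rw [mu_eq_sg f1 hs, sg, ← e1, neg_one_pow_eq_pow_mod_two, neg_one_pow_eq_pow_mod_two (n := e)] at p5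
    rcases Nat.mod_two_eq_zero_or_one e with h1 | h1 <;>
      rcases Nat.mod_two_eq_zero_or_one (normalizedFactors (FQ al g)).card with h2 | h2
    · exact h2.trans h1.symm
    · rw [h1, h2] at p5; norm_num at p5
    · rw [h1, h2] at p5; norm_num at p5
    · exact h2.trans h1.symm

end Pool.Agent.P.MP_6f5b02_nt.CP
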