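import Pool.Agent.P.MP_6f5b02_nt.CP.If

/-! Step FL. -/

namespace Pool.Agent.P.MP_6f5b02_nt.CP

open Polynomial Finset Filter
open Pool.Agent.P.MP_8be758_nt Pool.Agent.P.MP_8be758_nt.C2 Pool.Agent.P.MP_8be758_nt.L2
open scoped Classical

section
variable {k : Type} [Field k]

/-- truncated elementary symmetric sums -/
noncomputable def FL_es (P : Finset k[X]) (m : ℕ) (g : k[X] → ℝ) : ℝ :=
  ∑ E ∈ P.powerset, (if E.card = m then 1 else 0) * ∏ p ∈ E, g p

/-- the truncated inclusion-exclusion sum -/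
noncomputable def FL_tr (P : Finset k[X]) (m : ℕ) (g : k[X] → ℝ) : ℝ :=
  ∑ E ∈ P.powerset, (if E.card < m then sg E else 0) * ∏ p ∈ E, g p

theorem FL_ins {P : Finset k[X]} {p : k[X]} (hp : p ∉ P) (m : ℕ) (g : k[X] → ℝ) :
    FL_tr (insert p P) (m + 1) g = FL_tr P (m + 1) g - g p * FL_tr P m g := by
  rw [FL_tr, sum_powerset_insert hp, FL_tr, FL_tr, mul_sum, sub_eq_add_neg, ← sum_neg_distrib]
  congr 1
  refine sum_congr rfl fun E hE => ?_
  have h : p ∉ E := fun h => hp (mem_powerset.1 hE h)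
  rw [card_insert_of_notMem h, sg_insert h, prod_insert h]
  simp only [Nat.add_lt_add_iff_right]
  split_ifs <;> ring

theorem FL_bonf (g : k[X] → ℝ) (P : Finset k[X]) (hg : ∀ p ∈ P, 0 ≤ g p ∧ g p ≤ 1) (m : ℕ) :
    0 ≤ (-1) ^ m * (∏ p ∈ P, (1 - g p) - FL_tr P m g) := by
  induction P using Finset.induction_on generalizing m with
  | empty => cases m <;> simp [FL_tr, sg_empty]
  | insert p P hp ih =>
    rcases m with _ | m
    · simpa [FL_tr] using prod_nonneg fun p hp => sub_nonneg.2 (hg p hp).2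
    have hg' : ∀ q ∈ P, 0 ≤ g q ∧ g q ≤ 1 := fun q hq => hg q (mem_insert_of_mem hq)
    rw [prod_insert hp, FL_ins hp]
    exact (add_nonneg (ih hg' (m + 1))
      (mul_nonneg (hg p (mem_insert_self _ _)).1 (ih hg' m))).trans_eq (by ring)

theorem FL_succ (P : Finset k[X]) (m : ℕ) (g : k[X] → ℝ) :
    FL_tr P (m + 1) g = FL_tr P m g + (-1) ^ m * FL_es P m g := by
  rw [FL_tr, FL_tr, FL_es, mul_sum, ← sum_add_distrib]
  refine sum_congr rfl fun E _ => ?_
  rcases lt_trichotomy E.card m with h | h | h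
  · simp [h, h.ne, h.trans (Nat.lt_succ_self m)]
  · simp [← h, sg]
  · simp [h.ne', h.not_gt, h.not_ge]

theorem FL_mul {P Q : Finset k[X]} (hd : Disjoint P Q) (a b : Finset k[X] → ℝ) (g : k[X] → ℝ) :
    ∑ E ∈ (P ∪ Q).powerset, a (E ∩ P) * b (E ∩ Q) * ∏ p ∈ E, g p =
      (∑ E ∈ P.powerset, a E * ∏ p ∈ E, g p) * ∑ E ∈ Q.powerset, b E * ∏ p ∈ E, g p := by
  rw [sum_mul_sum, ← sum_product']
  refine sum_nbij' (fun E => (E ∩ P, E ∩ Q)) (fun x => x.1 ∪ x.2) (fun E _ => by simp)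
    (fun x hx => ?_) (fun E hE => ?_) (fun x hx => ?_) fun E hE => ?_
  · obtain ⟨h1, h2⟩ := mem_product.1 hx
    exact mem_powerset.2 (union_subset_union (mem_powerset.1 h1) (mem_powerset.1 h2))
  · rw [← inter_union_distrib_left, inter_eq_left.2 (mem_powerset.1 hE)]
  · obtain ⟨h1, h2⟩ := mem_product.1 hx
    rw [mem_powerset] at h1 h2
    rw [union_inter_distrib_right, union_inter_distrib_right, inter_eq_left.2 h1,
      inter_eq_left.2 h2, disjoint_iff_inter_eq_empty.1 (hd.symm.mono_left h2),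
      disjoint_iff_inter_eq_empty.1 (hd.mono_left h1), union_empty, empty_union]
  · rw [mul_mul_mul_comm, ← prod_union (hd.mono inter_subset_right inter_subset_right),
      ← inter_union_distrib_left, inter_eq_left.2 (mem_powerset.1 hE)]

theorem FL_blk (P : Finset k[X]) (h : k[X] → ℝ) (h1 : ∀ p ∈ P, 0 ≤ h p ∧ h p ≤ 1 / 2)
    (h2 : ∑ p ∈ P, h p ≤ 3) (d : ℕ) :
    FL_es P (2 * d + 17) h ≤ (∏ p ∈ P, (1 - h p)) / 2 ^ (d + 3) := by
  have a1 : 4 ^ (2 * d + 17) * FL_es P (2 * d + 17) h ≤ ∏ p ∈ P, (1 + 4 * h p) := by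
    rw [prod_one_add, FL_es, mul_sum]
    refine sum_le_sum fun E hE => ?_
    have := prod_nonneg fun p hp => (h1 p (mem_powerset.1 hE hp)).1
    rw [prod_mul_distrib, prod_const]
    split_ifs with h
    · rw [h, one_mul]
    · rw [zero_mul, mul_zero]; positivity
  have a2 : ∏ p ∈ P, (1 + 4 * h p) ≤ ∏ p ∈ P, Real.exp (6 * h p) * (1 - h p) :=
    prod_le_prod (fun p hp => by linarith [(h1 p hp).1]) fun p hp => by
      obtain ⟨b1, b2⟩ := h1 p hp
      have := Real.quadratic_le_exp_of_nonneg (show 0 ≤ 6 * h p by linarith)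
      nlinarith [mul_nonneg b1 b1, mul_nonneg (mul_nonneg b1 b1) (sub_nonneg.2 b2)]
  have a3 : Real.exp (∑ p ∈ P, 6 * h p) ≤ 3 ^ 18 := by
    rw [← mul_sum]
    refine (Real.exp_le_exp.2 (show _ ≤ ((18 : ℕ) : ℝ) * 1 by push_cast; linarith)).trans ?_
    rw [Real.exp_nat_mul]
    exact pow_le_pow_left₀ (Real.exp_pos _).le (by linarith [Real.exp_one_lt_d9]) _
  have a4 := prod_nonneg fun p hp => show 0 ≤ 1 - h p by linarith [(h1 p hp).2]
  rw [prod_mul_distrib, ← Real.exp_sum] at a2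
  have a5 := (a1.trans a2).trans (mul_le_mul_of_nonneg_right a3 a4)
  have a6 : (3 : ℝ) ^ 18 * 2 ^ (d + 3) ≤ 4 ^ (2 * d + 17) := by
    rw [pow_add, pow_add, pow_mul]
    have : (2 : ℝ) ^ d ≤ (4 ^ 2) ^ d := pow_le_pow_left₀ (by norm_num) (by norm_num) _
    nlinarith [show (0 : ℝ) < 2 ^ d by positivity]
  rw [le_div_iff₀ (by positivity)]
  refine le_of_mul_le_mul_left ?_ (show (0 : ℝ) < 4 ^ (2 * d + 17) by positivity)
  nlinarith [mul_le_mul_of_nonneg_right a5 (show (0 : ℝ) ≤ 2 ^ (d + 3) by positivity),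
    mul_le_mul_of_nonneg_right a6 a4]

theorem FL_ind (y : ℕ) : ∀ (d : ℕ) (P : Finset k[X]),
    (∀ p ∈ P, 1 ≤ p.natDegree ∧ p.natDegree ≤ y) →
    ∃ la De : Finset k[X] → ℝ, Sv P (y * (38 + 4 * d)) d la De := by
  induction y using Nat.strong_induction_on with
  | _ y ih =>
  intro d P hP
  rcases y.eq_zero_or_pos with rfl | hy
  · obtain rfl : P = ∅ := eq_empty_of_forall_notMem fun p hp => by have := hP p hp; omega
    exact ⟨fun _ => 1, fun _ => 0, by simp, by simp [dg_empty], by simp, by simp⟩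
  set Q := P.filter fun p => p.natDegree ≤ y / 2 with hQ
  set B := P.filter fun p => ¬ p.natDegree ≤ y / 2 with hB
  have hd : Disjoint Q B := disjoint_filter_filter_not _ _ _
  have hU : P = Q ∪ B := (filter_union_filter_not_eq _ _).symm
  obtain ⟨la, De, s1, s2, s3, s4⟩ := ih (y / 2) (by omega) (d + 1) Q
    fun p hp => ⟨(hP p (mem_filter.1 hp).1).1, (mem_filter.1 hp).2⟩
  have key : ∀ g : k[X] → ℝ, (∀ p ∈ B, 0 ≤ g p ∧ g p ≤ 1) →
      ∏ p ∈ B, (1 - g p) ≤ FL_tr B (2 * d + 17) g ∧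
        FL_tr B (2 * d + 17) g ≤ ∏ p ∈ B, (1 - g p) + FL_es B (2 * d + 17) g := fun g hg => by
    have h1 := FL_bonf g B hg (2 * d + 17)
    have h2 := FL_bonf g B hg (2 * d + 17 + 1)
    have e : (-1 : ℝ) ^ (2 * d + 17) = -1 := by rw [pow_add, pow_mul]; norm_num
    rw [FL_succ, pow_succ, e] at h2
    rw [e] at h1
    constructor <;> linarith
  have e1 := FL_mul hd la fun E => if E.card < 2 * d + 17 then sg E else 0
  have e2 : ∀ g : k[X] → ℝ, ∑ E ∈ (Q ∪ B).powerset,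
      (De (E ∩ Q) * (if (E ∩ B).card < 2 * d + 17 then sg (E ∩ B) else 0) +
        la (E ∩ Q) * if (E ∩ B).card = 2 * d + 17 then 1 else 0) * ∏ p ∈ E, g p =
      (∑ E ∈ Q.powerset, De E * ∏ p ∈ E, g p) * FL_tr B (2 * d + 17) g +
        (∑ E ∈ Q.powerset, la E * ∏ p ∈ E, g p) * FL_es B (2 * d + 17) g := fun g => by
    rw [FL_tr, FL_es, ← FL_mul hd, ← FL_mul hd, ← sum_add_distrib]
    exact sum_congr rfl fun _ _ => add_mul _ _ _
  rw [hU]
  refine ⟨fun E => la (E ∩ Q) * if (E ∩ B).card < 2 * d + 17 then sg (E ∩ B) else 0,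
    fun E => De (E ∩ Q) * (if (E ∩ B).card < 2 * d + 17 then sg (E ∩ B) else 0) +
      la (E ∩ Q) * if (E ∩ B).card = 2 * d + 17 then 1 else 0,
    fun E => ?_, fun E hE h => ?_, fun g hg => ?_, fun h h1 h2 => ?_⟩
  rotate_left 2
  · obtain ⟨a1, a2⟩ := s3 g fun p hp => hg p (mem_union_left _ hp)
    obtain ⟨b1, b2⟩ := key g fun p hp => hg p (mem_union_right _ hp)
    have c1 := prod_nonneg fun p (hp : p ∈ Q) => sub_nonneg.2 (hg p (mem_union_left _ hp)).2
    have c2 := prod_nonneg fun p (hp : p ∈ B) => sub_nonneg.2 (hg p (mem_union_right _ hp)).2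
    rw [e1 g, e2 g, prod_union hd, ← FL_tr]
    refine ⟨mul_le_mul a1 b1 c2 (c1.trans a1), ?_⟩
    nlinarith [mul_le_mul_of_nonneg_right a2 (c2.trans b1), mul_le_mul_of_nonneg_left b2 c1,
      mul_le_mul_of_nonneg_right a1 (show 0 ≤ FL_es B (2 * d + 17) g by linarith)]
  · have hg : ∀ p ∈ Q ∪ B, 0 ≤ h p ∧ h p ≤ 1 := fun p hp => ⟨(h1 p hp).1, by linarith [(h1 p hp).2]⟩
    have hm : ∀ S ⊆ Q ∪ B, ∀ a : ℕ, 1 ≤ a →
        ∑ p ∈ S.filter (fun p => p.natDegree = a), h p ≤ 3 / (a : ℝ) := fun S hS a ha =>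
      (sum_le_sum_of_subset_of_nonneg (filter_subset_filter _ hS)
        fun p hp _ => (h1 p (mem_filter.1 hp).1).1).trans (h2 a ha)
    obtain ⟨a1, a2⟩ := s3 h fun p hp => hg p (mem_union_left _ hp)
    obtain ⟨b1, b2⟩ := key h fun p hp => hg p (mem_union_right _ hp)
    have a3 := s4 h (fun p hp => h1 p (mem_union_left _ hp)) (hm Q subset_union_left)
    have b3 := FL_blk B h (fun p hp => h1 p (mem_union_right _ hp)) (by
      rw [← sum_fiberwise_of_maps_to (g := natDegree) (t := Ioc (y / 2) y) fun p hp =>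
        mem_Ioc.2 ⟨not_le.1 (mem_filter.1 hp).2, (hP p (mem_filter.1 hp).1).2⟩]
      refine (sum_le_card_nsmul _ _ (3 / ((y / 2 + 1 : ℕ) : ℝ)) fun a ha => ?_).trans ?_
      · have := (mem_Ioc.1 ha).1
        refine (hm B subset_union_right a (by omega)).trans ?_
        gcongr
        omega
      · rw [Nat.card_Ioc, nsmul_eq_mul, mul_div_assoc', div_le_iff₀ (by positivity), mul_comm]
        gcongr
        omega) d
    have c1 := prod_nonneg fun p (hp : p ∈ Q) => sub_nonneg.2 (hg p (mem_union_left _ hp)).2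
    have c2 := prod_nonneg fun p (hp : p ∈ B) => sub_nonneg.2 (hg p (mem_union_right _ hp)).2
    rw [e2 h, prod_union hd]
    have f1 := mul_le_mul a3 (b2.trans (add_le_add_right b3 _)) (c2.trans b1) (by positivity)
    have f2 := mul_le_mul (a2.trans (add_le_add_right a3 _)) b3 (by linarith) (by positivity)
    refine (add_le_add f1 f2).trans ?_
    have c3 := mul_nonneg c1 c2
    have c4 : (1 : ℝ) ≤ 2 ^ d := one_le_pow₀ one_le_two
    rw [pow_add, pow_add]
    field_simp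
    nlinarith
  · rw [abs_mul]
    refine mul_le_one₀ (s1 _) (abs_nonneg _) ?_
    split_ifs
    · exact (abs_sg _).le
    · simp
  · have hc : (la (E ∩ Q) ≠ 0 ∨ De (E ∩ Q) ≠ 0) ∧ (E ∩ B).card ≤ 2 * d + 17 := by
      by_contra hc
      rw [not_and_or, not_or, not_not, not_not, not_le] at hc
      rcases hc with hc | hc
      · simp [hc.1, hc.2] at h
      · simp [hc.not_gt, hc.ne'] at h
    have a1 := s2 _ (mem_powerset.2 inter_subset_right) hc.1
    have a2 : dg (E ∩ B) ≤ (E ∩ B).card * y := by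
      simpa [dg] using sum_le_card_nsmul (E ∩ B) _ y
        fun p hp => (hP p (mem_filter.1 (mem_inter.1 hp).2).1).2
    have a3 := dg_union_le (E ∩ Q) (E ∩ B)
    rw [← inter_union_distrib_left, inter_eq_left.2 (mem_powerset.1 hE)] at a3
    have a4 := Nat.mul_le_mul_right y hc.2
    have a5 := Nat.mul_le_mul_right (21 + 2 * d) (Nat.div_mul_le_self y 2)
    nlinarith

end

theorem c_FL :
    Q_FL := by
  refine ⟨42, by norm_num, fun k _ _ s y P hs hy hP => ?_⟩
  obtain ⟨la, De, s1, s2, s3⟩ := FL_ind y s P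
    fun p hp => ⟨(mem_Pr.1 (hP hp)).1.pos, (mem_Pr.1 (hP hp)).2⟩
  exact ⟨la, De, s1, fun E hE h => (s2 E hE h).trans (by nlinarith), s3⟩

end Pool.Agent.P.MP_6f5b02_nt.CP
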