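import Pool.Agent.P.MP_6f5b02_nt.CP.If

/-! Step GAU. -/

namespace Pool.Agent.P.MP_6f5b02_nt.CP

open Polynomial Finset Filter
open Pool.Agent.P.MP_8be758_nt Pool.Agent.P.MP_8be758_nt.C2 Pool.Agent.P.MP_8be758_nt.L2
open scoped Classical

theorem c_GAU :
    Q_GAU := by
  intro k _ _ a ha
  obtain ⟨p, hp⟩ := CharP.exists k
  have := Fintype.ofFinite k
  obtain ⟨n, -, hn⟩ := FiniteField.card k p
  have h1 : Squarefree (X ^ Nat.card k ^ a - X : k[X]) :=
    (galois_poly_separable p _ (dvd_pow (by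
      rw [Nat.card_eq_fintype_card, hn]; exact dvd_pow_self _ n.ne_zero) (by omega))).squarefree
  have h2 := GAUSS_sf h1
  rw [FiniteField.X_pow_card_pow_sub_X_natDegree_eq _ (by omega) Finite.one_lt_card] at h2
  have h3 : pf (X ^ Nat.card k ^ a - X : k[X]) ⊆ Pd k a ∪ Pr k (a / 2) := fun P hP => by
    obtain ⟨b, c⟩ := (mem_pf h1.ne_zero).1 hP
    obtain ⟨d, hd⟩ := b.2.natDegree_dvd_iff_dvd_X_pow_card_pow_sub_X.2 c
    rw [mem_union, mem_Pd, mem_Pr]
    rcases d with _ | _ | d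
    · omega
    · exact .inl ⟨b, by omega⟩
    · exact .inr ⟨b, (Nat.le_div_iff_mul_le two_pos).2 (hd ▸ Nat.mul_le_mul_left _ (by omega))⟩
  have h5 : qq k ^ a ≤ dg (Pd k a) + dg (Pr k (a / 2)) := by
    unfold qq
    exact_mod_cast h2.trans ((dg_mono h3).trans (dg_union_le _ _))
  have h6 := GAUSS_pr (k := k) (a / 2)
  have h7 : qq k ^ (a / 2) ≤ √(qq k) ^ a := by
    rw [← Real.sq_sqrt (qq_pos (k := k)).le, ← pow_mul, Real.sqrt_sq (Real.sqrt_nonneg _)]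
    exact pow_le_pow_right₀ (Real.one_le_sqrt.2 one_le_qq) (Nat.mul_div_le _ _)
  rw [GAUSS_dg, Nat.cast_mul] at h5
  linarith

end Pool.Agent.P.MP_6f5b02_nt.CP
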