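import Pool.Agent.P.MP_6f5b02_nt.CP.If

/-! Step GOW. -/

namespace Pool.Agent.P.MP_6f5b02_nt.CP

open Polynomial Finset Filter
open Pool.Agent.P.MP_8be758_nt Pool.Agent.P.MP_8be758_nt.C2 Pool.Agent.P.MP_8be758_nt.L2
open scoped Classical

theorem c_GOW (hVDC : C2.S_VDC) :
    Q_GOW := by
  intro k _ _ _ L H l
  have hq := qq_pos (k := k)
  induction hn : l.length generalizing l with
  | zero => intro b _; rw [List.length_eq_zero_iff.1 hn]; simp [NG]
  | succ n ih =>
    intro b h
    obtain ⟨p, l, rfl⟩ := List.exists_cons_of_length_eq_add_one hn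
    obtain ⟨h1, h2, h3⟩ := h p List.mem_cons_self
    have v := hVDC k p.2 (fun x => (l.map fun p => p.2 x).prod * b x) p.1 L H h1 h2 h3
    set T : k[X] → ℝ := fun y => |∑ x ∈ low k L, (l.map fun p => p.2 x).prod * b x *
      ((l.map fun r => r.2 (x + p.1 * y)).prod * b (x + p.1 * y))| with hT
    have hl : ∀ y, (T y / qq k ^ L) ^ 2 ^ n ≤
        NG L H (l.map Prod.fst) (fun x => b x * b (x + p.1 * y)) := fun y => by
      have := ih (l.map fun r => (r.1, fun x => r.2 x * r.2 (x + p.1 * y))) (by simpa using hn)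
        (fun x => b x * b (x + p.1 * y)) fun r hr => by
          obtain ⟨r, hr', rfl⟩ := List.mem_map.1 hr
          obtain ⟨a1, a2, a3⟩ := h r (List.mem_cons_of_mem _ hr')
          refine ⟨a1, fun x => ?_, fun x t => ?_⟩
          · rw [abs_mul]; exact mul_le_one₀ (a2 _) (abs_nonneg _) (a2 _)
          · show r.2 _ * r.2 _ = r.2 _ * r.2 _
            rw [add_right_comm, a3, a3]
      simp only [List.map_map, Function.comp_def, List.prod_map_mul] at this
      rw [hT]
      simp only [mul_mul_mul_comm _ (b _)]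
      exact this
    have e : (|∑ x ∈ low k L, ((p :: l).map fun p => p.2 x).prod * b x| / qq k ^ L) ^ 2 ≤
        ∑ y ∈ low k H, 1 / qq k ^ H * (T y / qq k ^ L) := by
      rw [← mul_sum, ← sum_div, div_pow, sq_abs, one_div_mul_eq_div, div_div,
        div_le_div_iff₀ (by positivity) (by positivity)]
      simp only [List.map_cons, List.prod_cons, mul_assoc (p.2 _)]
      have := mul_le_mul_of_nonneg_right v (pow_pos hq L).le
      unfold qq at *
      linarith
    rw [pow_succ', pow_mul]
    refine (pow_le_pow_left₀ (sq_nonneg _) e _).trans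
      ((Real.pow_arith_mean_le_arith_mean_pow _ _ _ (fun _ _ => by positivity)
        (by rw [sum_const, nsmul_eq_mul, card_low', mul_one_div_cancel (by positivity)])
        (fun _ _ => by rw [hT]; positivity) _).trans ?_)
    rw [List.map_cons, NG, ← mul_sum, one_div_mul_eq_div]
    exact div_le_div_of_nonneg_right (sum_le_sum fun y _ => hl y) (by positivity)

end Pool.Agent.P.MP_6f5b02_nt.CP
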