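import Pool.Agent.P.MP_6f5b02_nt.CP.If

/-! Step HP. -/

namespace Pool.Agent.P.MP_6f5b02_nt.CP

open Polynomial Finset Filter
open Pool.Agent.P.MP_8be758_nt Pool.Agent.P.MP_8be758_nt.C2 Pool.Agent.P.MP_8be758_nt.L2
open scoped Classical

theorem HP_two {k : Type} [Field k] [Finite k] (al : k[X]) {P : k[X]} (hP : IsPr P) :
    ((low k P.natDegree).filter fun x => P ∣ FQ al x).card ≤ 2 := by
  by_contra h
  obtain ⟨a, b, c, ha, hb, hc, hab, hac, hbc⟩ := two_lt_card_iff.1 (not_le.1 h)
  rw [mem_filter] at ha hb hc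
  have key : ∀ x y, x ∈ low k P.natDegree ∧ P ∣ FQ al x → y ∈ low k P.natDegree ∧ P ∣ FQ al y →
      x ≠ y → P ∣ x + y + 1 := fun x y hx hy hxy => by
    have := dvd_sub hx.2 hy.2
    rw [show FQ al x - FQ al y = (x - y) * (x + y + 1) by unfold FQ; ring] at this
    exact (hP.prime.dvd_or_dvd this).resolve_left fun h =>
      hxy (sub_eq_zero.1 (eq_zero_of_mem_low (sub_mem_low hx.1 hy.1) h le_rfl))
  have := dvd_sub (key a b ha hb hab) (key a c ha hc hac)
  rw [show a + b + 1 - (a + c + 1) = b - c by ring] at this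
  exact hbc (sub_eq_zero.1 (eq_zero_of_mem_low (sub_mem_low hb.1 hc.1) this le_rfl))

theorem HP_one {k : Type} [Field k] [Finite k] (P : k[X]) :
    (low k P.natDegree).filter (fun x => P ∣ x) = {0} := by
  ext x
  rw [mem_filter, mem_singleton]
  exact ⟨fun h => eq_zero_of_mem_low h.1 h.2 le_rfl, fun h => h ▸ ⟨zero_mem_low _, dvd_zero _⟩⟩

theorem c_HP (hGAUSS : L2.S_GAUSS) :
    Q_HP := by
  intro k _ _ al z y hz
  have hq := qq_pos (k := k)
  have h3 : ∀ P : k[X], IsPr P → hp al z y P ≤ 3 / qq k ^ P.natDegree := fun P hP => by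
    have : ((low k P.natDegree).filter (Bp al z y P)).card ≤ 3 := by
      refine (card_le_card (t := {0} ∪ (low k P.natDegree).filter fun x => P ∣ FQ al x)
        fun x hx => ?_).trans ((card_union_le _ _).trans ?_)
      · rw [← HP_one P]
        simp only [mem_union, mem_filter] at hx ⊢
        exact hx.2.imp (fun h => ⟨hx.1, h⟩) fun h => ⟨hx.1, h.2.2⟩
      · have := HP_two al hP
        rw [card_singleton]; omega
    exact div_le_div_of_nonneg_right (by exact_mod_cast this) (by positivity)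
  refine ⟨fun P hP => ⟨?_, h3 P hP, hp_nonneg _ _ _ _, ?_⟩, fun T a hT ha => ?_⟩
  · exact div_le_div_of_nonneg_right (by exact_mod_cast card_pos.2 ⟨0, mem_filter.2
      ⟨zero_mem_low _, Or.inl (dvd_zero _)⟩⟩) (by positivity)
  · by_cases h : z < P.natDegree
    · refine (h3 P hP).trans ?_
      have := (two_pow_le_qq (k := k) 3).trans (qq_pow_mono (show 3 ≤ P.natDegree by omega))
      rw [div_le_div_iff₀ (by positivity) two_pos]
      linarith
    · rw [hp, filter_congr (q := fun x => P ∣ x) fun x _ => by simp [Bp, h], HP_one, card_singleton,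
        Nat.cast_one]
      have := (two_pow_le_qq (k := k) 1).trans (qq_pow_mono hP.pos)
      exact one_div_le_one_div_of_le two_pos (by linarith)
  · refine (sum_le_card_nsmul _ _ (3 / qq k ^ a) fun P hP => ?_).trans ?_
    · rw [← (mem_filter.1 hP).2]; exact h3 P (hT P (mem_filter.1 hP).1)
    · have h1 : ((T.filter fun P => P.natDegree = a).card : ℝ) ≤ (Pd k a).card := by
        exact_mod_cast card_le_card fun P hP =>
          mem_Pd.2 ⟨hT P (mem_filter.1 hP).1, (mem_filter.1 hP).2⟩
      have h2 := (hGAUSS k a ha).1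
      have : (0 : ℝ) < a := by exact_mod_cast ha
      rw [nsmul_eq_mul, mul_div_assoc', div_le_div_iff₀ (by positivity) this]
      nlinarith

end Pool.Agent.P.MP_6f5b02_nt.CP
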