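import Pool.Agent.P.MP_6f5b02_nt.CP.If

/-! Step HPC. -/

namespace Pool.Agent.P.MP_6f5b02_nt.CP

open Polynomial Finset Filter
open Pool.Agent.P.MP_8be758_nt Pool.Agent.P.MP_8be758_nt.C2 Pool.Agent.P.MP_8be758_nt.L2
open scoped Classical

theorem c_HPC (hAS : Q_AS) (hCHI : Q_CHI) :
    Q_HPC := by
  intro k _ _ _ al P z y hP
  have : Fact (Irreducible P) := ⟨hP.2⟩
  have := finite_adjoinRoot hP.ne_zero
  have := charP_adjoinRoot (P := P)
  let _ := Fintype.ofFinite (AdjoinRoot P)
  refine div_le_div_of_nonneg_right ?_ (pow_pos qq_pos _).le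
  have h1 := hAS (AdjoinRoot P) (AdjoinRoot.mk P (al ^ 2))
  have h2 := sum_low_mk hP.ne_zero fun x : AdjoinRoot P =>
    (if x = 0 then 1 else 0) + if x ^ 2 + x = AdjoinRoot.mk P (al ^ 2) then 1 else 0
  rw [(hCHI k _).2.1 P hP, lp_eq, map_one, div_one, show ∀ t : ℝ, 2 + t = 1 + (1 + t) from
    fun t => by ring, ← h1, card_filter, card_filter]
  push_cast
  rw [sum_add_distrib (s := univ), sum_ite_eq', if_pos (mem_univ _)] at h2
  rw [← h2]
  refine sum_le_sum fun x _ => ?_
  by_cases a : Bp al z y P x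
  · rw [if_pos a]
    rcases a with h | h
    · rw [if_pos (AdjoinRoot.mk_eq_zero.2 h)]
      exact le_add_of_nonneg_right (by positivity)
    · have := AdjoinRoot.mk_eq_zero.2 h.2.2
      rw [FQ, map_add, map_add, map_pow, CharTwo.add_eq_zero] at this
      rw [if_pos this]
      exact le_add_of_nonneg_left (by positivity)
  · rw [if_neg a]; positivity

end Pool.Agent.P.MP_6f5b02_nt.CP
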