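import Pool.Agent.P.MP_6f5b02_nt.CP.If

/-! Step ID. -/

namespace Pool.Agent.P.MP_6f5b02_nt.CP

open Polynomial Finset Filter
open Pool.Agent.P.MP_8be758_nt Pool.Agent.P.MP_8be758_nt.C2 Pool.Agent.P.MP_8be758_nt.L2
open scoped Classical

theorem ID_dg {k : Type} [Field k] (A : Finset k[X]) :
    ∑ d ∈ A.powerset, sg d * (dg d : ℝ) = if A.card = 1 then -(dg A : ℝ) else 0 := by
  induction A using Finset.induction_on with
  | empty => simp [dg_empty]
  | insert P A hP _ =>
    have e : ∀ d ∈ A.powerset, sg (insert P d) * (dg (insert P d) : ℝ) =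
        -(sg d * dg d) - P.natDegree * sg d := fun d hd => by
      have h : P ∉ d := fun h => hP (mem_powerset.1 hd h)
      rw [sg_insert h, dg_insert h]; push_cast; ring
    rw [sum_powerset_insert hP, sum_congr rfl e, sum_sub_distrib, sum_neg_distrib, ← mul_sum,
      sum_sg_powerset, card_insert_of_notMem hP]
    by_cases h : A = ∅
    · simp [h, dg_singleton]
    · simp [h]

theorem c_ID :
    Q_ID := by
  intro k _ A N J hA hJ
  rcases A.card.even_or_odd with h | h
  · rw [sg, h.neg_one_pow, if_neg (fun e => by rw [e] at h; exact absurd h (by decide))]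
    simp
  have hs : sg A = -1 := h.neg_one_pow
  set f : Finset k[X] → ℝ := fun d => sg d * ((N : ℝ) - dg d) with hf
  have e1 : AA N J A + EE N J A = ∑ d ∈ A.powerset, if dg d < N then f d else 0 := by
    rw [AA, EE, sum_filter, sum_filter, ← sum_add_distrib]
    refine sum_congr rfl fun d _ => ?_
    by_cases h1 : dg d ≤ J
    · simp [h1, h1.not_gt, h1.trans_lt hJ, hf]
    · simp [h1, not_le.1 h1, hf]
  have e2 : ∑ d ∈ A.powerset, (if dg d < N then f d else 0) =
      ∑ d ∈ A.powerset, if N < dg d then f d else 0 := by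
    refine sum_nbij' (A \ ·) (A \ ·) (fun _ _ => by simp) (fun _ _ => by simp)
      (fun d hd => Finset.sdiff_sdiff_eq_self (mem_powerset.1 hd))
      (fun d hd => Finset.sdiff_sdiff_eq_self (mem_powerset.1 hd)) fun d hd => ?_
    have a1 := dg_sdiff (mem_powerset.1 hd)
    have a2 := sg_union (disjoint_sdiff (s := d) (t := A))
    rw [union_sdiff_of_subset (mem_powerset.1 hd), hs] at a2
    have a3 : sg (A \ d) = -sg d := by
      linear_combination (-sg d) * a2 - sg (A \ d) * sg_mul_self d
    have a4 : (dg (A \ d) : ℝ) + dg d = 2 * N := by exact_mod_cast a1.trans hA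
    refine if_congr (by omega) ?_ rfl
    simp only [hf, a3]
    linear_combination (-sg d) * a4
  have e3 : ∑ d ∈ A.powerset, f d = if A.card = 1 then 2 * (N : ℝ) else 0 := by
    simp only [hf, mul_sub, sum_sub_distrib, ← sum_mul]
    rw [ID_dg, sum_sg_powerset, if_neg (fun e => by simp [e] at h), hA]
    split_ifs <;> simp
  rw [hs, e1, ← e3, show (1 : ℝ) - -1 = 1 + 1 by ring, add_mul, one_mul]
  nth_rewrite 1 [e2]
  rw [← sum_add_distrib]
  refine sum_congr rfl fun d _ => ?_
  rcases lt_trichotomy (dg d) N with h | h | h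
  · simp [h, h.not_gt]
  · simp [h, hf]
  · simp [h, h.not_gt]

end Pool.Agent.P.MP_6f5b02_nt.CP
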