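import Pool.Agent.P.MP_6f5b02_nt.CP.If

/-! Step INF. -/

namespace Pool.Agent.P.MP_6f5b02_nt.CP

open Polynomial Finset Filter
open Pool.Agent.P.MP_8be758_nt Pool.Agent.P.MP_8be758_nt.C2 Pool.Agent.P.MP_8be758_nt.L2
open scoped Classical

theorem INF_pow {k : Type} [Field k] [Finite k] [CharP k 2] {L d : ℕ} {p : k[X] → k[X]}
    (h : Deg L d p) (c : k[X]) (E : k[X] → k[X]) (hE : ∀ x y, E (x + y) = E x + E y) (i : ℕ) :
    Deg L (d + i) (fun x => p x * (c + E x) ^ i) := by
  induction i with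
  | zero => simpa using h
  | succ i ih => exact (ih.mul_aff c E hE).congr fun x _ => by ring

theorem INF_exp {k : Type} [Field k] [CharP k 2] {U : k[X]} (hU : U ≠ 0) (e W Cn : k[X])
    (he : U + e ≠ 0) (n : ℕ) : res ((U + e) * W) Cn =
      ∑ i ∈ range n, res (U ^ (i + 1) * W) (Cn * e ^ i) + res (U ^ n * (U + e) * W) (Cn * e ^ n) := by
  induction n with
  | zero => simp
  | succ n ih =>
    rw [ih, sum_range_succ, add_assoc, ← res_mul_mul (U ^ n * (U + e) * W) _ hU,
      ← res_mul_mul (U ^ (n + 1) * W) _ he,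
      show U ^ (n + 1) * W * (U + e) = U ^ (n + 1) * (U + e) * W by ring, ← res_add]
    congr 2
    · ring
    · linear_combination (-(Cn * e ^ (n + 1))) * two0 (k := k)

theorem c_INF :
    Q_INF := by
  intro k _ _ _ U W Y0 E E1 L ω i0 hU hW hE hE1 hd hY hω hi
  refine (Deg.sum (range i0) (p := fun i x => res (U ^ (i + 1) * W) (X * (Y0 + E1 x) ^ 3 * E x ^ i))
    fun i hi' => ?_).congr fun x hx => ?_
  · exact ((((INF_pow (INF_pow (Deg.const 0 X) Y0 E1 hE1 3) 0 E hE i).map _
      (res_add (U ^ (i + 1) * W))).congr fun x _ => by rw [zero_add]).mono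
        (by have := mem_range.1 hi'; omega))
  · obtain ⟨h1, h2⟩ := hd x hx
    have h3 : (U + E x).natDegree = U.natDegree := natDegree_add_eq_left_of_natDegree_lt (by omega)
    have h4 : U + E x ≠ 0 := fun h => by rw [h] at h3; simp at h3; omega
    rw [INF_exp hU.ne_zero _ _ _ h4 i0, res_eq_zero (M := U ^ i0 * (U + E x) * W), add_zero]
    have a1 := natDegree_mul_le (p := X * (Y0 + E1 x) ^ 3) (q := E x ^ i0)
    have a2 := natDegree_mul_le (p := X) (q := (Y0 + E1 x) ^ 3)
    have a3 := natDegree_add_le Y0 (E1 x)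
    have a4 := Nat.mul_le_mul_left i0 h1
    rw [natDegree_pow] at a1 a2
    rw [natDegree_mul (mul_ne_zero (pow_ne_zero _ hU.ne_zero) h4) hW,
      natDegree_mul (pow_ne_zero _ hU.ne_zero) h4, natDegree_pow, h3]
    rw [natDegree_X] at a2
    rw [mul_add] at a4
    omega

end Pool.Agent.P.MP_6f5b02_nt.CP
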