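import Pool.Agent.P.MP_6f5b02_nt.CP.If

/-! Step KEY. -/

namespace Pool.Agent.P.MP_6f5b02_nt.CP

open Polynomial Finset Filter
open Pool.Agent.P.MP_8be758_nt Pool.Agent.P.MP_8be758_nt.C2 Pool.Agent.P.MP_8be758_nt.L2
open scoped Classical

theorem c_KEY (hID : Q_ID) :
    Q_KEY := by
  intro k _ _ al z H N J G σ hσ hJ hy hG
  have hσ1 : |σ| ≤ 1 := by rcases hσ with h | h <;> simp [h]
  have e : Tg al z H N σ = (Rs al z (N / H) N (Vs k z H N)).filter
      fun p => Irreducible (gg p.1 p.2) ∧ mu (FQ al (gg p.1 p.2)) = σ := by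
    rw [Tg, Rs, filter_filter]
  rw [e, card_filter, card_filter, sum_filter, Nat.cast_sum, Nat.cast_sum, mul_sum, mul_sum, mul_sum,
    ← sum_add_distrib, ← sum_add_distrib]
  refine sum_le_sum fun p hp => ?_
  obtain ⟨p1, p2, p3⟩ := mem_Rs.1 hp
  obtain ⟨g1, g2⟩ := mem_Mo.1 (gg_mem p1 (mem_erase.1 (Mo_low (by omega) (mem_Vs.1 p2).1)).2)
  generalize gg p.1 p.2 = g at *
  obtain ⟨o1, o2⟩ := osc_bd al hσ1 g
  have h2 : (1 : ℝ) ≤ 2 ^ G := one_le_pow₀ one_le_two
  have N0 : (0 : ℝ) ≤ N := by positivity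
  push_cast
  by_cases hs : Squarefree g
  · have a1 := hID k (pf g) N J (by rw [dg_pf g1 hs, g2]) hJ
    have a2 : (1 + osc al σ g) * AA N J (pf g) ≤
        (1 + σ * mu (FQ al g)) * (if (pf g).card = 1 then 2 * (N : ℝ) else 0) +
          4 * |EE N J (pf g)| := by
      rw [← a1, ← mu_eq_sg g1 hs, ← mul_assoc, mul_comm (1 + σ * _), ← one_add_osc]
      nlinarith [mul_le_mul_of_nonneg_left (neg_abs_le (EE N J (pf g))) o1,
        abs_nonneg (EE N J (pf g))]
    rw [if_pos hs]
    refine a2.trans ?_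
    rw [add_right_comm]
    refine add_le_add ?_ le_rfl
    split_ifs with b1 b2 b3 b4
    any_goals simp only [mul_zero]; positivity
    all_goals
      obtain ⟨P, hP⟩ := card_eq_one.1 b1
      have c1 : Irreducible g := by
        rw [← BIJ_pr_pf g1 hs, hP, pr, prod_singleton]
        exact (isPr_of_mem_pf (hP ▸ mem_singleton_self P)).2
      have c2 : σ * mu (FQ al g) ≤ 1 := (le_abs_self _).trans
        (by rw [abs_mul]; exact mul_le_one₀ hσ1 (abs_nonneg _) (abs_mu_le _))
    · nlinarith [mul_nonneg N0 (sub_nonneg.2 h2)]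
    · nlinarith
    · nlinarith [mul_nonneg N0 (sub_nonneg.2 h2)]
    · have c3 := mu_eq (not_not.1 (not_or.1 b4).2)
      have c4 : mu (FQ al g) ≠ σ := fun h => b2 ⟨c1, h⟩
      rcases hσ with h | h <;> rcases c3 with h' | h' <;> simp_all
  · have a1 : (pf g).card ≤ G := by
      have := card_mul_le_dg (S := pf g) (y := N / H) fun P hP =>
        (p3.lt (isPr_of_mem_pf hP) ((mem_pf g1.ne_zero).1 hP).2).le
      have := dg_pf_le g1.ne_zero
      exact Nat.le_of_mul_le_mul_right (by omega) hy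
    have a2 : |AA N J (pf g)| ≤ 2 ^ G * N := by
      refine (abs_sum_le_sum_abs _ _).trans ((sum_le_card_nsmul _ _ (N : ℝ) fun d hd => ?_).trans ?_)
      · have : (dg d : ℝ) ≤ N := by exact_mod_cast (mem_filter.1 hd).2.trans hJ.le
        rw [abs_mul, abs_sg, one_mul, abs_of_nonneg (sub_nonneg.2 this)]
        exact sub_le_self _ (by positivity)
      · rw [nsmul_eq_mul]
        refine mul_le_mul_of_nonneg_right ?_ N0
        exact_mod_cast (card_filter_le _ _).trans
          ((card_powerset _).le.trans (Nat.pow_le_pow_right two_pos a1))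
    rw [if_neg hs, if_pos (show Nsq al g from Or.inl hs), if_neg fun h => hs h.1.squarefree]
    nlinarith [mul_le_mul_of_nonneg_left (le_abs_self (AA N J (pf g))) o1,
      abs_nonneg (AA N J (pf g))]

end Pool.Agent.P.MP_6f5b02_nt.CP
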