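import Pool.Agent.P.MP_6f5b02_nt.CP.If

/-! Step LEV. -/

namespace Pool.Agent.P.MP_6f5b02_nt.CP

open Polynomial Finset Filter
open Pool.Agent.P.MP_8be758_nt Pool.Agent.P.MP_8be758_nt.C2 Pool.Agent.P.MP_8be758_nt.L2
open scoped Classical

theorem LEV_cls (hLS : Q_LS) (hDIV : Q_DIV) {k : Type} [Field k] [Finite k] [CharP k 2]
    (N x : ℕ) (W : Finset k[X]) (T : Finset k[X]) (τ : k[X] → k[X]) (c0 : k[X] → ℝ)
    (hW : W ⊆ (low k N).erase 0) (hT : T ⊆ Mo k (x + N)) (hτ : ∀ M ∈ T, M ∣ τ M ^ 2 - X)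
    (hc : ∀ h, |c0 h| ≤ 1) :
    ∑ M ∈ T, (∑ p ∈ (low k x).erase 0 ×ˢ W, c0 p.1 * psi (res M (p.1 * p.2 * τ M))) ^ 2 ≤
      qq k ^ (x + N) * (x * N * qq k ^ (x + N + 2)) := by
  set A := (low k x).erase 0 ×ˢ W with hA
  have hm : ∀ p ∈ A, p.1 * p.2 ∈ low k (x + N) := fun p hp => by
    obtain ⟨h1, h2⟩ := mem_product.1 hp
    have := natDegree_le_of_mem_low (mem_erase.1 h1).2
    exact mul_mem_low (mem_erase.1 (hW h2)).2 (by omega)
  have h1 := hLS k (x + N) T τ (fun y => ∑ p ∈ A.filter (fun p => p.1 * p.2 = y), c0 p.1) hT hτ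
  refine le_trans (le_of_eq (sum_congr rfl fun M _ => ?_)) (h1.trans ?_)
  · rw [← sum_fiberwise_of_maps_to hm]
    congr 1
    refine sum_congr rfl fun y _ => ?_
    rw [sum_mul]
    exact sum_congr rfl fun p hp => by rw [(mem_filter.1 hp).2]
  · refine mul_le_mul_of_nonneg_left (le_trans ?_ (hDIV k x N)) (pow_pos qq_pos _).le
    have h2 : (A ×ˢ A).filter (fun p => p.1.1 * p.1.2 = p.2.1 * p.2.2) ⊆ _ :=
      filter_subset_filter _ (product_subset_product (product_subset_product_right hW)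
        (product_subset_product_right hW))
    refine le_trans ?_ (Nat.cast_le.2 (card_le_card h2))
    rw [card_eq_sum_card_fiberwise (f := fun p : (k[X] × k[X]) × k[X] × k[X] => p.1.1 * p.1.2)
      (t := low k (x + N)) fun p hp => mem_coe.2
        (hm p.1 (mem_product.1 (mem_filter.1 (mem_coe.1 hp)).1).1), Nat.cast_sum]
    refine sum_le_sum fun y _ => ?_
    have h3 : |∑ p ∈ A.filter (fun p => p.1 * p.2 = y), c0 p.1| ≤
        (A.filter (fun p => p.1 * p.2 = y)).card :=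
      (abs_sum_le_sum_abs _ _).trans
        ((sum_le_card_nsmul _ _ 1 fun p _ => hc p.1).trans_eq (by simp))
    rw [← sq_abs]
    refine (pow_le_pow_left₀ (abs_nonneg _) h3 2).trans ?_
    rw [pow_two, ← Nat.cast_mul, ← card_product]
    refine Nat.cast_le.2 (card_le_card fun p hp => ?_)
    simp only [mem_filter, mem_product (s := A) (t := A),
      mem_product (s := A.filter _)] at hp ⊢
    exact ⟨⟨⟨hp.1.1, hp.2.1⟩, hp.1.2.trans hp.2.2.symm⟩, hp.1.2⟩

theorem c_LEV (hLEV1 : Q_LEV1) (hLS : Q_LS) (hDIV : Q_DIV) :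
    Q_LEV := by
  intro k _ _ _ N D1 W E ρ T hW hE hT hD
  have hq := qq_pos (k := k)
  have hE0 := (monic_pr hE).ne_zero
  have hU : ∀ S ∈ T, ∀ P ∈ S ∪ E, IsPr P := fun S hS P h =>
    (mem_union.1 h).elim ((hT S hS).1 P) (hE P)
  have hτ : ∀ M : k[X], ∃ t, Squarefree M → M ∣ t ^ 2 - X := fun M => by
    by_cases h : Squarefree M
    · exact (ROOT_surj h X).imp fun _ h _ => h
    · exact ⟨0, fun h' => absurd h' h⟩
  have hγ : ∀ r : k[X], ∃ g, IsCoprime r (pr E) → pr E ∣ (r * g) ^ 2 - ρ := fun r => by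
    by_cases h : IsCoprime r (pr E)
    · obtain ⟨s, b, hs⟩ := ROOT_surj (squarefree_pr hE) ρ
      obtain ⟨u, v, huv⟩ := h
      exact ⟨u * s, fun _ => ⟨b - s ^ 2 * v * (u * r + 1), by
        linear_combination hs + s ^ 2 * (u * r + 1) * huv⟩⟩
    · exact ⟨0, fun h' => absurd h' h⟩
  choose τ hτ using hτ
  choose γ hγ using hγ
  have hsq : ∀ S ∈ T, Squarefree (pr S * pr E) := fun S hS => by
    rw [← pr_union (hT S hS).2.2]; exact squarefree_pr (hU S hS)
  have hL := fun S (hS : S ∈ T) => hLEV1 k N W E S ρ _ (γ (pr S % pr E)) hE (hT S hS).1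
    (hT S hS).2.2 (hτ _ (hsq S hS)) (by
      obtain ⟨c, hc⟩ := ROOT_mod (pr E) (pr S)
      have h1 : IsCoprime (pr S) (pr E) := by
        rw [coprime_pr_iff hE0 (hT S hS).1, pf_pr hE]; exact (hT S hS).2.2
      obtain ⟨b, hb⟩ := hγ (pr S % pr E) (by
        rw [show pr S % pr E = pr S + pr E * (-c) by linear_combination -hc]
        exact h1.add_mul_left_left _)
      exact ⟨b + c * (pr S + pr S % pr E) * γ (pr S % pr E) ^ 2, by
        linear_combination hb + (pr S + pr S % pr E) * γ (pr S % pr E) ^ 2 * hc⟩)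
  rcases le_or_gt (D1 + dg E) N with h | h
  · rw [sum_eq_zero fun S hS => by rw [(hL S hS).1 (by rw [(hT S hS).2.1]; exact h), abs_zero]]
    positivity
  obtain ⟨x, hx⟩ : ∃ x, D1 + dg E = x + N := ⟨D1 + dg E - N, by omega⟩
  have h1 : ∑ S ∈ T, |rm N W E ρ S| ^ 2 ≤ qq k ^ dg E * (x * N * qq k ^ (2 * N + 2)) := by
    rw [← sum_fiberwise_of_maps_to (g := fun S => pr S % pr E) (t := low k (dg E))
      fun S _ => natDegree_pr hE ▸ mod_mem_low hE0 _, ← card_low', ← nsmul_eq_mul]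
    refine sum_le_card_nsmul _ _ _ fun r _ => ?_
    have h2 := LEV_cls hLS hDIV N x W ((T.filter fun S => pr S % pr E = r).image (pr · * pr E)) τ
      (fun h => psi (h.coeff (x - 1)) * psi (res (pr E) (h * γ r))) hW (fun M hM => by
        obtain ⟨S, hS, rfl⟩ := mem_image.1 hM
        have hS := (mem_filter.1 hS).1
        rw [mem_Mo, ← pr_union (hT S hS).2.2, natDegree_pr (hU S hS), dg_union (hT S hS).2.2,
          (hT S hS).2.1]
        exact ⟨monic_pr (hU S hS), hx⟩) (fun M hM => by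
        obtain ⟨S, hS, rfl⟩ := mem_image.1 hM
        exact hτ _ (hsq S (mem_filter.1 hS).1)) fun h => by rw [abs_mul, abs_psi, abs_psi, mul_one]
    rw [sum_image fun S hS S' hS' e => pr_injOn T (fun S hS => (hT S hS).1) (mem_filter.1 hS).1
      (mem_filter.1 hS').1 (mul_right_cancel₀ hE0 e)] at h2
    refine le_of_eq_of_le (sum_congr rfl fun S hS => ?_) ((sum_div _ _ _).symm.trans_le
      ((div_le_div_of_nonneg_right h2 (pow_pos (pow_pos hq x) 2).le).trans_eq ?_))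
    · obtain ⟨hS, e⟩ := mem_filter.1 hS
      have e2 : dg S + dg E - N = x := by rw [(hT S hS).2.1]; omega
      rw [sq_abs, (hL S hS).2 (by rw [(hT S hS).2.1]; exact h), e2, e, div_pow]
    · field_simp
      ring
  have h2 : (∑ S ∈ T, |rm N W E ρ S|) ^ 2 ≤
      (N * qq k ^ (N + 1) * √(qq k) ^ (D1 + dg E)) ^ 2 := by
    have h3 : (x : ℝ) ≤ N := by exact_mod_cast (by omega : x ≤ N)
    refine sq_sum_le_card_mul_sum_sq.trans ((mul_le_mul (card_dg_le T D1 fun S hS =>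
      ⟨(hT S hS).1, (hT S hS).2.1⟩) h1 (sum_nonneg fun _ _ => sq_nonneg _) (by positivity)).trans ?_)
    rw [mul_pow, ← pow_mul √(qq k), mul_comm _ 2, pow_mul, Real.sq_sqrt hq.le]
    calc _ ≤ qq k ^ D1 * (qq k ^ dg E * (N * N * qq k ^ (2 * N + 2))) := by gcongr
      _ = _ := by ring
  refine (abs_le_of_sq_le_sq' h2 (by positivity)).2.trans ?_
  have := qq_pow_mono (k := k) (show N + 1 ≤ N + dg E + 1 by omega)
  gcongr

end Pool.Agent.P.MP_6f5b02_nt.CP
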