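import Pool.Agent.P.MP_6f5b02_nt.CP.If

/-! Step LEV1. -/

namespace Pool.Agent.P.MP_6f5b02_nt.CP

open Polynomial Finset Filter
open Pool.Agent.P.MP_8be758_nt Pool.Agent.P.MP_8be758_nt.C2 Pool.Agent.P.MP_8be758_nt.L2
open scoped Classical

theorem c_LEV1 (hRF : L2.S_RF) (hROOT : L2.S_ROOT) :
    Q_LEV1 := by
  intro k _ _ _ N W E S ρ τ γ hE hS hd ⟨a, ha⟩ ⟨b, hb⟩
  have hU : ∀ P ∈ S ∪ E, IsPr P := fun P h => (mem_union.1 h).elim (hS P) (hE P)
  have hR := fun v : k[X] => hRF k 1 (X * v ^ 2 + (pr S * γ) ^ 2) N (S ∪ E) one_ne_zero hU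
    ((coprime_pr_iff one_ne_zero hU).1 isCoprime_one_right)
  have hS0 := (monic_pr hS).ne_zero
  have h1 : rm N W E ρ S = ∑ v ∈ W, rr 1 (X * v ^ 2 + (pr S * γ) ^ 2) N (S ∪ E) := by
    simp only [rr, cx, sum_sub_distrib, sum_const, nsmul_eq_mul, mul_one, dg_union hd]
    rw [rm, card_filter, sum_product_right, Nat.cast_sum, mul_comm (qq k ^ N), mul_div_assoc]
    congr 1
    refine sum_congr rfl fun v _ => ?_
    rw [← card_filter]
    congr 2
    refine filter_congr fun u _ => ?_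
    have e1 : FF 1 (X * v ^ 2 + (pr S * γ) ^ 2) u - gg u v = pr S * (pr S * γ ^ 2) := by
      rw [FF, gg]; ring
    have e2 : FF 1 (X * v ^ 2 + (pr S * γ) ^ 2) u - (gg u v - ρ) = pr E * b := by
      rw [FF, gg]; linear_combination hb + ρ * two0 (k := k)
    rw [pr_dvd_iff hU, forall_mem_union, ← pr_dvd_iff hS, ← pr_dvd_iff hE,
      dvd_iff_dvd_of_dvd_sub ⟨_, e1⟩, dvd_iff_dvd_of_dvd_sub ⟨_, e2⟩]
  rw [dg_union hd] at hR
  refine ⟨fun h => ?_, fun h => ?_⟩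
  · rw [h1]
    exact sum_eq_zero fun v _ => (hR v).1 h
  · rw [h1, sum_product_right, sum_div]
    refine sum_congr rfl fun v _ => ?_
    rw [(hR v).2.2 h]
    congr 1
    refine sum_congr rfl fun x _ => ?_
    obtain ⟨c, hc⟩ := (hROOT k 1 (X * v ^ 2 + (pr S * γ) ^ 2) _ (squarefree_pr hU)
      isCoprime_one_right (τ * v + pr S * γ)).1 ⟨a * v ^ 2, by
        rw [FF, pr_union hd]
        linear_combination v ^ 2 * ha + (X * v ^ 2 + τ * v * (pr S * γ) + (pr S * γ) ^ 2) *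
          two0 (k := k)⟩
    rw [mul_assoc]
    congr 1
    rw [← psi_add, ← res_mul_mul (pr E) _ hS0, mul_comm (pr E), ← res_add, ← pr_union hd]
    congr 1
    exact res_congr ⟨-(x * c), by linear_combination -x * hc⟩

end Pool.Agent.P.MP_6f5b02_nt.CP
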