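import Pool.Agent.P.MP_6f5b02_nt.CP.If

/-! Step LOC0. -/

namespace Pool.Agent.P.MP_6f5b02_nt.CP

open Polynomial Finset Filter
open Pool.Agent.P.MP_8be758_nt Pool.Agent.P.MP_8be758_nt.C2 Pool.Agent.P.MP_8be758_nt.L2
open scoped Classical

theorem c_LOC0 (hQUAD : Q_QUAD) :
    Q_LOC0 := by
  intro K _ _ _ M f hf
  obtain ⟨ι, κ, A, B, Nn, D, h1, h2, h3, h4, h5, h6, h7⟩ := id hf
  have hD : D ≠ 0 := fun h => by simp [h] at h3
  have hN : Nn ≠ 0 := fun h => by
    rw [h, isCoprime_zero_left] at h2
    have := natDegree_eq_zero_of_isUnit h2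
    omega
  have hc : (univ.filter fun x : K => (Nn * D).eval x = 0).card ≤ 2 * M := by
    refine (card_le_degree_of_subset_roots (p := Nn * D) fun h hh => ?_).trans
      (natDegree_mul_le.trans (by omega))
    rw [mem_roots (mul_ne_zero hN hD)]
    simpa using hh
  calc _ ≤ ∑ x : K, (2 * √(Fintype.card K : ℝ) +
        if (Nn * D).eval x = 0 then (Fintype.card K : ℝ) else 0) := sum_le_sum fun x _ => by
        split_ifs with h
        · refine le_add_of_nonneg_of_le (by positivity) ((abs_sum_le_sum_abs _ _).trans ?_)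
          simpa using sum_le_card_nsmul univ _ 1 fun y _ => hf.abs_le x y
        · rw [eval_mul, mul_eq_zero, not_or] at h
          simp only [h7]
          rw [← mul_sum, abs_mul, add_zero]
          exact (mul_le_of_le_one_left (abs_nonneg _) (h1 x)).trans
            (hQUAD K _ _ _ (by rw [h6 x h.2]; exact div_ne_zero h.1 h.2))
    _ ≤ _ := by
        rw [sum_add_distrib, ← sum_filter, sum_const, sum_const, nsmul_eq_mul, nsmul_eq_mul,
          card_univ]
        exact add_le_add le_rfl
          (mul_le_mul_of_nonneg_right (by exact_mod_cast hc) (by positivity))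

end Pool.Agent.P.MP_6f5b02_nt.CP
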