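import Pool.Agent.P.MP_6f5b02_nt.CP.If

/-! Step LOC1. -/

namespace Pool.Agent.P.MP_6f5b02_nt.CP

open Polynomial Finset Filter
open Pool.Agent.P.MP_8be758_nt Pool.Agent.P.MP_8be758_nt.C2 Pool.Agent.P.MP_8be758_nt.L2
open scoped Classical

theorem LOC1_bad {K : Type} [Field K] [Fintype K] (D : K[X]) (hD : D ≠ 0) :
    (univ.filter fun t : K => ¬ IsCoprime D (D.comp (X + C t))).card ≤ D.natDegree ^ 2 := by
  set F := AlgebraicClosure K
  have h : ∀ t ∈ univ.filter fun t : K => ¬ IsCoprime D (D.comp (X + C t)),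
      ∃ a : F, aeval a D = 0 ∧ aeval (a + algebraMap K F t) D = 0 := fun t ht => by
    by_contra h
    refine (mem_filter.1 ht).2 ((isCoprime_iff_aeval_ne_zero_of_isAlgClosed K F _ _).2
      fun a => ?_)
    by_contra h1
    push Not at h1 h
    exact h a h1.1 (by simpa [aeval_comp] using h1.2)
  choose! r h1 h2 using h
  have hc : (D.aroots F).toFinset.card ≤ D.natDegree :=
    (Multiset.toFinset_card_le _).trans ((card_roots' _).trans (natDegree_map_le))
  refine (card_le_card_of_injOn (t := (D.aroots F).toFinset ×ˢ (D.aroots F).toFinset)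
    (fun t => (r t, r t + algebraMap K F t)) (fun t ht => ?_) fun s _ t _ e => ?_).trans ?_
  · simp only [coe_product, Set.mem_prod, mem_coe, Multiset.mem_toFinset, mem_aroots]
    exact ⟨⟨hD, h1 t ht⟩, hD, h2 t ht⟩
  · obtain ⟨e1, e2⟩ := Prod.mk.inj e
    rw [e1] at e2
    exact (algebraMap K F).injective (add_left_cancel e2)
  · rw [card_product, sq]
    exact Nat.mul_le_mul hc hc

theorem c_LOC1 :
    Q_LOC1 := by
  intro K _ _ _ M f ⟨ι, κ, A, B, Nn, D, h1, h2, h3, h4, h5, h6, h7⟩
  have hD : D ≠ 0 := fun h => by simp [h] at h3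
  have z2 : (2 : K) = 0 := CharTwo.two_eq_zero
  refine ⟨_, (LOC1_bad D hD).trans (Nat.pow_le_pow_left h4 2), fun t ht y1 => ?_⟩
  have hc : IsCoprime D (D.comp (X + C t)) := by simpa using ht
  have dg : ∀ p : K[X], (p.comp (X + C t)).natDegree = p.natDegree := fun p => by
    rw [natDegree_comp, natDegree_X_add_C, mul_one]
  have hD1 : D.comp (X + C t) ≠ 0 := fun h => by have := dg D; rw [h] at this; simp at this; omega
  have h2' : IsCoprime (Nn.comp (X + C t)) (D.comp (X + C t)) := h2.map (compRingHom (X + C t))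
  have dd : (D * D.comp (X + C t)).natDegree = 2 * D.natDegree := by
    rw [natDegree_mul hD hD1, dg, two_mul]
  refine ⟨fun x => ι x * ι (x + t) *
      psi (κ (x + t) * y1 ^ 3 + A (x + t) * y1 ^ 2 + B (x + t) * y1),
    fun x => κ x + κ (x + t), fun x => A x + A (x + t) + κ (x + t) * y1,
    fun x => B x + B (x + t) + κ (x + t) * y1 ^ 2,
    Nn * D.comp (X + C t) + Nn.comp (X + C t) * D, D * D.comp (X + C t), fun x => ?_,
    IsCoprime.mul_right ((h2.mul_left hc.symm).add_mul_right_left _) ?_, by omega, by omega, ?_,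
    fun x hx => ?_, fun x y => ?_⟩
  · rw [abs_mul, abs_mul, abs_psi, mul_one]
    exact mul_le_one₀ (h1 _) (abs_nonneg _) (h1 _)
  · rw [add_comm]
    exact (h2'.mul_left hc).add_mul_right_left _
  · have a1 := natDegree_mul_le (p := Nn) (q := D.comp (X + C t))
    have a2 := natDegree_mul_le (p := Nn.comp (X + C t)) (q := D)
    rw [dg] at a1 a2
    exact (natDegree_add_le _ _).trans (by omega)
  · simp only [eval_mul, eval_add, eval_comp, eval_X, eval_C, ne_eq, mul_eq_zero, not_or] at hx ⊢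
    obtain ⟨a1, a2⟩ := hx
    rw [h6 _ a1, h6 _ a2]
    field_simp
  · beta_reduce
    rw [h7, h7, mul_mul_mul_comm, mul_assoc _ (psi _), ← psi_add, ← psi_add]
    congr 2
    linear_combination (κ (x + t) * y ^ 2 * y1 + κ (x + t) * y * y1 ^ 2 + A (x + t) * y * y1) * z2

end Pool.Agent.P.MP_6f5b02_nt.CP
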