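import Pool.Agent.P.MP_6f5b02_nt.CP.If

/-! Step LOCM. -/

namespace Pool.Agent.P.MP_6f5b02_nt.CP

open Polynomial Finset Filter
open Pool.Agent.P.MP_8be758_nt Pool.Agent.P.MP_8be758_nt.C2 Pool.Agent.P.MP_8be758_nt.L2
open scoped Classical

theorem LOCM_a {K : Type} [Field K] [Finite K] [CharP K 2] (c d y : K) :
    psi ((y + c) ^ 3 / d) = psi (c ^ 3 / d) * psi (1 / d * y ^ 3 + c / d * y ^ 2 + c ^ 2 / d * y) := by
  have h2 : (2 : K) = 0 := CharTwo.two_eq_zero
  rw [← psi_add]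
  congr 1
  linear_combination ((y ^ 2 * c + y * c ^ 2) / d) * h2

theorem LOCM_b {K : Type} [Field K] (p : Prop) (a : K) : |if p then 0 else psi a| ≤ 1 := by
  split_ifs
  · simp
  · exact (abs_psi _).le

theorem c_LOCM :
    Q_LOCM := by
  intro K _ _ _ β c1 c2 a0 i j hβ ha hij
  have h2 : (2 : K) = 0 := CharTwo.two_eq_zero
  have hu : ∀ p : K[X], IsCoprime (C β⁻¹) p := fun p =>
    ⟨C β, 0, by rw [← C_mul, mul_inv_cancel₀ hβ, C_1, zero_mul, add_zero]⟩
  have d2 : (X ^ 2 + X + C a0 : K[X]).natDegree = 2 := by compute_degree!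
  rcases hij with ⟨rfl, rfl⟩ | ⟨rfl, rfl⟩ | ⟨rfl, rfl⟩
  · refine ⟨fun x => if x = 0 then 0 else psi (c1 ^ 3 / (x * β)), fun x => 1 / (x * β),
      fun x => c1 / (x * β), fun x => c1 ^ 2 / (x * β), C β⁻¹, X, fun x => LOCM_b _ _,
      hu _, by simp, by simp, by simp, fun x _ => by simp [div_eq_mul_inv],
      fun x y => ?_⟩
    by_cases h : x = 0 <;> simp only [h, if_true, if_false, pow_one, pow_zero, mul_one, zero_mul]
    exact LOCM_a _ _ _
  · refine ⟨fun x => if x ^ 2 + x + a0 = 0 then 0 else psi (c2 ^ 3 / ((x ^ 2 + x + a0) * β)),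
      fun x => 1 / ((x ^ 2 + x + a0) * β), fun x => c2 / ((x ^ 2 + x + a0) * β),
      fun x => c2 ^ 2 / ((x ^ 2 + x + a0) * β), C β⁻¹, X ^ 2 + X + C a0, fun x => LOCM_b _ _,
      hu _, by omega, by omega, by simp, fun x _ => by simp [div_eq_mul_inv],
      fun x y => ?_⟩
    by_cases h : x ^ 2 + x + a0 = 0 <;>
      simp only [h, if_true, if_false, pow_one, pow_zero, one_mul, zero_mul]
    exact LOCM_a _ _ _
  · have d3 : (X * (X ^ 2 + X + C a0) : K[X]).natDegree = 3 := by compute_degree!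
    have c0 : IsCoprime (X ^ 2 + C a0 : K[X]) X :=
      ⟨C a0⁻¹, -(C a0⁻¹ * X), by
        have : (C a0⁻¹ * C a0 : K[X]) = 1 := by rw [← C_mul, inv_mul_cancel₀ ha, C_1]
        linear_combination this⟩
    refine ⟨fun x => (if x = 0 then 0 else psi (c1 ^ 3 / (x * β))) *
        if x ^ 2 + x + a0 = 0 then 0 else psi (c2 ^ 3 / ((x ^ 2 + x + a0) * β)),
      fun x => 1 / (x * β) + 1 / ((x ^ 2 + x + a0) * β),
      fun x => c1 / (x * β) + c2 / ((x ^ 2 + x + a0) * β),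
      fun x => c1 ^ 2 / (x * β) + c2 ^ 2 / ((x ^ 2 + x + a0) * β), C β⁻¹ * (X ^ 2 + C a0),
      X * (X ^ 2 + X + C a0), fun x => ?_, (hu _).mul_left (c0.mul_right ?_),
      by omega, by omega, by rw [d3]; compute_degree!, fun x hx => ?_, fun x y => ?_⟩
    · rw [abs_mul]; exact mul_le_one₀ (LOCM_b _ _) (abs_nonneg _) (LOCM_b _ _)
    · rw [show (X ^ 2 + X + C a0 : K[X]) = X + (X ^ 2 + C a0) * 1 by ring]
      exact c0.add_mul_left_right _
    · simp only [eval_mul, eval_add, eval_pow, eval_X, eval_C, ne_eq, mul_eq_zero, not_or] at hx ⊢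
      obtain ⟨h3, h4⟩ := hx
      rw [div_add_div _ _ (mul_ne_zero h3 hβ) (mul_ne_zero h4 hβ), div_eq_div_iff
        (mul_ne_zero (mul_ne_zero h3 hβ) (mul_ne_zero h4 hβ)) (mul_ne_zero h3 h4)]
      linear_combination (β * x * x * (x ^ 2 + x + a0)) * h2 -
        (β * (x ^ 2 + a0) * x * (x ^ 2 + x + a0)) * mul_inv_cancel₀ hβ
    · by_cases h : x = 0
      · simp [h]
      by_cases h' : x ^ 2 + x + a0 = 0
      · simp [h']
      simp only [h, h', if_false, pow_one]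
      rw [LOCM_a, LOCM_a c2, mul_mul_mul_comm, ← psi_add (1 / _ * _ + _ + _)]
      congr 2
      ring

end Pool.Agent.P.MP_6f5b02_nt.CP
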