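import Pool.Agent.P.MP_6f5b02_nt.CP.If

/-! Step LOW. -/

namespace Pool.Agent.P.MP_6f5b02_nt.CP

open Polynomial Finset Filter
open Pool.Agent.P.MP_8be758_nt Pool.Agent.P.MP_8be758_nt.C2 Pool.Agent.P.MP_8be758_nt.L2
open scoped Classical

theorem c_LOW (hLOW1 : Q_LOW1) (hNICE : Q_NICE) (hMERT : Q_MERT) :
    Q_LOW := by
  intro k _ _ _ al z hz hal
  have hq := qq_pos (k := k)
  obtain ⟨H, κ, n0, K, hH, hκ, h1⟩ := hLOW1 k al z (fun h => hal 0 (by simp [h])) hz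
  obtain ⟨c1, n1, hc1, h2⟩ := hNICE k z H (by omega)
  obtain ⟨c2, hc2, h3⟩ := hMERT k al z hz hal
  obtain ⟨n2, h4⟩ := NEG 5 κ |K| (c1 * c2 / 4) hκ (by positivity)
  refine ⟨H, n0 + n1 + n2 + 2 * H, c1 * c2 / 2, by omega, by positivity, fun N hN σ hσ => ?_⟩
  have y2 : 2 ≤ N / H := (Nat.le_div_iff_mul_le (by omega)).2 (by omega)
  have y0 : (0 : ℝ) < (N / H : ℕ) := by exact_mod_cast (by omega : 0 < N / H)
  have y1 : ((N / H : ℕ) : ℝ) ≤ N := by exact_mod_cast Nat.div_le_self _ _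
  have N0 := y0.trans_le y1
  have a1 := h1 N (by omega) σ hσ
  have a2 : c1 * c2 * qq k ^ (2 * N) / N ≤
      qq k ^ N * (Vs k z H N).card * VV al z (N / H) * (N / H : ℕ) := by
    calc _ ≤ c1 * c2 * qq k ^ (2 * N) / (N / H : ℕ) := by gcongr
      _ = qq k ^ N * (c1 * qq k ^ N) * (c2 / (N / H : ℕ) ^ 2) * (N / H : ℕ) := by
        rw [two_mul, pow_add]; field_simp
      _ ≤ _ := by gcongr; exacts [h2 N (by omega), h3 _ y2]
  have a3 : K * ((N : ℝ) + 1) ^ 4 * qq k ^ (2 * N) / 2 ^ (N / κ) ≤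
      c1 * c2 * qq k ^ (2 * N) / N / 4 := by
    have := mul_le_mul_of_nonneg_right (h4 N (by omega)) (pow_pos hq (2 * N)).le
    rw [div_div, div_le_div_iff₀ (by positivity) (by positivity)]
    have b : K * ((N : ℝ) + 1) ^ 4 * N ≤ |K| * (N + 1) ^ 5 := by
      rw [pow_succ _ 4, ← mul_assoc]
      gcongr
      exacts [le_abs_self K, by linarith]
    nlinarith [mul_le_mul_of_nonneg_right b (pow_pos hq (2 * N)).le]
  rw [show c1 * c2 / 2 * qq k ^ (2 * N) / (2 * (N : ℝ)) ^ 2 =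
    c1 * c2 * qq k ^ (2 * N) / N / 2 / (4 * N) by field_simp; ring, div_le_iff₀' (by positivity)]
  linarith

end Pool.Agent.P.MP_6f5b02_nt.CP
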