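import Pool.Agent.P.MP_6f5b02_nt.CP.If

/-! Step LOW1. -/

namespace Pool.Agent.P.MP_6f5b02_nt.CP

open Polynomial Finset Filter
open Pool.Agent.P.MP_8be758_nt Pool.Agent.P.MP_8be758_nt.C2 Pool.Agent.P.MP_8be758_nt.L2
open scoped Classical

theorem c_LOW1 (hFL : Q_FL) (hPAR : Q_PAR) (hTWS : Q_TWS) (hMAIN : Q_MAIN) (hERR : Q_ERR)
    (hNEGL : Q_NEGL) (hKEY : Q_KEY) (_hHP : Q_HP) :
    Q_LOW1 := by
  intro k _ _ _ al z ha hz
  have hq := qq_pos (k := k)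
  obtain ⟨C1, hC1, hFL⟩ := hFL
  obtain ⟨C, y0, hC, hERR⟩ := hERR
  obtain ⟨H, s, h4, hs, p1, p2, p3⟩ := hPAR C1 C hC
  obtain ⟨κ, n1, hκ, hT⟩ := hTWS k al z H ha (by omega)
  obtain ⟨n2, h2⟩ := NEG 1 H 2 1 (by omega) one_pos
  refine ⟨H, κ * (4 * H), n1 + n2 + H * (y0 + z + 1),
    21 + 16 * 2 ^ (4 * H) * qq k ^ 2 + 12 * 2 ^ (4 * H), h4, Nat.mul_pos hκ (by omega),
    fun N hN σ hσ => ?_⟩
  have hσ1 : |σ| ≤ 1 := by rcases hσ with h | h <;> simp [h]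
  obtain ⟨y, hy⟩ : ∃ y, y = N / H := ⟨_, rfl⟩
  have y1 : y0 + z + 1 ≤ y := hy ▸ (Nat.le_div_iff_mul_le (by omega)).2 (by nlinarith)
  have y2 : H * y ≤ N := hy ▸ Nat.mul_div_le _ _
  have y3 : N ≤ 2 * H * y := by
    have : N < H * (y + 1) := hy ▸ Nat.lt_mul_div_succ N (by omega)
    nlinarith
  have y4 : 2 * ((C1 * s + 8) * y) ≤ N := by nlinarith
  have y5 : 8 * y ≤ (C1 * s + 8) * y := Nat.mul_le_mul_right _ (by omega)
  obtain ⟨J, hJ⟩ : ∃ J, J + (C1 * s + 8) * y = N := ⟨N - (C1 * s + 8) * y, by omega⟩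
  obtain ⟨la, De, hS⟩ := hFL k s y (Pr k y) hs (by omega) subset_rfl
  set W := Vs k z H N with hW
  have W1 : W ⊆ (low k N).erase 0 := fun v hv => Mo_low (by omega) (mem_Vs.1 hv).1
  have W2 : (W.card : ℝ) ≤ qq k ^ N := by
    rw [← card_low']; exact_mod_cast card_le_card (W1.trans (erase_subset _ _))
  have yR : (0 : ℝ) < y := by exact_mod_cast (by omega : 0 < y)
  have NR : (0 : ℝ) < N := by exact_mod_cast (by omega : 0 < N)
  have HR : (0 : ℝ) < H := by exact_mod_cast (by omega : 0 < H)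
  have V0 := VV_nonneg al z y
  have sp : ∀ f : k[X] × k[X] → ℝ, ∑ p ∈ Rs al z y N W, f p =
      ∑ v ∈ W, ∑ u ∈ (Mo k N).filter (fun u => Rough al z y (gg u v)), f (u, v) := fun f => by
    rw [Rs, sum_filter, sum_product_right]
    exact sum_congr rfl fun v _ => (sum_filter _ _).symm
  have key := hKEY k al z H N J (4 * H) σ hσ (by omega) (by omega) (by rw [← hy]; linarith)
  have err := hERR k al z y N J (4 * H) W hz (by omega) (by omega) (by omega) (by omega) (by omega)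
    (by
      have := h2 N (by omega)
      rw [← hy, pow_one, one_mul] at this
      exact_mod_cast (show (2 * N : ℝ) ≤ 2 ^ y by linarith)) (by linarith) W1
  have main := card_nsmul_le_sum W _ _ fun v hv => hMAIN k al v z y N J (C1 * s * y) s la De σ
    (1 / 2 ^ (N / κ)) hz (by omega) hσ1 (by positivity) hS (by omega) (by linarith)
    (mem_erase.1 (W1 hv)).2 fun m U a b c d => by
      rw [one_div_mul_eq_div]
      exact hT N (by omega) v hv m U σ a (hy ▸ b) c (hy ▸ d) hσ1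
  have neg : (((Rs al z y N W).filter (fun p => Nsq al (gg p.1 p.2))).card : ℝ) * qq k ^ y ≤
      W.card * (3 * N * qq k ^ N) := by
    rw [card_filter, Nat.cast_sum, sp, sum_mul, ← nsmul_eq_mul]
    refine sum_le_card_nsmul _ _ _ fun v hv => ?_
    rw [← Nat.cast_sum, ← card_filter, filter_filter]
    exact hNEGL k al v z y H N (by omega) (by omega) (mem_Vs.1 hv).1 (hy ▸ (mem_Vs.1 hv).2)
  rw [← hy] at key ⊢
  rw [← hW, sp] at key
  rw [nsmul_eq_mul] at main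
  set Y := qq k ^ N * W.card * VV al z y * y with hY
  have Y0 : 0 ≤ Y := by positivity
  set t := N / (κ * (4 * H)) with ht
  have t1 : (2 : ℝ) ^ t ≤ 2 ^ (N / κ) :=
    pow_le_pow_right₀ one_le_two (Nat.div_le_div_left (Nat.le_mul_of_pos_right _ (by omega)) hκ)
  have t2 : t ≤ y / 4 := by
    rw [hy, Nat.div_div_eq_div_mul, mul_comm H]
    exact Nat.div_le_div_left (Nat.le_mul_of_pos_left _ hκ) (by omega)
  have t3 : (2 : ℝ) ^ t ≤ 2 ^ (y / 4) := pow_le_pow_right₀ one_le_two t2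
  have t4 : (2 : ℝ) ^ t ≤ qq k ^ y :=
    (two_pow_le_qq _).trans (qq_pow_mono (t2.trans (Nat.div_le_self _ _)))
  set Z := ((N : ℝ) + 1) ^ 4 * qq k ^ (2 * N) / 2 ^ t with hZ
  have n4 : ∀ i ≤ 4, (N : ℝ) ^ i ≤ (N + 1) ^ 4 := fun i hi =>
    (pow_le_pow_left₀ NR.le (by linarith) _).trans (pow_le_pow_right₀ (by linarith) hi)
  have b1 : W.card * (qq k ^ N * (VV al z y * (5 * (N : ℝ) ^ 2 / (y * 2 ^ s)))) ≤ Y / 8 := by
    have : 5 * (N : ℝ) ^ 2 / (y * 2 ^ s) ≤ y / 8 := by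
      have a1 : (N : ℝ) ≤ 2 * H * y := by exact_mod_cast y3
      have a2 : 160 * (H : ℝ) ^ 2 ≤ 2 ^ s := by exact_mod_cast p1
      rw [div_le_div_iff₀ (by positivity) (by norm_num)]
      nlinarith [pow_le_pow_left₀ NR.le a1 2, mul_le_mul_of_nonneg_left a2 (sq_nonneg (y : ℝ))]
    calc _ ≤ W.card * (qq k ^ N * (VV al z y * (y / 8))) := by gcongr
      _ = _ := by rw [hY]; ring
  have b2 : W.card * (qq k ^ N * (21 * (1 / 2 ^ (N / κ)) * (N : ℝ) ^ 4)) ≤ 21 * Z := by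
    calc _ ≤ qq k ^ N * (qq k ^ N * (21 * (1 / 2 ^ t) * ((N : ℝ) + 1) ^ 4)) := by
          gcongr; linarith
      _ = _ := by rw [hZ, two_mul N, pow_add]; ring
  have b3 : C * Y * ((2 * (N : ℝ) / y) ^ (17 / 12 : ℝ) *
      (((N : ℝ) - J) / (2 * N)) ^ (3 / 2 : ℝ)) ≤ Y / 32 := by
    have a1 : 2 * (N : ℝ) / y ≤ 4 * H := by
      rw [div_le_iff₀ yR]; exact_mod_cast (by linarith : 2 * N ≤ 4 * H * y)
    have a2 : (N : ℝ) - J = (C1 * s + 8) * y := by rw [← hJ]; push_cast; ring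
    have a3 : ((N : ℝ) - J) / (2 * N) ≤ (C1 * s + 8) / (2 * H) := by
      have : (H : ℝ) * y ≤ N := by exact_mod_cast y2
      rw [a2, div_le_div_iff₀ (by positivity) (by positivity), mul_assoc]
      exact mul_le_mul_of_nonneg_left (by linarith) (by positivity)
    calc _ ≤ C * Y * ((4 * (H : ℝ)) ^ (17 / 12 : ℝ) * ((C1 * s + 8) / (2 * H)) ^ (3 / 2 : ℝ)) := by
          have : 0 ≤ ((N : ℝ) - J) / (2 * N) := by rw [a2]; positivity
          gcongr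
      _ ≤ _ := by linarith [mul_le_mul_of_nonneg_left p3 Y0]
  have b4 : 4 * (N : ℝ) ^ 3 * 2 ^ (4 * H) * qq k ^ (2 * N + 2) / 2 ^ (y / 4) ≤
      4 * 2 ^ (4 * H) * qq k ^ 2 * Z := by
    calc _ ≤ 4 * ((N : ℝ) + 1) ^ 4 * 2 ^ (4 * H) * qq k ^ (2 * N + 2) / 2 ^ t := by
          gcongr; exact n4 3 (by norm_num)
      _ = _ := by rw [hZ, pow_add]; ring
  have b5 : 4 * N * 2 ^ (4 * H) *
      (((Rs al z y N W).filter (fun p => Nsq al (gg p.1 p.2))).card : ℝ) ≤ 12 * 2 ^ (4 * H) * Z := by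
    rw [← le_div_iff₀ (by positivity)] at neg
    calc _ ≤ 4 * N * 2 ^ (4 * H) * (qq k ^ N * (3 * N * qq k ^ N) / 2 ^ t) :=
          mul_le_mul_of_nonneg_left (neg.trans (by gcongr)) (by positivity)
      _ = 12 * 2 ^ (4 * H) * ((N : ℝ) ^ 2 * qq k ^ (2 * N) / 2 ^ t) := by
          rw [two_mul N, pow_add]; ring
      _ ≤ _ := by rw [hZ]; gcongr; exact n4 2 (by norm_num)
  rw [mul_assoc (_ + _), mul_div_assoc (_ + _ + _), ← hZ]
  linarith

end Pool.Agent.P.MP_6f5b02_nt.CP
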