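import Pool.Agent.P.MP_6f5b02_nt.CP.If

/-! Step LS. -/

namespace Pool.Agent.P.MP_6f5b02_nt.CP

open Polynomial Finset Filter
open Pool.Agent.P.MP_8be758_nt Pool.Agent.P.MP_8be758_nt.C2 Pool.Agent.P.MP_8be758_nt.L2
open scoped Classical

theorem LS_bessel {ι α : Type} (T : Finset ι) (Y : Finset α) (φ : ι → α → ℝ) (c : α → ℝ) {Q : ℝ}
    (hQ : 0 < Q) (h : ∀ i ∈ T, ∀ j ∈ T, ∑ y ∈ Y, φ i y * φ j y = if i = j then Q else 0) :
    ∑ i ∈ T, (∑ y ∈ Y, c y * φ i y) ^ 2 ≤ Q * ∑ y ∈ Y, c y ^ 2 := by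
  set a : ι → ℝ := fun i => ∑ y ∈ Y, c y * φ i y with ha
  have h1 : ∑ y ∈ Y, c y * ∑ i ∈ T, a i * φ i y = ∑ i ∈ T, a i ^ 2 := by
    simp only [mul_sum]
    rw [sum_comm]
    refine sum_congr rfl fun i _ => ?_
    rw [pow_two]
    conv_rhs => rw [ha, mul_sum]
    exact sum_congr rfl fun y _ => by ring
  have h2 : ∑ y ∈ Y, (∑ i ∈ T, a i * φ i y) ^ 2 = Q * ∑ i ∈ T, a i ^ 2 := by
    simp only [pow_two, sum_mul_sum]
    rw [sum_comm, mul_sum]
    refine sum_congr rfl fun i hi => ?_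
    rw [sum_comm, sum_congr rfl fun j hj => show ∑ y ∈ Y, a i * φ i y * (a j * φ j y) =
      if i = j then Q * (a i * a j) else 0 by
        rw [sum_congr rfl fun y _ => mul_mul_mul_comm (a i) (φ i y) (a j) (φ j y), ← mul_sum,
          h i hi j hj]
        split_ifs <;> ring, sum_ite_eq, if_pos hi]
  have h3 : 0 ≤ ∑ y ∈ Y, (Q * c y - ∑ i ∈ T, a i * φ i y) ^ 2 := sum_nonneg fun _ _ => sq_nonneg _
  rw [sum_congr rfl fun y _ => show (Q * c y - ∑ i ∈ T, a i * φ i y) ^ 2 = Q ^ 2 * c y ^ 2 -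
    2 * Q * (c y * ∑ i ∈ T, a i * φ i y) + (∑ i ∈ T, a i * φ i y) ^ 2 by ring, sum_add_distrib,
    sum_sub_distrib, ← mul_sum, ← mul_sum, h1, h2] at h3
  refine le_of_mul_le_mul_left ?_ hQ
  nlinarith

theorem c_LS (hLSD : Q_LSD) :
    Q_LS := by
  intro k _ _ _ D T τ c hT hτ
  refine LS_bessel T (low k D) (fun M y => psi (res M (y * τ M))) c (pow_pos qq_pos D)
    fun M hM M' hM' => ?_
  split_ifs with h
  · subst h
    simp only [psi_mul_self, sum_const, nsmul_eq_mul, mul_one, card_low']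
  · exact hLSD k D M M' _ _ (hT hM) (hT hM') (hτ M hM) (hτ M' hM') h

end Pool.Agent.P.MP_6f5b02_nt.CP
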