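import Pool.Agent.P.MP_6f5b02_nt.CP.If

/-! Step LSD. -/

namespace Pool.Agent.P.MP_6f5b02_nt.CP

open Polynomial Finset Filter
open Pool.Agent.P.MP_8be758_nt Pool.Agent.P.MP_8be758_nt.C2 Pool.Agent.P.MP_8be758_nt.L2
open scoped Classical

theorem LSD_low {k : Type} [Field k] [Finite k] {D : ℕ} {u v : k[X]} (hu : u ∈ low k D)
    (hv : v ∈ low k D) : gg u v ∈ low k (D + D) := by
  refine add_mem_low ?_ ?_
  · rw [pow_two]
    exact mul_mem_low hu (by have := natDegree_le_of_mem_low hu; omega)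
  · by_cases h0 : v = 0
    · simp [h0, zero_mem_low]
    · have := natDegree_lt_of_mem_low hv h0
      refine mem_low_of_natDegree_lt ?_
      rw [natDegree_mul X_ne_zero (pow_ne_zero _ h0), natDegree_X, natDegree_pow]
      omega

theorem c_LSD (hORTH : L2.S_ORTH) :
    Q_LSD := by
  intro k _ _ _ D M M' τ τ' hM hM' ⟨a, ha⟩ ⟨b, hb⟩ hne
  obtain ⟨m1, d1⟩ := mem_Mo.1 hM
  obtain ⟨m2, d2⟩ := mem_Mo.1 hM'
  have h0 : M * M' ≠ 0 := mul_ne_zero m1.ne_zero m2.ne_zero
  have hd : (M * M').natDegree = D + D := by rw [natDegree_mul m1.ne_zero m2.ne_zero, d1, d2]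
  obtain ⟨c, hc⟩ := ROOT_mod (M * M') (τ * M' + τ' * M)
  set R := (τ * M' + τ' * M) % (M * M') with hR
  have h1 := hORTH k (M * M') R D h0 (by omega) (mod_mem_low h0 _)
  rw [if_neg] at h1
  · refine (sum_congr rfl fun y _ => ?_).trans h1
    rw [← psi_add, ← res_split m1.ne_zero m2.ne_zero]
    exact congrArg psi (res_congr ⟨y * c, by linear_combination y * hc⟩)
  · intro h
    rw [hd, Nat.add_sub_cancel] at h
    have h2 : M - M' ∈ low k D := by
      have := degree_sub_lt_left (p := M) (q := M')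
        (by rw [degree_eq_natDegree m1.ne_zero, degree_eq_natDegree m2.ne_zero, d1, d2])
        m1.ne_zero (by rw [m1, m2])
      rwa [degree_eq_natDegree m1.ne_zero, d1, ← mem_low] at this
    have h3 : M * M' ∣ gg R (M - M') := ⟨M * M' * c ^ 2 + a * M' + b * M, by
      have e : R = τ * M' + τ' * M - M * M' * c := by linear_combination -hc
      rw [gg, e]
      linear_combination M' ^ 2 * ha + M ^ 2 * hb + (X * (M ^ 2 + M' ^ 2 - M * M') +
        τ * τ' * M * M' - (τ * M' + τ' * M) * (M * M') * c) * two0 (k := k)⟩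
    exact hne (sub_eq_zero.1 (gg_eq_zero (eq_zero_of_mem_low (LSD_low h h2) h3 hd.ge)).2)

end Pool.Agent.P.MP_6f5b02_nt.CP
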