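import Pool.Agent.P.MP_6f5b02_nt.CP.If

/-! Step MAIN. -/

namespace Pool.Agent.P.MP_6f5b02_nt.CP

open Polynomial Finset Filter
open Pool.Agent.P.MP_8be758_nt Pool.Agent.P.MP_8be758_nt.C2 Pool.Agent.P.MP_8be758_nt.L2
open scoped Classical

theorem c_MAIN (hMD : Q_MD) (hMPHI : Q_MPHI) (hPRD : Q_PRD) (_hHP : Q_HP) :
    Q_MAIN := by
  intro k _ _ _ al v z y N J Lv s la De σ τ hz hy hσ hτ hS hJ hN hv hosc
  have hq := qq_pos (k := k)
  have hV := VV_nonneg al z y
  have hy0 : (0 : ℝ) < y := by exact_mod_cast hy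
  have hyN : (y : ℝ) ≤ N := by exact_mod_cast (by omega : y ≤ N)
  set T := (Rg k y N).powerset.filter fun D => dg D ≤ J with hT
  set ε := 5 * VV al z y / 2 ^ s + 21 * τ * (y : ℝ) ^ 3 with hε
  have hε0 : 0 ≤ ε := by positivity
  have e : ∑ u ∈ (Mo k N).filter (fun u => Rough al z y (gg u v)),
      (1 + osc al σ (gg u v)) * AA N J (pf (gg u v)) = ∑ D ∈ T, sg D * ((N : ℝ) - dg D) *
        ∑ u ∈ (Mo k N).filter (fun u => Rough al z y (gg u v) ∧ pr D ∣ gg u v),
          (1 + osc al σ (gg u v)) := by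
    simp only [← filter_filter, sum_filter (fun u => pr _ ∣ gg u v), mul_sum]
    rw [sum_comm]
    refine sum_congr rfl fun u hu => ?_
    obtain ⟨u1, u2⟩ := mem_filter.1 hu
    have h0 := gg_ne u1 hv
    simp only [mul_ite, mul_zero]
    rw [← sum_filter, AA, mul_sum]
    refine sum_congr ?_ fun _ _ => mul_comm _ _
    ext D
    simp only [hT, mem_filter, mem_powerset]
    refine ⟨fun ⟨h1, h2⟩ => ?_, fun ⟨⟨h1, h2⟩, h3⟩ =>
      ⟨(subset_pf_iff h0 fun P hP => (mem_Rg.1 (h1 hP)).1).2 h3, h2⟩⟩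
    have h3 := fun P hP => (mem_pf h0).1 (h1 (x := P) hP)
    exact ⟨⟨fun P hP => mem_Rg.2 ⟨(h3 P hP).1, u2.lt (h3 P hP).1 (h3 P hP).2,
      by have := natDegree_le_dg hP; omega⟩, h2⟩,
      (subset_pf_iff h0 fun P hP => (h3 P hP).1).1 h1⟩
  have b : ∀ D ∈ T, qq k ^ N * VV al z y * (sg D * ((N : ℝ) - dg D) * ww D) -
      qq k ^ N * N * ε * ww D ≤ sg D * ((N : ℝ) - dg D) *
        ∑ u ∈ (Mo k N).filter (fun u => Rough al z y (gg u v) ∧ pr D ∣ gg u v),
          (1 + osc al σ (gg u v)) := fun D hD => by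
    obtain ⟨d1, d2⟩ := mem_filter.1 hD
    rw [mem_powerset] at d1
    have d3 : ∀ P ∈ D, IsPr P := fun P hP => (mem_Rg.1 (d1 hP)).1
    have m := hMD k al v z y N Lv s la De D σ τ hz hy hσ hτ hS d1 (by omega) fun E hE hL => by
      have d4 : ∀ P ∈ E, IsPr P := fun P hP => (mem_Pr.1 (hE hP)).1
      have d5 : (pr D * pr E).natDegree = dg D + dg E := by
        rw [(monic_pr d3).natDegree_mul (monic_pr d4), natDegree_pr d3, natDegree_pr d4]
      refine hosc (pr D * pr E) _ ((monic_pr d3).mul (monic_pr d4)) (by omega) (filter_subset _ _)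
        fun u hu x hx => ?_
      obtain ⟨u1, u2, u3⟩ := mem_filter.1 hu
      refine mem_filter.2 ⟨add_mem_Mo u1 (mul_mem_low hx (by omega)), ?_, fun P hP => ?_⟩
      · rw [gg_add]
        exact dvd_add u2 (dvd_pow ((dvd_mul_right _ _).mul_right _) two_ne_zero)
      · refine (Bp_congr al z y ?_).2 (u3 P hP)
        rw [gg_add, add_sub_cancel_left]
        exact dvd_pow (((dvd_prod_of_mem _ hP).mul_left _).mul_right _) two_ne_zero
    have a1 : |sg D * ((N : ℝ) - dg D)| ≤ N := by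
      have : (dg D : ℝ) ≤ N := by exact_mod_cast (by omega : dg D ≤ N)
      rw [abs_mul, abs_sg, one_mul, abs_of_nonneg (sub_nonneg.2 this)]
      exact sub_le_self _ (by positivity)
    have a2 := mul_le_mul a1 m (abs_nonneg _) (by positivity)
    rw [← abs_mul] at a2
    linarith [(abs_le.1 a2).1]
  have c1 := mul_le_mul_of_nonneg_left (hMPHI k y J N hJ (by omega))
    (mul_nonneg (pow_pos hq N).le hV)
  have c2 : ∑ D ∈ T, ww D ≤ N / y := by
    refine (sum_le_sum_of_subset_of_nonneg (filter_subset _ _) fun D _ _ => (ww_pos D).le).trans ?_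
    have := hPRD k y N (fun _ => 1) fun _ => zero_le_one
    simp only [prod_const_one, one_mul] at this
    refine this.trans ((Real.exp_le_exp.2 (harm_le hy (by omega))).trans ?_)
    rw [Real.exp_log (div_pos (hy0.trans_le hyN) hy0)]
  have c3 := mul_le_mul_of_nonneg_left c2 (show 0 ≤ qq k ^ N * N * ε by positivity)
  have c4 : qq k ^ N * N * ε * (N / y) ≤
      qq k ^ N * (VV al z y * (5 * (N : ℝ) ^ 2 / (y * 2 ^ s)) + 21 * τ * (N : ℝ) ^ 4) := by
    rw [mul_assoc, mul_assoc]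
    refine mul_le_mul_of_nonneg_left ?_ (by positivity)
    rw [show N * (ε * (N / y)) = VV al z y * (5 * (N : ℝ) ^ 2 / (y * 2 ^ s)) +
      21 * τ * ((N : ℝ) ^ 2 * y ^ 2) by rw [hε]; field_simp, show (N : ℝ) ^ 4 = N ^ 2 * N ^ 2 by ring]
    gcongr
  rw [e]
  refine le_trans ?_ (sum_le_sum b)
  rw [sum_sub_distrib, ← mul_sum, ← mul_sum]
  linarith

end Pool.Agent.P.MP_6f5b02_nt.CP
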