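import Pool.Agent.P.MP_6f5b02_nt.CP.If

/-! Step MD. -/

namespace Pool.Agent.P.MP_6f5b02_nt.CP

open Polynomial Finset Filter
open Pool.Agent.P.MP_8be758_nt Pool.Agent.P.MP_8be758_nt.C2 Pool.Agent.P.MP_8be758_nt.L2
open scoped Classical

theorem c_MD (hCNT : Q_CNT) (hHP : Q_HP) :
    Q_MD := by
  intro k _ _ _ al v z y N Lv s la De D σ τ hz hy hσ hτ ⟨s1, s2, s3, s4⟩ hD hN hosc
  have hq := qq_pos (k := k)
  obtain ⟨p1, p2⟩ := hHP k al z y hz
  have hPr : ∀ P ∈ Pr k y, IsPr P := fun P hP => (mem_Pr.1 hP).1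
  have hh : ∀ P ∈ Pr k y, 0 ≤ hp al z y P ∧ hp al z y P ≤ 1 / 2 := fun P hP => (p1 P (hPr P hP)).2.2
  obtain ⟨m1, m2⟩ := s3 (hp al z y) fun P _ => ⟨hp_nonneg _ _ _ _, hp_le_one _ _ _ _⟩
  have m3 := s4 (hp al z y) hh fun a ha => p2 _ a hPr ha
  rw [← VV] at m1 m2 m3
  set A := (Mo k N).filter fun u => pr D ∣ gg u v with hA
  set Y := qq k ^ N * ww D with hY
  have hY0 : 0 ≤ Y := mul_nonneg (by positivity) (ww_pos D).le
  set g : k[X] → k[X] → ℝ := fun u P => if Bp al z y P (gg u v) then 1 else 0 with hg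
  have hg1 : ∀ u, ∀ P ∈ Pr k y, 0 ≤ g u P ∧ g u P ≤ 1 := fun u P _ => by
    simp only [hg]; split_ifs <;> simp
  have sw : ∀ (c : Finset k[X] → ℝ) (w : k[X] → ℝ),
      ∑ u ∈ A, w u * ∑ E ∈ (Pr k y).powerset, c E * ∏ P ∈ E, g u P =
      ∑ E ∈ (Pr k y).powerset, c E * ∑ u ∈ (Mo k N).filter
        (fun u => pr D ∣ gg u v ∧ ∀ P ∈ E, Bp al z y P (gg u v)), w u := fun c w => by
    simp only [mul_sum]
    rw [sum_comm]
    refine sum_congr rfl fun E _ => ?_
    rw [← filter_filter, sum_filter (fun u => ∀ P ∈ E, _)]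
    refine sum_congr rfl fun u _ => ?_
    rw [hg, prod_boole]
    split_ifs <;> simp [mul_comm]
  have cnt : ∀ E ∈ (Pr k y).powerset, dg E ≤ Lv → (((Mo k N).filter
      (fun u => pr D ∣ gg u v ∧ ∀ P ∈ E, Bp al z y P (gg u v))).card : ℝ) =
      Y * ∏ P ∈ E, hp al z y P := fun E hE h =>
    hCNT k al v z y N D E (fun P hP => (mem_Rg.1 (hD hP)).1)
      (fun P hP => hPr P (mem_powerset.1 hE hP)) (disjoint_left.2 fun P h1 h2 => by
        have := (mem_Rg.1 (hD h1)).2.1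
        have := (mem_Pr.1 (mem_powerset.1 hE h2)).2
        omega) (by omega)
  have one : ∀ c : Finset k[X] → ℝ, (∀ E ∈ (Pr k y).powerset, c E ≠ 0 → dg E ≤ Lv) →
      ∑ u ∈ A, 1 * ∑ E ∈ (Pr k y).powerset, c E * ∏ P ∈ E, g u P =
      Y * ∑ E ∈ (Pr k y).powerset, c E * ∏ P ∈ E, hp al z y P := fun c hc => by
    rw [sw, mul_sum]
    refine sum_congr rfl fun E hE => ?_
    by_cases h : c E = 0
    · simp [h]
    · rw [sum_const, nsmul_eq_mul, cnt E hE (hc E hE h)]; ring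
  have o1 := one la fun E hE h => s2 E hE (Or.inl h)
  have o2 := one De fun E hE h => s2 E hE (Or.inr h)
  have o3 : |∑ u ∈ A, osc al σ (gg u v) * ∑ E ∈ (Pr k y).powerset, la E * ∏ P ∈ E, g u P| ≤
      Y * (21 * τ * (y : ℝ) ^ 3) := by
    rw [sw]
    refine (abs_sum_le_sum_abs _ _).trans ((sum_le_sum
      (g := fun E => τ * Y * ∏ P ∈ E, hp al z y P) fun E hE => ?_).trans ?_)
    · by_cases h : la E = 0
      · rw [h, zero_mul, abs_zero]
        exact mul_nonneg (mul_nonneg hτ hY0) (prod_nonneg fun P _ => hp_nonneg _ _ _ _)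
      · have := s2 E hE (Or.inl h)
        rw [abs_mul, mul_assoc, ← cnt E hE this]
        exact (mul_le_of_le_one_left (abs_nonneg _) (s1 E)).trans
          (hosc E (mem_powerset.1 hE) this)
    · rw [← mul_sum, ← prod_one_add, show Y * (21 * τ * (y : ℝ) ^ 3) = τ * Y * (21 * y ^ 3) by ring]
      refine mul_le_mul_of_nonneg_left ((prod_le_prod
        (fun P _ => add_nonneg zero_le_one (hp_nonneg _ _ _ _))
        fun P _ => (add_comm _ _).le.trans (Real.add_one_le_exp _)).trans ?_) (mul_nonneg hτ hY0)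
      have a1 : ∑ P ∈ Pr k y, hp al z y P ≤ 3 + 3 * Real.log y := by
        rw [← sum_fiberwise_of_maps_to (g := natDegree) (t := Ioc 0 y) fun P hP =>
          mem_Ioc.2 ⟨(hPr P hP).pos, (mem_Pr.1 hP).2⟩]
        refine (sum_le_sum fun a ha => p2 _ a hPr (mem_Ioc.1 ha).1).trans ?_
        simp only [div_eq_mul_one_div (3 : ℝ), ← mul_sum]
        linarith [harm_zero hy]
      rw [← Real.exp_sum]
      refine (Real.exp_le_exp.2 a1).trans ?_
      have a2 : Real.exp 3 ≤ 21 := by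
        rw [show (3 : ℝ) = ((3 : ℕ) : ℝ) * 1 by norm_num, Real.exp_nat_mul]
        exact (pow_le_pow_left₀ (Real.exp_pos _).le Real.exp_one_lt_d9.le _).trans (by norm_num)
      rw [Real.exp_add, show 3 * Real.log y = ((3 : ℕ) : ℝ) * Real.log y by norm_num,
        Real.exp_nat_mul, Real.exp_log (by exact_mod_cast hy)]
      exact mul_le_mul_of_nonneg_right a2 (by positivity)
  have e : ∑ u ∈ (Mo k N).filter (fun u => Rough al z y (gg u v) ∧ pr D ∣ gg u v),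
      (1 + osc al σ (gg u v)) = ∑ u ∈ A, (1 + osc al σ (gg u v)) * ∏ P ∈ Pr k y, (1 - g u P) := by
    rw [filter_congr fun u _ => and_comm, ← filter_filter, sum_filter]
    refine sum_congr rfl fun u _ => ?_
    split_ifs with h
    · rw [prod_eq_one fun P hP => by simp [hg, h P hP], mul_one]
    · obtain ⟨P, hP, h⟩ : ∃ P ∈ Pr k y, Bp al z y P (gg u v) := by simpa [Rough] using h
      rw [prod_eq_zero hP (by simp [hg, h]), mul_zero]
  have b1 : ∑ u ∈ A, (1 + osc al σ (gg u v)) * ∏ P ∈ Pr k y, (1 - g u P) ≤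
      ∑ u ∈ A, (1 + osc al σ (gg u v)) * ∑ E ∈ (Pr k y).powerset, la E * ∏ P ∈ E, g u P :=
    sum_le_sum fun u _ => mul_le_mul_of_nonneg_left (s3 _ (hg1 u)).1 (osc_bd al hσ _).1
  have b2 : ∑ u ∈ A, (1 + osc al σ (gg u v)) * ∑ E ∈ (Pr k y).powerset, la E * ∏ P ∈ E, g u P ≤
      ∑ u ∈ A, ((1 + osc al σ (gg u v)) * ∏ P ∈ Pr k y, (1 - g u P) +
        4 * (1 * ∑ E ∈ (Pr k y).powerset, De E * ∏ P ∈ E, g u P)) :=
    sum_le_sum fun u _ => by
      obtain ⟨c1, c2⟩ := s3 _ (hg1 u)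
      obtain ⟨c3, c4⟩ := osc_bd al hσ (gg u v)
      nlinarith
  rw [sum_add_distrib, ← mul_sum, o2] at b2
  simp only [add_mul (1 : ℝ), sum_add_distrib] at b1 b2 e
  rw [o1] at b1 b2
  rw [sum_add_distrib, e, abs_le, mul_div_assoc]
  obtain ⟨o4, o5⟩ := abs_le.1 o3
  have c1 := mul_le_mul_of_nonneg_left m1 hY0
  have c2 := mul_le_mul_of_nonneg_left m2 hY0
  have c3 := mul_le_mul_of_nonneg_left m3 hY0
  have c4 := mul_nonneg hY0 (div_nonneg (VV_nonneg al z y) (show (0 : ℝ) ≤ 2 ^ s by positivity))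
  constructor <;> linarith

end Pool.Agent.P.MP_6f5b02_nt.CP
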