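import Pool.Agent.P.MP_6f5b02_nt.CP.If

/-! Step MERT. -/

namespace Pool.Agent.P.MP_6f5b02_nt.CP

open Polynomial Finset Filter
open Pool.Agent.P.MP_8be758_nt Pool.Agent.P.MP_8be758_nt.C2 Pool.Agent.P.MP_8be758_nt.L2
open scoped Classical

theorem c_MERT (hRHO : Q_RHO) (hHPC : Q_HPC) (hHP : Q_HP) (_hGAUSS : L2.S_GAUSS) :
    Q_MERT := by
  intro k _ _ _ al z hz hal
  have hq := qq_pos (k := k)
  obtain ⟨C, hC⟩ := hRHO k _ hal
  refine ⟨Real.exp (-(C + 38)), Real.exp_pos _, fun y hy => ?_⟩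
  obtain ⟨p1, -⟩ := hHP k al z y hz
  have hP : ∀ P ∈ Pr k y, IsPr P := fun P hP => (mem_Pr.1 hP).1
  have b1 : ∑ P ∈ Pr k y, hp al z y P ≤ 2 * (1 + Real.log y) + C := by
    refine (sum_le_sum fun P h => hHPC k al P z y (hP P h)).trans ?_
    simp only [add_div, sum_add_distrib]
    refine add_le_add ?_ (hC y hy)
    rw [Pr_eq_Rg, sum_Rg 0 y fun a => 2 / qq k ^ a]
    refine le_trans ?_ (mul_le_mul_of_nonneg_left (harm_zero (by omega)) two_pos.le)
    rw [mul_sum]
    refine sum_le_sum fun a ha => ?_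
    have := card_Pd_le (k := k) (mem_Ioc.1 ha).1
    rw [mul_div_assoc', mul_comm, mul_div_assoc]
    linarith
  have b2 : ∑ P ∈ Pr k y, hp al z y P ^ 2 ≤ 18 := by
    refine (sum_le_sum fun P h => pow_le_pow_left₀ (hp_nonneg _ _ _ _) (p1 P (hP P h)).2.1 2).trans ?_
    rw [Pr_eq_Rg, sum_Rg 0 y fun a => (3 / qq k ^ a) ^ 2]
    refine (sum_le_sum (g := fun a => 9 * (1 / 2) ^ a) fun a ha => ?_).trans ?_
    · have a1 := (card_Pd_le (k := k) (mem_Ioc.1 ha).1).trans
        (div_le_self zero_le_one (by exact_mod_cast (mem_Ioc.1 ha).1))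
      have a2 : 1 / qq k ^ a ≤ (1 / 2) ^ a := by
        rw [one_div_pow]; exact one_div_le_one_div_of_le (by positivity) (two_pow_le_qq a)
      rw [show ((Pd k a).card : ℝ) * (3 / qq k ^ a) ^ 2 =
        9 * ((Pd k a).card / qq k ^ a * (1 / qq k ^ a)) by ring]
      exact mul_le_mul_of_nonneg_left ((mul_le_of_le_one_left (by positivity) a1).trans a2)
        (by norm_num)
    · rw [← mul_sum]
      have := (summable_geometric_two.sum_le_tsum (Ioc 0 y) fun _ _ => by positivity).trans_eq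
        tsum_geometric_two
      linarith
  refine le_trans ?_ (prod_le_prod (fun P _ => (Real.exp_pos _).le)
    fun P h => exp_le_one_sub (p1 P (hP P h)).2.2.1 (p1 P (hP P h)).2.2.2)
  rw [← Real.exp_sum, ← Real.exp_log (show (0 : ℝ) < (y : ℝ) ^ 2 by positivity), ← Real.exp_sub,
    Real.exp_le_exp, sum_neg_distrib, sum_add_distrib, ← mul_sum, Real.log_pow]
  push_cast
  linarith

end Pool.Agent.P.MP_6f5b02_nt.CP
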