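import Pool.Agent.P.MP_6f5b02_nt.CP.If

/-! Step NEGL. -/

namespace Pool.Agent.P.MP_6f5b02_nt.CP

open Polynomial Finset Filter
open Pool.Agent.P.MP_8be758_nt Pool.Agent.P.MP_8be758_nt.C2 Pool.Agent.P.MP_8be758_nt.L2
open scoped Classical

theorem c_NEGL (hSQ2 : L2.S_SQ2) :
    Q_NEGL := by
  intro k _ _ _ al v z y H N hz hN hv ⟨V1, s, hV, _, hV1, _, hs⟩
  have hq := qq_pos (k := k)
  obtain ⟨vm, vd⟩ := mem_Mo.1 hv
  set T := (pf v).filter fun Q => y < Q.natDegree with hT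
  have h1 : (Mo k N).filter (fun u => Rough al z y (gg u v) ∧ Nsq al (gg u v)) ⊆
      T.biUnion fun Q => (Mo k N).filter fun u => Q ∣ u ∨ Q ∣ u ^ 2 + u + al := fun u hu => by
    obtain ⟨u1, u2, u3⟩ := mem_filter.1 hu
    have key : ∀ U, ¬ Squarefree (gg U v) → ∃ Q, IsPr Q ∧ Q ∣ U ∧ Q ∣ v ∧ Q ∣ gg U v := fun U h => by
      rw [gg, hSQ2, ← EuclideanDomain.gcd_isUnit_iff] at h
      obtain ⟨Q, a, b⟩ := exists_isPr_dvd h
        (fun e => vm.ne_zero (EuclideanDomain.gcd_eq_zero_iff.1 e).2)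
      have b1 := b.trans (EuclideanDomain.gcd_dvd_left _ _)
      have b2 := b.trans (EuclideanDomain.gcd_dvd_right _ _)
      exact ⟨Q, a, b1, b2, dvd_add (dvd_pow b1 two_ne_zero) ((dvd_pow b2 two_ne_zero).mul_left _)⟩
    rcases u3 with h | h
    · obtain ⟨Q, a, b, c, d⟩ := key u h
      exact mem_biUnion.2 ⟨Q, mem_filter.2 ⟨(mem_pf vm.ne_zero).2 ⟨a, c⟩, u2.lt a d⟩,
        mem_filter.2 ⟨u1, Or.inl b⟩⟩
    · rw [FQ_gg] at h
      obtain ⟨Q, a, b, c, d⟩ := key _ h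
      refine mem_biUnion.2 ⟨Q, mem_filter.2 ⟨(mem_pf vm.ne_zero).2 ⟨a, c⟩, ?_⟩,
        mem_filter.2 ⟨u1, Or.inr ?_⟩⟩
      · by_contra hy
        refine u2 Q (mem_Pr.2 ⟨a, not_lt.1 hy⟩) (Or.inr ⟨?_, not_lt.1 hy, by rwa [FQ_gg]⟩)
        by_contra h2
        rcases a.prime.dvd_or_dvd (hV ▸ c) with h3 | h3
        · exact hV1 Q (mem_Pr.2 ⟨a, not_lt.1 h2⟩) h3
        · exact hy (hs Q ((dvd_pr_iff (fun P hP => (hs P hP).1) a).1 h3)).2.1
      · have := dvd_sub b ((dvd_pow c two_ne_zero).mul_left X)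
        rwa [show U2 al v u - X * v ^ 2 = u ^ 2 + u + al by unfold U2; ring] at this
  have h2 : ∀ Q ∈ T, (((Mo k N).filter fun u => Q ∣ u ∨ Q ∣ u ^ 2 + u + al).card : ℝ) * qq k ^ y ≤
      3 * qq k ^ N := fun Q hQ => by
    obtain ⟨a, b⟩ := mem_filter.1 hQ
    obtain ⟨a1, a2⟩ := (mem_pf vm.ne_zero).1 a
    have a3 := natDegree_le_of_dvd a2 vm.ne_zero
    have a4 := fun r => card_Gs a1.ne_zero r (n := N) (by omega)
    obtain ⟨r, hr⟩ : ∃ r, ∀ u, Q ∣ u ^ 2 + u + al → Q ∣ u - r ∨ Q ∣ u - (r + 1) := by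
      by_cases h : ∃ r, Q ∣ r ^ 2 + r + al
      · obtain ⟨r, hr⟩ := h
        refine ⟨r, fun u hu => a1.prime.dvd_or_dvd ?_⟩
        have := dvd_sub hu hr
        rwa [show u ^ 2 + u + al - (r ^ 2 + r + al) = (u - r) * (u - (r + 1)) by
          linear_combination ((u - r) * (r + 1)) * two0 (k := k)] at this
      · exact ⟨0, fun u hu => (h ⟨u, hu⟩).elim⟩
    have a5 : (((Mo k N).filter fun u => Q ∣ u ∨ Q ∣ u ^ 2 + u + al).card : ℝ) ≤
        (Gs Q 0 N).card + ((Gs Q r N).card + (Gs Q (r + 1) N).card) := by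
      exact_mod_cast (card_le_card fun u hu => by
        obtain ⟨u1, u2⟩ := mem_filter.1 hu
        simp only [mem_union, mem_Gs, sub_zero, (mem_Mo.1 u1).1, (mem_Mo.1 u1).2, true_and]
        exact u2.imp id (hr u)).trans
          ((card_union_le _ _).trans (Nat.add_le_add_left (card_union_le _ _) _))
    rw [a4, a4, a4] at a5
    have a6 : qq k ^ N / qq k ^ Q.natDegree * qq k ^ y ≤ qq k ^ N := by
      rw [div_mul_eq_mul_div, div_le_iff₀ (by positivity)]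
      exact mul_le_mul_of_nonneg_left (qq_pow_mono b.le) (by positivity)
    nlinarith [mul_le_mul_of_nonneg_right a5 (pow_pos hq y).le]
  have h3 : (T.card : ℝ) ≤ N := by
    exact_mod_cast ((card_filter_le _ _).trans (card_le_dg fun P => isPr_of_mem_pf)).trans
      ((dg_pf_le vm.ne_zero).trans (by omega))
  refine (mul_le_mul_of_nonneg_right (show _ ≤ ∑ Q ∈ T, (((Mo k N).filter
    fun u => Q ∣ u ∨ Q ∣ u ^ 2 + u + al).card : ℝ) by
      exact_mod_cast (card_le_card h1).trans card_biUnion_le) (by positivity)).trans ?_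
  rw [sum_mul]
  refine (sum_le_card_nsmul _ _ _ h2).trans ?_
  rw [nsmul_eq_mul]
  nlinarith [pow_pos hq N]

end Pool.Agent.P.MP_6f5b02_nt.CP
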