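import Pool.Agent.P.MP_6f5b02_nt.CP.If

/-! Step NI1. -/

namespace Pool.Agent.P.MP_6f5b02_nt.CP

open Polynomial Finset Filter
open Pool.Agent.P.MP_8be758_nt Pool.Agent.P.MP_8be758_nt.C2 Pool.Agent.P.MP_8be758_nt.L2
open scoped Classical

theorem c_NI1 (hGAUSS : L2.S_GAUSS) :
    Q_NI1 := by
  intro k _ _ z y w j hy
  have hq := qq_pos (k := k)
  have y0 : (0 : ℝ) < y := by exact_mod_cast (by omega : 0 < y)
  have hZ : ∀ P ∈ Pr k z, IsPr P := fun P hP => (mem_Pr.1 hP).1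
  induction j with
  | zero =>
    intro _ d h1 h2
    rw [pow_zero, one_mul, ← natDegree_pr hZ, ← card_Gs (monic_pr hZ).ne_zero 1
      (by rw [natDegree_pr hZ]; omega)]
    refine Nat.cast_le.2 (card_le_card fun v hv => ?_)
    obtain ⟨a, b, c⟩ := mem_Gs.1 hv
    exact mem_filter.2 ⟨mem_Mo.2 ⟨a, b⟩, v, ∅, by simp [pr_empty], by omega, fun P hP h =>
      (hZ P hP).prime.not_dvd_one (by
        simpa using dvd_sub h (((pr_dvd_iff hZ _).1 c) P hP)), rfl, by simp⟩
  | succ j ih =>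
    intro hj d h1 h2
    set G : ℕ → ℕ → Finset k[X] := fun j d => (Mo k d).filter (fun v => ∃ (V1 : k[X])
      (s : Finset k[X]), v = V1 * pr s ∧ V1.natDegree ≤ y ∧ (∀ P ∈ Pr k z, ¬ P ∣ V1) ∧ s.card = j ∧
        ∀ P ∈ s, IsPr P ∧ y < P.natDegree ∧ P.natDegree ≤ y + j * w) with hG
    set R := Rg k (y + j * w) (y + (j + 1) * w) with hR
    have key : ∀ {e : ℕ} {v Q : k[X]}, v ∈ G j e → Q ∈ R → ¬ Q ∣ v := fun {e v Q} hv hQ h => by
      obtain ⟨a, V1, s, rfl, b, -, -, c⟩ := mem_filter.1 hv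
      obtain ⟨q1, q2, -⟩ := mem_Rg.1 hQ
      rcases q1.prime.dvd_or_dvd h with h | h
      · have := natDegree_le_of_dvd h (left_ne_zero_of_mul (mem_Mo.1 a).1.ne_zero)
        omega
      · have := c Q ((dvd_pr_iff (fun P hP => (c P hP).1) q1).1 h)
        omega
    have hd : ∀ P ∈ R, P.natDegree ≤ d := fun P hP => by
      have := (mem_Rg.1 hP).2.2
      nlinarith
    have c1 : (R.sigma fun P => G j (d - P.natDegree)).card ≤ (G (j + 1) d).card := by
      refine card_le_card_of_injOn (fun x => x.1 * x.2) (fun x hx => ?_) fun x hx x' hx' e => ?_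
      · obtain ⟨x1, x2⟩ := mem_sigma.1 (mem_coe.1 hx)
        have x3 := key x2 x1
        obtain ⟨a, V1, s, e, b, c, c1, c2⟩ := mem_filter.1 x2
        obtain ⟨q1, q2, q3⟩ := mem_Rg.1 x1
        obtain ⟨a1, a2⟩ := mem_Mo.1 a
        have x4 : x.1 ∉ s := fun h => x3 (e ▸ (dvd_prod_of_mem _ h).mul_left _)
        refine mem_coe.2 (mem_filter.2 ⟨mem_Mo.2 ⟨q1.1.mul a1, ?_⟩, V1, insert x.1 s, ?_, b, c,
          by rw [card_insert_of_notMem x4, c1], fun P hP => ?_⟩)
        · have := hd _ x1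
          rw [q1.1.natDegree_mul a1]; omega
        · rw [pr_insert x4, mul_left_comm, ← e]
        · rcases mem_insert.1 hP with rfl | hP
          · exact ⟨q1, by omega, q3⟩
          · obtain ⟨b1, b2, b3⟩ := c2 P hP
            exact ⟨b1, b2, by rw [add_mul]; omega⟩
      · obtain ⟨x1, x2⟩ := mem_sigma.1 (mem_coe.1 hx)
        obtain ⟨x3, x4⟩ := mem_sigma.1 (mem_coe.1 hx')
        obtain ⟨P, v⟩ := x
        obtain ⟨P', v'⟩ := x'
        have e' : P * v = P' * v' := e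
        obtain rfl : P = P' := (mem_Rg.1 x1).1.eq_of_dvd (mem_Rg.1 x3).1
          (((mem_Rg.1 x1).1.prime.dvd_or_dvd (e' ▸ dvd_mul_right P v)).resolve_right (key x4 x1))
        rw [mul_left_cancel₀ (mem_Rg.1 x1).1.ne_zero e']
    refine le_trans ?_ (Nat.cast_le.2 c1)
    rw [card_sigma, Nat.cast_sum]
    refine le_trans ?_ (sum_le_sum (f := fun P : k[X] => ((w : ℝ) / (4 * y)) ^ j *
      qq k ^ d / qq k ^ dg (Pr k z) / qq k ^ P.natDegree) fun P hP => ?_)
    · rw [sum_Rg _ _ fun b => ((w : ℝ) / (4 * y)) ^ j * qq k ^ d / qq k ^ dg (Pr k z) / qq k ^ b]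
      refine le_trans (le_of_eq ?_) (card_nsmul_le_sum _ _
        (((w : ℝ) / (4 * y)) ^ j * qq k ^ d / qq k ^ dg (Pr k z) / (4 * y)) fun b hb => ?_)
      · rw [Nat.card_Ioc, show y + (j + 1) * w - (y + j * w) = w by rw [add_mul]; omega,
          nsmul_eq_mul]
        ring
      · obtain ⟨b1, b2⟩ := mem_Ioc.1 hb
        have a1 := (hGAUSS k b (by omega)).2 (by omega)
        have a2 : (b : ℝ) ≤ 2 * y := by exact_mod_cast (by omega : b ≤ 2 * y)
        rw [mul_div_assoc', mul_comm ((Pd k b).card : ℝ), mul_div_assoc _ ((Pd k b).card : ℝ),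
          div_eq_mul_one_div _ (4 * (y : ℝ))]
        refine mul_le_mul_of_nonneg_left ?_ (by positivity)
        rw [div_le_div_iff₀ (by positivity) (by positivity)]
        nlinarith [Nat.cast_nonneg (α := ℝ) (Pd k b).card]
    · obtain ⟨-, q2, q3⟩ := mem_Rg.1 hP
      obtain ⟨e, rfl⟩ := Nat.exists_eq_add_of_le (hd P hP)
      rw [Nat.add_sub_cancel_left]
      refine le_trans (le_of_eq ?_) (ih (by nlinarith) e (by nlinarith) (by nlinarith))
      rw [pow_add]
      field_simp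

end Pool.Agent.P.MP_6f5b02_nt.CP
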