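import Pool.Agent.P.MP_6f5b02_nt.CP.If

/-! Step NICE. -/

namespace Pool.Agent.P.MP_6f5b02_nt.CP

open Polynomial Finset Filter
open Pool.Agent.P.MP_8be758_nt Pool.Agent.P.MP_8be758_nt.C2 Pool.Agent.P.MP_8be758_nt.L2
open scoped Classical

theorem c_NICE (hNI1 : Q_NI1) :
    Q_NICE := by
  intro k _ _ z H hH
  have hq := qq_pos (k := k)
  obtain ⟨j, rfl⟩ : ∃ j, H = j + 3 := ⟨H - 3, by omega⟩
  set Z := dg (Pr k z) with hZ
  refine ⟨(1 / (8 * ((j + 3 : ℕ) : ℝ) ^ 2)) ^ (j + 2) / qq k ^ Z / qq k,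
    (j + 3) * ((j + 3) ^ 2 + 2 * Z + 2), by positivity, fun N hN => ?_⟩
  obtain ⟨y, hy⟩ : ∃ y, y = N / (j + 3) := ⟨_, rfl⟩
  obtain ⟨w, hw⟩ : ∃ w, w = y / (j + 3) ^ 2 := ⟨_, rfl⟩
  have y1 : (j + 3) ^ 2 + 2 * Z + 2 ≤ y := hy ▸ (Nat.le_div_iff_mul_le (by omega)).2 (by nlinarith)
  have y2 : (j + 3) * y ≤ N := hy ▸ Nat.mul_div_le _ _
  have y3 : N < (j + 3) * (y + 1) := hy ▸ Nat.lt_mul_div_succ N (by omega)
  have w1 : 1 ≤ w := hw ▸ (Nat.le_div_iff_mul_le (by positivity)).2 (by omega)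
  have w2 : (j + 3) ^ 2 * w ≤ y := hw ▸ Nat.mul_div_le _ _
  have w3 : y < (j + 3) ^ 2 * (w + 1) := hw ▸ Nat.lt_mul_div_succ y (by positivity)
  obtain ⟨d, rfl⟩ := Nat.exists_eq_add_one.2 (show 0 < N by nlinarith)
  have w4 : (j + 2) * w ≤ y := by nlinarith
  have h := hNI1 k z y w (j + 2) (by nlinarith) w4 d (by nlinarith)
    (by nlinarith [Nat.mul_le_mul_left ((j + 2) * (j + 1)) w1])
  refine le_trans ?_ (h.trans (Nat.cast_le.2 (card_le_card fun v hv => ?_)))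
  · rw [pow_succ (qq k), show ∀ a b c : ℝ, a / b / qq k * (c * qq k) = a * c / b from
      fun a b c => by field_simp]
    have y0 : (0 : ℝ) < y := by exact_mod_cast (by omega : 0 < y)
    gcongr ?_ ^ _ * _ / _
    rw [div_le_div_iff₀ (by positivity) (by positivity)]
    exact_mod_cast (by nlinarith : 1 * (4 * y) ≤ w * (8 * (j + 3) ^ 2))
  · obtain ⟨a, V1, s, b1, b2, b3, b4, b5⟩ := mem_filter.1 hv
    exact mem_Vs.2 ⟨a, V1, s, b1, hy ▸ b2, b3, by omega, fun P hP =>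
      ⟨(b5 P hP).1, hy ▸ (b5 P hP).2.1, by have := (b5 P hP).2.2; omega⟩⟩

end Pool.Agent.P.MP_6f5b02_nt.CP
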