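import Pool.Agent.P.MP_6f5b02_nt.CP.If

/-! Step OPN. -/

namespace Pool.Agent.P.MP_6f5b02_nt.CP

open Polynomial Finset Filter
open Pool.Agent.P.MP_8be758_nt Pool.Agent.P.MP_8be758_nt.C2 Pool.Agent.P.MP_8be758_nt.L2
open scoped Classical

theorem c_OPN (hFEJ : Q_FEJ) (_hGAUSS : L2.S_GAUSS) :
    Q_OPN := by
  intro k _ _ ψ y n hψ hy hn
  have hq := qq_pos (k := k)
  have y0 : (0 : ℝ) < y := by exact_mod_cast hy
  have hn' : (y : ℝ) ≤ n := by exact_mod_cast hn
  set Λ := 2 * Real.log (n / y) + 5 with hΛ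
  have hΛ0 : 0 ≤ Λ := by
    have := Real.log_nonneg ((one_le_div y0).2 hn')
    positivity
  set R := Rg k y n with hR
  set F : Finset k[X] → ℝ := fun S => ww S * nrm (Gf ψ S) with hF
  have F0 : ∀ S, 0 ≤ F S := fun S => mul_nonneg (ww_pos S).le (nrm_nonneg _)
  have k1 : ∀ S, ∑ P ∈ R.filter (· ∉ S), F (insert P S) ≤ Λ * F S := fun S => by
    have e : ∀ P ∈ R.filter (· ∉ S), F (insert P S) = ww S * (1 / qq k ^ P.natDegree *
        nrm fun x => Gf ψ S x - Gf ψ S (x + P.natDegree)) := fun P hP => by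
      have h := (mem_filter.1 hP).2
      simp only [hF, ww_insert h, funext (Gf_insert ψ h)]
      ring
    rw [sum_congr rfl e, ← mul_sum, hF, mul_left_comm]
    refine mul_le_mul_of_nonneg_left ((sum_le_sum_of_subset_of_nonneg (filter_subset _ _)
      fun P _ _ => mul_nonneg (by positivity) (nrm_nonneg _)).trans ?_) (ww_pos S).le
    rw [sum_Rg y n fun a => 1 / qq k ^ a * nrm fun x => Gf ψ S x - Gf ψ S (x + a)]
    refine le_trans (sum_le_sum fun a ha => ?_) (hFEJ _ y n (Gf_finite hψ S) hy hn)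
    rw [← mul_assoc, mul_one_div, div_eq_mul_one_div _ (a : ℝ), mul_comm _ (1 / (a : ℝ))]
    exact mul_le_mul_of_nonneg_right (card_Pd_le (by have := mem_Ioc.1 ha; omega)) (nrm_nonneg _)
  have k2 : ∀ j : ℕ, ∑ S ∈ powersetCard j R, F S ≤ Λ ^ j / j.factorial * nrm ψ := fun j => by
    induction j with
    | zero => simp [hF, ww_empty, funext (Gf_empty (k := k) ψ)]
    | succ j ih =>
      have e : ((j + 1 : ℕ) : ℝ) * ∑ S ∈ powersetCard (j + 1) R, F S =
          ∑ S ∈ powersetCard j R, ∑ P ∈ R.filter (· ∉ S), F (insert P S) := by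
        rw [mul_sum, sum_congr rfl fun S hS => show _ = ∑ _P ∈ S, F S by
          rw [sum_const, nsmul_eq_mul, (mem_powersetCard.1 hS).2], sum_sigma', sum_sigma']
        refine sum_nbij' (fun x => ⟨x.1.erase x.2, x.2⟩) (fun x => ⟨insert x.2 x.1, x.2⟩)
          (fun x hx => ?_) (fun x hx => ?_) (fun x hx => ?_) (fun x hx => ?_) fun x hx => ?_
        all_goals simp only [mem_sigma, mem_powersetCard, mem_filter] at hx ⊢
        · exact ⟨⟨(erase_subset _ _).trans hx.1.1, by rw [card_erase_of_mem hx.2, hx.1.2]; rfl⟩,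
            hx.1.1 hx.2, notMem_erase _ _⟩
        · exact ⟨⟨insert_subset hx.2.1 hx.1.1, by rw [card_insert_of_notMem hx.2.2, hx.1.2]⟩,
            mem_insert_self _ _⟩
        · rw [insert_erase hx.2]
        · rw [erase_insert hx.2.2]
        · rw [insert_erase hx.2]
      refine le_of_mul_le_mul_left ?_ (show (0 : ℝ) < (j + 1 : ℕ) by positivity)
      rw [e]
      refine (sum_le_sum fun S _ => k1 S).trans ?_
      rw [← mul_sum]
      refine (mul_le_mul_of_nonneg_left ih hΛ0).trans (le_of_eq ?_)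
      rw [Nat.factorial_succ, Nat.cast_mul]
      field_simp
      ring
  rw [sum_powerset]
  refine (sum_le_sum (g := fun j => (2 / 3 * Λ) ^ j / j.factorial * nrm ψ) fun j _ => ?_).trans ?_
  · rw [sum_congr rfl fun S hS => show _ = (2 / 3 : ℝ) ^ j * F S by
      rw [(mem_powersetCard.1 hS).2, mul_assoc], ← mul_sum, mul_pow, mul_div_assoc, mul_assoc]
    exact mul_le_mul_of_nonneg_left (k2 j) (by positivity)
  · rw [← sum_mul]
    refine mul_le_mul_of_nonneg_right ((Real.sum_le_exp_of_nonneg (by positivity) _).trans ?_)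
      (nrm_nonneg _)
    rw [Real.rpow_def_of_pos (div_pos (y0.trans_le hn') y0), ← Real.exp_add, Real.exp_le_exp]
    linarith

end Pool.Agent.P.MP_6f5b02_nt.CP
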