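import Pool.Agent.P.MP_6f5b02_nt.CP.If

/-! Step PAR. -/

namespace Pool.Agent.P.MP_6f5b02_nt.CP

open Polynomial Finset Filter
open Pool.Agent.P.MP_8be758_nt Pool.Agent.P.MP_8be758_nt.C2 Pool.Agent.P.MP_8be758_nt.L2
open scoped Classical

theorem c_PAR :
    Q_PAR := by
  intro C1 C hC
  obtain ⟨t0, h1⟩ := NEG 2 12 (C * 16 * (8 * C1 + 8) ^ 2) (1 / 32) (by norm_num) (by norm_num)
  obtain ⟨t1, h2⟩ := NEG 1 1 (2 * (8 * C1 + 8)) 1 le_rfl one_pos
  obtain ⟨m, hm⟩ : ∃ m, m = t0 + t1 + 1 := ⟨_, rfl⟩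
  have a1 := h1 (12 * m) (by omega)
  have a2 := h2 (12 * m) (by omega)
  rw [Nat.mul_div_cancel_left _ (by norm_num)] at a1
  rw [Nat.div_one, one_mul, pow_one] at a2
  have b : (C1 : ℝ) * (2 * (12 * m) + 8 : ℕ) + 8 ≤ (8 * C1 + 8) * ((12 * m : ℕ) + 1) := by
    push_cast
    nlinarith [mul_nonneg (Nat.cast_nonneg (α := ℝ) C1) (Nat.cast_nonneg (α := ℝ) m),
      Nat.cast_nonneg (α := ℝ) m]
  refine ⟨2 ^ (12 * m), 2 * (12 * m) + 8, Nat.pow_le_pow_right two_pos (show 2 ≤ _ by omega),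
    by omega, by rw [pow_add, pow_mul' 2 2]; omega, ?_, ?_⟩
  · exact_mod_cast (show (2 * (C1 * (2 * (12 * m) + 8 : ℕ) + 8) : ℝ) ≤ 2 ^ (12 * m) by linarith)
  · set a : ℝ := C1 * (2 * (12 * m) + 8 : ℕ) + 8 with ha
    have a0 : 1 ≤ a := by rw [ha]; exact le_add_of_nonneg_of_le (by positivity) (by norm_num)
    obtain ⟨x, hx⟩ : ∃ x : ℝ, x = 2 ^ m := ⟨_, rfl⟩
    have x0 : 0 < x := by rw [hx]; positivity
    have e1 : ((2 ^ (12 * m) : ℕ) : ℝ) = x ^ 12 := by rw [hx, ← pow_mul, mul_comm]; push_cast; rfl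
    have e2 : (4 * x ^ 12) ^ (17 / 12 : ℝ) ≤ 16 * x ^ 17 := by
      rw [Real.mul_rpow (by norm_num) (by positivity), ← Real.rpow_natCast_mul x0.le,
        show ((12 : ℕ) : ℝ) * (17 / 12) = (17 : ℕ) by norm_num, Real.rpow_natCast]
      refine mul_le_mul_of_nonneg_right ((Real.rpow_le_rpow_of_exponent_le (z := (2 : ℕ))
        (by norm_num) (by norm_num)).trans ?_) (by positivity)
      rw [Real.rpow_natCast]; norm_num
    have e3 : (a / (2 * x ^ 12)) ^ (3 / 2 : ℝ) ≤ a ^ 2 / x ^ 18 := by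
      refine (Real.rpow_le_rpow (y := a / x ^ 12) (by positivity) (by gcongr; linarith [pow_pos x0 12])
        (by norm_num)).trans ?_
      rw [Real.div_rpow (by positivity) (by positivity), ← Real.rpow_natCast_mul x0.le,
        show ((12 : ℕ) : ℝ) * (3 / 2) = (18 : ℕ) by norm_num, Real.rpow_natCast,
        ← Real.rpow_natCast a]
      exact div_le_div_of_nonneg_right (Real.rpow_le_rpow_of_exponent_le a0 (by norm_num))
        (by positivity)
    rw [e1]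
    refine (mul_le_mul_of_nonneg_left (mul_le_mul e2 e3 (by positivity) (by positivity)) hC.le).trans ?_
    rw [show C * (16 * x ^ 17 * (a ^ 2 / x ^ 18)) = C * 16 * a ^ 2 / x by field_simp,
      div_le_iff₀ x0, hx]
    refine le_trans ?_ a1
    rw [mul_assoc (C * 16), ← mul_pow]
    gcongr

end Pool.Agent.P.MP_6f5b02_nt.CP
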