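import Pool.Agent.P.MP_6f5b02_nt.CP.If

/-! Step PRD. -/

namespace Pool.Agent.P.MP_6f5b02_nt.CP

open Polynomial Finset Filter
open Pool.Agent.P.MP_8be758_nt Pool.Agent.P.MP_8be758_nt.C2 Pool.Agent.P.MP_8be758_nt.L2
open scoped Classical

theorem c_PRD (_hGAUSS : L2.S_GAUSS) :
    Q_PRD := by
  intro k _ _ y n t ht
  have hq := qq_pos (k := k)
  simp only [ww_eq_prod, ← prod_mul_distrib]
  rw [← prod_one_add]
  refine (prod_le_prod (fun P _ => by have := ht P.natDegree; positivity)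
    fun P _ => (add_comm _ _).le.trans (Real.add_one_le_exp _)).trans ?_
  rw [← Real.exp_sum, Real.exp_le_exp, sum_Rg y n fun a => t a * (1 / qq k ^ a)]
  refine sum_le_sum fun a ha => ?_
  rw [mul_left_comm, mul_one_div, div_eq_mul_one_div (t a)]
  exact mul_le_mul_of_nonneg_left (card_Pd_le (by have := mem_Ioc.1 ha; omega)) (ht a)

end Pool.Agent.P.MP_6f5b02_nt.CP
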