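import Pool.Agent.P.MP_6f5b02_nt.CP.If

/-! Step QUAD. -/

namespace Pool.Agent.P.MP_6f5b02_nt.CP

open Polynomial Finset Filter
open Pool.Agent.P.MP_8be758_nt Pool.Agent.P.MP_8be758_nt.C2 Pool.Agent.P.MP_8be758_nt.L2
open scoped Classical

theorem c_QUAD :
    Q_QUAD := by
  intro K _ _ _ κ A B hκ
  have h2 : (2 : K) = 0 := CharTwo.two_eq_zero
  set f : K → K := fun y => κ * y ^ 3 + A * y ^ 2 + B * y with hf
  have e : (∑ y, psi (f y)) ^ 2 =
      ∑ h, psi (f h) * ∑ y, psi ((κ * h + κ ^ 2 * h ^ 4) * y ^ 2) := by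
    simp only [mul_sum]
    rw [sum_comm, sq, sum_mul_sum]
    refine sum_congr rfl fun y _ => ?_
    rw [← Equiv.sum_comp (Equiv.addLeft y)]
    refine sum_congr rfl fun h _ => ?_
    rw [Equiv.coe_addLeft, ← psi_add, add_mul, psi_add (κ * h * y ^ 2),
      show κ ^ 2 * h ^ 4 * y ^ 2 = (κ * h ^ 2 * y) ^ 2 by ring, psi_sq, ← psi_add, ← psi_add]
    congr 1
    simp only [hf]
    linear_combination (κ * y ^ 3 + A * y ^ 2 + B * y + κ * h * y ^ 2 + κ * h ^ 2 * y +
      A * y * h) * h2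
  have hp : (C κ * X + C (κ ^ 2) * X ^ 4 : K[X]).natDegree = 4 := by
    have := pow_ne_zero 2 hκ
    compute_degree!
  have hc : (univ.filter fun h : K => κ * h + κ ^ 2 * h ^ 4 = 0).card ≤ 4 := by
    refine (card_le_degree_of_subset_roots fun h hh => ?_).trans hp.le
    rw [mem_roots (fun h0 => by rw [h0] at hp; simp at hp)]
    simpa using hh
  have hb : (∑ y, psi (f y)) ^ 2 ≤ 4 * Fintype.card K := by
    rw [e]
    calc _ ≤ ∑ h : K, if κ * h + κ ^ 2 * h ^ 4 = 0 then (Fintype.card K : ℝ) else 0 :=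
          sum_le_sum fun h _ => by
            rw [sum_psi_sq]
            exact mul_le_of_le_one_left (by positivity) ((le_abs_self _).trans (abs_psi _).le)
      _ ≤ _ := by
          rw [← sum_filter, sum_const, nsmul_eq_mul]
          exact mul_le_mul_of_nonneg_right (by exact_mod_cast hc) (by positivity)
  refine abs_le_of_sq_le_sq' ?_ (by positivity) |> abs_le.2
  rwa [mul_pow, Real.sq_sqrt (by positivity), show (2 : ℝ) ^ 2 = 4 by norm_num]

end Pool.Agent.P.MP_6f5b02_nt.CP
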