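import Pool.Agent.P.MP_6f5b02_nt.CP.If

/-! Step RED. -/

namespace Pool.Agent.P.MP_6f5b02_nt.CP

open Polynomial Finset Filter
open Pool.Agent.P.MP_8be758_nt Pool.Agent.P.MP_8be758_nt.C2 Pool.Agent.P.MP_8be758_nt.L2
open scoped Classical

theorem c_RED :
    Q_RED := by
  intro k _ _ _ A
  induction hn : A.natDegree using Nat.strong_induction_on generalizing A with
  | _ n ih =>
  rcases n.eq_zero_or_pos with h0 | h0
  · exact ⟨0, Or.inl (by simpa [h0] using hn)⟩
  rcases n.even_or_odd with ⟨m, hm⟩ | h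
  · obtain ⟨c, hc⟩ := exists_sqrt A.leadingCoeff
    have hA : A ≠ 0 := fun h => by simp [h] at hn; omega
    have e : (C c * X ^ m) ^ 2 = monomial A.natDegree A.leadingCoeff := by
      rw [mul_pow, ← C_pow, hc, ← pow_mul, C_mul_X_pow_eq_monomial, hn, hm, mul_two]
    have h1 : (A + (C c * X ^ m) ^ 2 + C c * X ^ m).natDegree < n := by
      rw [e, ← CharTwo.sub_eq_add A, self_sub_monomial_natDegree_leadingCoeff]
      refine (natDegree_add_le _ _).trans_lt (max_lt ?_ ((natDegree_C_mul_X_pow_le _ _).trans_lt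
        (by omega)))
      rcases eraseLead_natDegree_lt_or_eraseLead_eq_zero A with h | h
      · omega
      · simpa [h] using h0
    obtain ⟨h, hh⟩ := ih _ h1 _ rfl
    refine ⟨C c * X ^ m + h, ?_⟩
    rwa [show A + (C c * X ^ m + h) ^ 2 + (C c * X ^ m + h) =
      A + (C c * X ^ m) ^ 2 + C c * X ^ m + h ^ 2 + h by rw [CharTwo.add_sq]; ring]
  · exact ⟨0, Or.inr (by simpa [hn] using h)⟩

end Pool.Agent.P.MP_6f5b02_nt.CP
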