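import Pool.Agent.P.MP_6f5b02_nt.CP.If

/-! Step RES. -/

namespace Pool.Agent.P.MP_6f5b02_nt.CP

open Polynomial Finset Filter
open Pool.Agent.P.MP_8be758_nt Pool.Agent.P.MP_8be758_nt.C2 Pool.Agent.P.MP_8be758_nt.L2
open scoped Classical

theorem c_RES :
    Q_RES := by
  intro k _ _ E B hE hB
  induction E using Finset.induction_on with
  | empty =>
    have := card_low (k := k) 0
    simpa [dg_empty] using this
  | insert P E hP ih =>
    have h1 := hE P (mem_insert_self _ _)
    have h2 : ∀ Q ∈ E, IsPr Q := fun Q hQ => hE Q (mem_insert_of_mem hQ)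
    have h0 := (monic_pr h2).ne_zero
    have hc : IsCoprime P (pr E) := h1.2.coprime_iff_not_dvd.2 fun d => hP ((dvd_pr_iff h2 h1).1 d)
    have hB' : ∀ Q ∈ insert P E, ∀ x y, Q ∣ x - y → (B Q x ↔ B Q y) := fun Q hQ x y ⟨t, ht⟩ => by
      rw [← hB Q hQ y t, ← ht, add_sub_cancel]
    have hQ : ∀ Q ∈ E, ∀ x y, pr E ∣ x - y → (B Q x ↔ B Q y) := fun Q hQ x y h =>
      hB' Q (mem_insert_of_mem hQ) x y ((dvd_prod_of_mem _ hQ).trans h)
    have hm : ∀ {M x y : k[X]}, x % M = y % M → M ∣ x - y := fun {M x y} h => by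
      have := dvd_sub (ROOT_mod M x) (ROOT_mod M y)
      rwa [h, sub_sub_sub_cancel_right] at this
    have hd : (P * pr E).natDegree = dg (insert P E) := by rw [← pr_insert hP, natDegree_pr hE]
    rw [prod_insert hP, ← ih h2 fun Q hQ => hB Q (mem_insert_of_mem hQ), ← card_product]
    refine card_bij (fun ρ _ => (ρ % P, ρ % pr E)) (fun ρ hρ => ?_) (fun x hx y hy e => ?_)
      fun ⟨a, b⟩ h => ?_
    · have h3 := (mem_filter.1 hρ).2
      refine mem_product.2 ⟨mem_filter.2 ⟨mod_mem_low h1.ne_zero _,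
        (hB' P (mem_insert_self _ _) _ _ (ROOT_mod P ρ)).1 (h3 P (mem_insert_self _ _))⟩,
        mem_filter.2 ⟨natDegree_pr h2 ▸ mod_mem_low h0 _, fun Q hq =>
          (hQ Q hq _ _ (ROOT_mod _ ρ)).1 (h3 Q (mem_insert_of_mem hq))⟩⟩
    · obtain ⟨e1, e2⟩ := Prod.mk.inj e
      exact sub_eq_zero.1 (eq_zero_of_mem_low (sub_mem_low (mem_filter.1 hx).1 (mem_filter.1 hy).1)
        (hc.mul_dvd (hm e1) (hm e2)) hd.ge)
    · obtain ⟨⟨a1, a2⟩, b1, b2⟩ : (a ∈ low k P.natDegree ∧ B P a) ∧ b ∈ low k (dg E) ∧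
        ∀ Q ∈ E, B Q b := by simpa only [mem_product, mem_filter] using h
      obtain ⟨s, t, hst⟩ := hc
      set x := (a * t * pr E + b * s * P) % (P * pr E) with hx
      have x0 := ROOT_mod (P * pr E) (a * t * pr E + b * s * P)
      have x1 : P ∣ x - a := by
        have := dvd_sub (Dvd.intro ((b - a) * s) rfl) ((dvd_mul_right P _).trans x0)
        rwa [show P * ((b - a) * s) - (a * t * pr E + b * s * P - x) = x - a by
          linear_combination (-a) * hst] at this
      have x2 : pr E ∣ x - b := by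
        have := dvd_sub (Dvd.intro ((a - b) * t) rfl) ((dvd_mul_left (pr E) _).trans x0)
        rwa [show pr E * ((a - b) * t) - (a * t * pr E + b * s * P - x) = x - b by
          linear_combination (-b) * hst] at this
      refine ⟨x, mem_filter.2 ⟨hd ▸ mod_mem_low (mul_ne_zero h1.ne_zero h0) _, fun Q hq => ?_⟩,
        Prod.ext ?_ ?_⟩
      · rcases mem_insert.1 hq with rfl | hq
        · exact (hB' _ hq _ _ x1).2 a2
        · exact (hQ Q hq _ _ x2).2 (b2 Q hq)
      · refine sub_eq_zero.1 (eq_zero_of_mem_low (sub_mem_low (mod_mem_low h1.ne_zero _) a1) ?_ le_rfl)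
        have := dvd_sub x1 (ROOT_mod P x)
        rwa [show x - a - (x - x % P) = x % P - a by ring] at this
      · refine sub_eq_zero.1 (eq_zero_of_mem_low (sub_mem_low (mod_mem_low h0 _)
          ((natDegree_pr h2).symm ▸ b1)) ?_ le_rfl)
        have := dvd_sub x2 (ROOT_mod (pr E) x)
        rwa [show x - b - (x - x % pr E) = x % pr E - b by ring] at this

end Pool.Agent.P.MP_6f5b02_nt.CP
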