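import Pool.Agent.P.MP_6f5b02_nt.CP.If

/-! Step RHO. -/

namespace Pool.Agent.P.MP_6f5b02_nt.CP

open Polynomial Finset Filter
open Pool.Agent.P.MP_8be758_nt Pool.Agent.P.MP_8be758_nt.C2 Pool.Agent.P.MP_8be758_nt.L2
open scoped Classical

theorem c_RHO (hAS : Q_AS) (hCHI : Q_CHI) (hRED : Q_RED) (hCZ : Q_CZ) (hSQS : Q_SQS)
    (hEUL : Q_EUL) (hCST : Q_CST) :
    Q_RHO := by
  intro k _ _ _ A hA
  obtain ⟨h, hh⟩ := hRED k A
  suffices ∃ C : ℝ, ∀ y : ℕ, 2 ≤ y →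
      ∑ P ∈ Pr k y, chi (A + h ^ 2 + h) P / qq k ^ P.natDegree ≤ C by
    obtain ⟨C, hC⟩ := this
    exact ⟨C, fun y hy => le_trans (le_of_eq (sum_congr rfl fun P hP => by
      rw [(hCHI k A).2.2 h P (mem_Pr.1 hP).1])) (hC y hy)⟩
  rcases hh with h0 | h0
  · obtain ⟨a, ha⟩ := natDegree_eq_zero.1 h0
    let _ := Fintype.ofFinite k
    rcases psi_eq a with h1 | h1
    · obtain ⟨x, hx⟩ := card_pos.1 (show 0 < (univ.filter fun x : k => x ^ 2 + x = a).card by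
        have := hAS k a
        rw [h1] at this
        exact Nat.cast_pos.1 (this ▸ (by norm_num : (0 : ℝ) < 1 + 1)))
      refine (hA (C x + h) ?_).elim
      have := congrArg C (mem_filter.1 hx).2
      rw [map_add, map_pow] at this
      linear_combination this + ha + (C x * h + (A + h ^ 2 + h)) * two0 (k := k)
    · obtain ⟨C, hC⟩ := hCST k a h1
      exact ⟨C, fun y _ => ha ▸ hC y⟩
  · exact hEUL k _ _ (fun P => (abs_psi _).le) (hSQS k _ _ · fun i hi => hCZ k _ i h0 hi)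

end Pool.Agent.P.MP_6f5b02_nt.CP
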