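import Pool.Agent.P.MP_6f5b02_nt.CP.If

/-! Step RNK. -/

namespace Pool.Agent.P.MP_6f5b02_nt.CP

open Polynomial Finset Filter
open Pool.Agent.P.MP_8be758_nt Pool.Agent.P.MP_8be758_nt.C2 Pool.Agent.P.MP_8be758_nt.L2
open scoped Classical

theorem c_RNK (hPRD : Q_PRD) :
    Q_RNK := by
  intro k _ _ y a D hy ha
  have y0 : (0 : ℝ) < y := by exact_mod_cast hy
  have a0 : (0 : ℝ) < a := by exact_mod_cast hy.trans ha
  have h := hPRD k y a (fun b => 3 / 2 * Real.exp (b / a)) fun _ => by positivity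
  have h1 : ∑ b ∈ Ioc y a, 3 / 2 * Real.exp ((b : ℝ) / a) / b ≤ 3 + Real.log (a / y) * (3 / 2) := by
    refine (sum_le_sum (g := fun b : ℕ => 3 / 2 * (1 / (b : ℝ)) + 3 / a) fun b hb => ?_).trans ?_
    · obtain ⟨b1, b2⟩ := mem_Ioc.1 hb
      have b0 : (0 : ℝ) < b := by exact_mod_cast (by omega : 0 < b)
      have b3 : (b : ℝ) / a ≤ 1 := (div_le_one a0).2 (by exact_mod_cast b2)
      have b4 := Real.abs_exp_sub_one_le (x := b / a) (by rwa [abs_of_pos (by positivity)])
      rw [abs_of_pos (show 0 < (b : ℝ) / a by positivity)] at b4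
      rw [div_le_iff₀ b0, show (3 / 2 * (1 / (b : ℝ)) + 3 / a) * b = 3 / 2 * (1 + 2 * (b / a)) by
        field_simp]
      linarith [(abs_le.1 b4).2]
    · rw [sum_add_distrib, ← mul_sum, sum_const, Nat.card_Ioc, nsmul_eq_mul, Nat.cast_sub ha]
      have := harm_le hy ha
      have : ((a : ℝ) - y) * (3 / a) ≤ 3 := by
        rw [mul_div_assoc', div_le_iff₀ a0]; linarith
      linarith
  rw [Real.rpow_def_of_pos (by positivity), ← Real.exp_add]
  refine le_trans ?_ (mul_le_mul_of_nonneg_right (h.trans (Real.exp_le_exp.2 h1)) (Real.exp_pos _).le)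
  rw [sum_mul]
  refine le_trans (sum_le_sum fun S hS => ?_) (sum_le_sum_of_subset_of_nonneg (filter_subset _ _)
    fun S _ _ => by have := ww_pos S; positivity)
  rw [prod_mul_distrib, prod_const, ← Real.exp_sum, ← sum_div, ← Nat.cast_sum, ← dg,
    mul_right_comm _ (ww S), mul_assoc (_ ^ _), ← Real.exp_add]
  refine mul_le_mul_of_nonneg_right (le_mul_of_one_le_right (by positivity)
    (Real.one_le_exp ?_)) (ww_pos S).le
  rw [← sub_eq_add_neg, ← sub_div]
  exact div_nonneg (sub_nonneg.2 (mem_filter.1 hS).2) a0.le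

end Pool.Agent.P.MP_6f5b02_nt.CP
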