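import Pool.Agent.P.MP_6f5b02_nt.CP.If

/-! Step SQS. -/

namespace Pool.Agent.P.MP_6f5b02_nt.CP

open Polynomial Finset Filter
open Pool.Agent.P.MP_8be758_nt Pool.Agent.P.MP_8be758_nt.C2 Pool.Agent.P.MP_8be758_nt.L2
open scoped Classical

theorem SQS_ind {k : Type} [Field k] [Finite k] {f : k[X]} {j : ℕ} (hf : f ∈ Mo k j) :
    ∑ S ∈ (Pr k j).powerset.filter (fun S => pr S ^ 2 ∣ f), sg S = if Squarefree f then 1 else 0 := by
  obtain ⟨f1, f2⟩ := mem_Mo.1 hf
  rw [show (Pr k j).powerset.filter (fun S => pr S ^ 2 ∣ f) =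
    ((Pr k j).filter fun P => P ^ 2 ∣ f).powerset from ?_, sum_sg_powerset]
  · refine if_congr ⟨fun h x hx => ?_, fun h => filter_eq_empty_iff.2 fun P hP d =>
      (mem_Pr.1 hP).1.2.not_isUnit (h P (sq P ▸ d))⟩ rfl rfl
    by_contra hu
    obtain ⟨P, a, b⟩ := exists_isPr_dvd hu fun e => f1.ne_zero (by simpa [e] using hx)
    have c := (mul_dvd_mul b b).trans hx
    exact filter_eq_empty_iff.1 h (mem_Pr.2 ⟨a, f2 ▸ natDegree_le_of_dvd
      ((dvd_mul_right _ _).trans c) f1.ne_zero⟩) ((sq P).symm ▸ c)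
  · ext S
    simp only [mem_filter, mem_powerset]
    refine ⟨fun h P hP => mem_filter.2 ⟨h.1 hP, (pow_dvd_pow_of_dvd
      (show P ∣ pr S from dvd_prod_of_mem (fun Q => Q) hP) 2).trans h.2⟩, fun h =>
        ⟨h.trans (filter_subset _ _), ?_⟩⟩
    rw [pr, ← prod_pow]
    exact prod_dvd_of_coprime (fun P hP Q hQ e => ((mem_Pr.1 (mem_filter.1 (h hP)).1).1.coprime
      (mem_Pr.1 (mem_filter.1 (h hQ)).1).1 e).pow) fun P hP => (mem_filter.1 (h hP)).2

theorem c_SQS (hCHI : Q_CHI) (hBIJ : L2.S_BIJ) :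
    Q_SQS := by
  intro k _ _ _ A D j hz
  have hq := qq_pos (k := k)
  obtain ⟨hm, -⟩ := hCHI k A
  have c1 : ∀ f, |chi A f| = 1 := fun f => abs_psi _
  have e1 : ∀ S : Finset k[X], (∀ P ∈ S, IsPr P) → ∏ P ∈ S, chi A P = chi A (pr S) := fun S hS => by
    induction S using Finset.induction_on with
    | empty => simp [pr_empty, chi, res_zero, psi_zero]
    | insert P S hP ih =>
      have h2 : ∀ Q ∈ S, IsPr Q := fun Q hQ => hS Q (mem_insert_of_mem hQ)
      rw [prod_insert hP, pr_insert hP, ih h2,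
        hm _ _ (hS P (mem_insert_self _ _)).ne_zero (monic_pr h2).ne_zero]
  have e2 : ∀ S ∈ (Pr k j).powerset, |∑ f ∈ (Mo k j).filter (fun f => pr S ^ 2 ∣ f), chi A f| ≤
      if 2 * dg S ≤ j ∧ j < D + 2 * dg S then qq k ^ (j - 2 * dg S) else 0 := fun S hS => by
    have h1 : ∀ P ∈ S, IsPr P := fun P hP => (mem_Pr.1 (mem_powerset.1 hS hP)).1
    have h2 := (monic_pr h1).pow 2
    have h3 : (pr S ^ 2).natDegree = 2 * dg S := by rw [natDegree_pow, natDegree_pr h1]
    by_cases h : 2 * dg S ≤ j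
    · have : ∑ f ∈ (Mo k j).filter (fun f => pr S ^ 2 ∣ f), chi A f =
          ∑ m ∈ Mo k (j - 2 * dg S), chi A m := by
        refine (sum_bij (fun m _ => pr S ^ 2 * m) (fun m hm => ?_)
          (fun _ _ _ _ e => mul_left_cancel₀ h2.ne_zero e) (fun f hf => ?_) fun m hm' => ?_).symm
        · obtain ⟨a, b⟩ := mem_Mo.1 hm
          exact mem_filter.2 ⟨mem_Mo.2 ⟨h2.mul a, by rw [h2.natDegree_mul a]; omega⟩, dvd_mul_right _ _⟩
        · obtain ⟨a, m, rfl⟩ := mem_filter.1 hf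
          obtain ⟨a, b⟩ := mem_Mo.1 a
          have c := h2.of_mul_monic_left a
          rw [h2.natDegree_mul c] at b
          exact ⟨m, mem_Mo.2 ⟨c, by omega⟩, rfl⟩
        · rw [hm _ _ h2.ne_zero (mem_Mo.1 hm').1.ne_zero, sq,
            hm _ _ (monic_pr h1).ne_zero (monic_pr h1).ne_zero, chi, chi, psi_mul_self, one_mul]
      rw [this]
      split_ifs with h'
      · refine (abs_sum_le_sum_abs _ _).trans (le_of_eq ?_)
        simp [c1, card_Mo]
      · rw [hz _ (by omega), abs_zero]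
    · rw [if_neg fun a => h a.1, sum_eq_zero, abs_zero]
      intro f hf
      obtain ⟨a, b⟩ := mem_filter.1 hf
      have := natDegree_le_of_dvd b (mem_Mo.1 a).1.ne_zero
      have := (mem_Mo.1 a).2
      omega
  rw [sum_congr rfl fun S hS => e1 S (mem_Sc.1 hS).1, hBIJ, sum_filter, sum_congr rfl fun f hf =>
    show _ = ∑ S ∈ (Pr k j).powerset, if pr S ^ 2 ∣ f then sg S * chi A f else 0 by
      rw [← sum_filter, ← sum_mul, SQS_ind hf, boole_mul], sum_comm]
  refine (abs_sum_le_sum_abs _ _).trans (le_trans (sum_le_sum fun S hS => le_trans (le_of_eq ?_)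
    (e2 S hS)) ?_)
  · rw [← sum_filter, ← mul_sum, abs_mul, abs_sg, one_mul]
  obtain ⟨i0, h0⟩ : ∃ i0, i0 = (j + 2 - D) / 2 := ⟨_, rfl⟩
  rw [← sum_filter, ← sum_fiberwise_of_maps_to (g := dg) (t := Ico i0 (j + 1)) fun S hS => by
    have := (mem_filter.1 hS).2
    rw [mem_Ico]; omega]
  refine (sum_le_sum (g := fun i => √(qq k) ^ D * √(qq k) ^ j * (1 / 2) ^ (i - i0))
    fun i hi => ?_).trans ?_
  · have a1 := (mem_Ico.1 hi).1
    by_cases h : 2 * i ≤ j
    · rw [sum_congr rfl fun S hS => by rw [(mem_filter.1 hS).2], sum_const, nsmul_eq_mul]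
      refine (mul_le_mul_of_nonneg_right (card_dg_le _ i fun S hS => ⟨fun P hP => (mem_Pr.1
        (mem_powerset.1 (mem_filter.1 (mem_filter.1 hS).1).1 hP)).1, (mem_filter.1 hS).2⟩)
        (by positivity)).trans ?_
      rw [one_div, inv_pow, ← div_eq_mul_inv, le_div_iff₀ (by positivity), ← pow_add, ← pow_add]
      refine (mul_le_mul_of_nonneg_left (two_pow_le_qq (k := k) _) (by positivity)).trans ?_
      rw [← pow_add, ← Real.sq_sqrt hq.le, ← pow_mul, Real.sqrt_sq (Real.sqrt_nonneg _)]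
      exact pow_le_pow_right₀ (Real.one_le_sqrt.2 one_le_qq) (by omega)
    · refine (sum_eq_zero fun S hS => ?_).trans_le (by positivity)
      simp only [mem_filter] at hS
      omega
  · rw [← mul_sum, sum_Ico_eq_sum_range, mul_comm, mul_assoc]
    simp only [Nat.add_sub_cancel_left]
    exact mul_le_mul_of_nonneg_right (sum_geometric_two_le _) (by positivity)

end Pool.Agent.P.MP_6f5b02_nt.CP
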