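import Pool.Agent.P.MP_6f5b02_nt.CP.If

/-! Step TW. -/

namespace Pool.Agent.P.MP_6f5b02_nt.CP

open Polynomial Finset Filter
open Pool.Agent.P.MP_8be758_nt Pool.Agent.P.MP_8be758_nt.C2 Pool.Agent.P.MP_8be758_nt.L2
open scoped Classical

theorem TW_abs {a b : ℝ} (ha : |a| ≤ 1) (hb : |b| ≤ 1) (i j : ℕ) : |a ^ i * b ^ j| ≤ 1 := by
  rw [abs_mul, abs_pow, abs_pow]
  exact mul_le_one₀ (pow_le_one₀ (abs_nonneg _) ha) (by positivity) (pow_le_one₀ (abs_nonneg _) hb)

theorem TW_psi {K : Type} [Field K] [Finite K] [CharP K 2] (a : K) (i : ℕ) :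
    psi ((i : K) * a) = psi a ^ i := by
  induction i with
  | zero => simp [psi_zero]
  | succ i ih => rw [Nat.cast_succ, add_mul, one_mul, psi_add, ih, pow_succ]

theorem TW_lk {k : Type} [Field k] {P : k[X]} [Fact (Irreducible P)] (U Y W : k[X])
    (hW : ¬ P ∣ W) : lk P Y (U * W ^ 2) = if AdjoinRoot.mk P U = 0 then 0 else
      psi (AdjoinRoot.mk P Y / (AdjoinRoot.mk P U * AdjoinRoot.mk P (W ^ 2))) := by
  have hp : Prime P := (Fact.out : Irreducible P).prime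
  rw [lk, lp_eq, map_mul]
  refine if_congr ?_ rfl rfl
  rw [AdjoinRoot.mk_eq_zero]
  exact ⟨fun h => (hp.dvd_or_dvd h).resolve_right fun h => hW (hp.dvd_of_dvd_pow h),
    fun h => h.mul_right _⟩

theorem TW_per {k : Type} [Field k] [CharP k 2] (Q U c W t : k[X]) :
    lk Q ((derivative (U + Q ^ 2 * t) + c) ^ 3) ((U + Q ^ 2 * t) * W) =
      lk Q ((derivative U + c) ^ 3) (U * W) := by
  refine lk_congr ?_ ⟨Q * t * W, by ring⟩
  rw [derivative_add, derivative_mul, der_sq, zero_mul, zero_add]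
  exact (dvd_mul_of_dvd_left (dvd_pow_self Q two_ne_zero) (derivative t)).trans
    (Dvd.intro ((derivative U + c) ^ 2 * 3 + (derivative U + c) * (Q ^ 2 * derivative t) * 3 +
      (Q ^ 2 * derivative t) ^ 2) (by ring))

theorem c_TW (hDEC : Q_DEC) (hINF : Q_INF) (hLOCM : Q_LOCM) (hTWG : Q_TWG) :
    Q_TW := by
  intro k _ _ _ al v m u0 z y H N i j ha0 hal hy hij hv ⟨V1, s, hV, hV1, _, hsH, hs⟩ hm hmN hu0 hH
  have h2 := two0 (k := k)
  obtain ⟨vm, vd⟩ := mem_Mo.1 hv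
  obtain ⟨um, ud⟩ := mem_Mo.1 hu0
  have hsp : ∀ P ∈ s, IsPr P := fun P hP => (hs P hP).1
  have hV10 : V1 ≠ 0 := fun h => vm.ne_zero (by rw [hV, h, zero_mul])
  have hn1 : ∀ P ∈ s, ¬ P ∣ V1 := fun P hP h => by
    have := natDegree_le_of_dvd h hV10
    have := hs P hP
    omega
  obtain ⟨P, hP, hPm⟩ : ∃ P ∈ s, ¬ P ∣ m := by
    by_contra h
    push Not at h
    have h1 := natDegree_le_of_dvd ((pr_dvd_iff hsp m).2 h) hm.ne_zero
    rw [hV, natDegree_mul hV10 (monic_pr hsp).ne_zero] at vd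
    omega
  obtain ⟨hPp, hP1, hP2⟩ := hs P hP
  obtain ⟨a0, c, e, b1, b2, b3, b4, b5⟩ := hDEC k v V1 s hV10 hV fun P hP => ⟨hsp P hP, hn1 P hP⟩
  have : Fact (Irreducible P) := ⟨hPp.2⟩
  have := finite_adjoinRoot hPp.ne_zero
  have := charP_adjoinRoot (P := P)
  let _ := Fintype.ofFinite (AdjoinRoot P)
  have hPv : AdjoinRoot.mk P v = 0 :=
    AdjoinRoot.mk_eq_zero.2 (hV ▸ (dvd_prod_of_mem _ hP).mul_left _)
  have hvl : v ∈ low k N := (mem_erase.1 (Mo_low (by omega) hv)).2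
  have hmx : ∀ x ∈ low k (6 * y), (m * x).natDegree + (2 * y + 1) ≤ N := fun x hx => by
    have := natDegree_le_of_mem_low hx
    have := natDegree_mul_le (p := m) (q := x)
    omega
  have hux : ∀ x ∈ low k (6 * y), u0 + m * x ∈ Mo k N := fun x hx =>
    add_mem_Mo hu0 (mem_low_of_natDegree_lt (by have := hmx x hx; omega))
  have hU2 : ∀ u ∈ Mo k N, U2 al v u ∈ Mo k (2 * N) := fun u hu =>
    U2_mem hu hvl (by omega) (by omega)
  have hder : ∀ f : k[X], (derivative f).natDegree ≤ f.natDegree := fun f =>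
    (natDegree_derivative_le f).trans (Nat.sub_le _ _)
  have d1 := hINF k u0 (v ^ 2) (derivative u0) (fun x => m * x) (fun x => derivative (m * x))
    (6 * y) (2 * y + 1) (H + 1) um (pow_ne_zero _ vm.ne_zero) (fun _ _ => mul_add _ _ _)
    (fun _ _ => by rw [mul_add, derivative_add])
    (fun x hx => by have := hmx x hx; have := hder (m * x); omega) (hder _) (by omega) (by omega)
  have d2 := hINF k (U2 al v u0) (v ^ 2) (derivative (U2 al v u0)) (fun x => (m * x) ^ 2 + m * x)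
    (fun x => derivative (m * x)) (6 * y) (4 * y + 2) (H + 1) (mem_Mo.1 (hU2 _ hu0)).1
    (pow_ne_zero _ vm.ne_zero) (fun x t => by linear_combination (m * x * m * t) * h2)
    (fun _ _ => by rw [mul_add, derivative_add])
    (fun x hx => by
      have := hmx x hx
      have := hder (m * x)
      have h3 := natDegree_add_le ((m * x) ^ 2) (m * x)
      rw [natDegree_pow] at h3
      rw [(mem_Mo.1 (hU2 _ hu0)).2]
      omega) (hder _) (by omega) (by rw [(mem_Mo.1 (hU2 _ hu0)).2]; nlinarith)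
  refine hTWG k (AdjoinRoot P) (AdjoinRoot.mk P) P m V1 (s.erase P) y H (AdjoinRoot.mk P u0)
    (AdjoinRoot.mk P (derivative u0))
    (fun x => (e N * a0 (u0 + m * x)) ^ i * (e (2 * N) * a0 (U2 al v (u0 + m * x))) ^ j) _
    (fun Q x => lk Q ((derivative (u0 + m * x) + c Q) ^ 3) ((u0 + m * x) * derivative v ^ 2) ^ i *
      lk Q ((derivative (U2 al v (u0 + m * x)) + c Q) ^ 3)
        (U2 al v (u0 + m * x) * derivative v ^ 2) ^ j) _ _
    hPp AdjoinRoot.mk_surjective (fun _ => AdjoinRoot.mk_eq_zero) hPm (hn1 P hP) hV1 hP2 ?_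
    ((card_erase_le).trans hsH) (fun Q hQ => ⟨fun h => ?_, (hs Q (mem_of_mem_erase hQ)).2.2,
      fun x => TW_abs (abs_lk_le _ _ _) (abs_lk_le _ _ _) _ _, fun x t => ?_⟩)
    (fun x => TW_abs ?_ ?_ _ _) (fun x t => ?_)
    ((d1.map ((i : k) * ·) (mul_add _)).add (d2.map ((j : k) * ·) (mul_add _)))
    (hLOCM (AdjoinRoot P) (AdjoinRoot.mk P (derivative v ^ 2)) (AdjoinRoot.mk P (c P))
      (AdjoinRoot.mk P (c P + derivative al)) (AdjoinRoot.mk P al) i j
      (fun h => b4 P hP (hPp.prime.dvd_of_dvd_pow (AdjoinRoot.mk_eq_zero.1 h)))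
      (fun h => by have := natDegree_le_of_dvd (AdjoinRoot.mk_eq_zero.1 h) ha0; omega) hij)
    fun x hx => ?_
  · rw [← Nat.card_eq_fintype_card, card_adjoinRoot hPp.ne_zero, Nat.cast_pow]
    exact qq_pow_mono hP1.le
  · exact ne_of_mem_erase hQ (hPp.eq_of_dvd (hsp Q (mem_of_mem_erase hQ)) h).symm
  · beta_reduce
    rw [show u0 + m * (x + Q ^ 2 * t) = u0 + m * x + Q ^ 2 * (m * t) by ring, U2_add,
      show (Q ^ 2 * (m * t)) ^ 2 + Q ^ 2 * (m * t) = Q ^ 2 * (Q ^ 2 * (m * t) ^ 2 + m * t) by ring,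
      TW_per, TW_per]
  · rw [abs_mul]; exact mul_le_one₀ (b3 _) (abs_nonneg _) (b1 _)
  · rw [abs_mul]; exact mul_le_one₀ (b3 _) (abs_nonneg _) (b1 _)
  · beta_reduce
    rw [show u0 + m * (x + V1 ^ 2 * t) = u0 + m * x + V1 ^ 2 * (m * t) by ring, U2_add,
      show (V1 ^ 2 * (m * t)) ^ 2 + V1 ^ 2 * (m * t) =
        V1 ^ 2 * (V1 ^ 2 * (m * t) ^ 2 + m * t) by ring, b2, b2]
  · obtain ⟨g1, g2⟩ := mem_Mo.1 (hux x hx)
    obtain ⟨g3, g4⟩ := mem_Mo.1 (hU2 _ (hux x hx))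
    have e1 : AdjoinRoot.mk P (U2 al v (u0 + m * x)) =
        (AdjoinRoot.mk P u0 + AdjoinRoot.mk P (m * x)) ^ 2 +
          (AdjoinRoot.mk P u0 + AdjoinRoot.mk P (m * x)) + AdjoinRoot.mk P al := by
      simp only [U2, map_add, map_pow, map_mul (AdjoinRoot.mk P) X, hPv]
      ring
    have e2 : AdjoinRoot.mk P ((derivative (U2 al v (u0 + m * x)) + c P) ^ 3) =
        (AdjoinRoot.mk P (derivative u0) + AdjoinRoot.mk P (derivative (m * x)) +
          AdjoinRoot.mk P (c P + derivative al)) ^ 3 := by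
      simp only [der_U2, map_add, map_pow, hPv]
      ring
    have e3 : derivative (U2 al v (u0 + m * x)) = derivative (U2 al v u0) + derivative (m * x) := by
      rw [der_U2, der_U2, derivative_add]; ring
    beta_reduce
    rw [FQ_gg, b5 _ g1 (by omega), b5 _ g3 (by omega), g2, g4, ← mul_prod_erase s _ hP,
      ← mul_prod_erase s _ hP, TW_lk _ _ _ (b4 P hP), TW_lk _ _ _ (b4 P hP), e1, e2, psi_add,
      TW_psi, TW_psi, prod_mul_distrib, prod_pow, prod_pow, ← U2_add, ← e3, ← derivative_add,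
      map_pow, map_add, map_add, map_add, map_add]
    simp only [mul_pow]
    ring

end Pool.Agent.P.MP_6f5b02_nt.CP
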