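import Pool.Agent.P.MP_6f5b02_nt.CP.If

/-! Step TWG. -/

namespace Pool.Agent.P.MP_6f5b02_nt.CP

open Polynomial Finset Filter
open Pool.Agent.P.MP_8be758_nt Pool.Agent.P.MP_8be758_nt.C2 Pool.Agent.P.MP_8be758_nt.L2
open scoped Classical

theorem c_TWG (hGOW : Q_GOW) (hNGB : Q_NGB) :
    Q_TWG := by
  intro k K _ _ _ _ _ _ φ P m V1 s y H x0 y0 A0 Φ a p f hP hs hk hm hV hVy hPy hq hsH ha h1 h2 hp
    hf hΦ
  obtain ⟨n, hn⟩ : ∃ n, H + 3 = s.card + n + 1 := ⟨H + 2 - s.card, by omega⟩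
  set l : List (k[X] × (k[X] → ℝ)) := (V1 ^ 2, A0) :: (s.toList.map (fun Q => (Q ^ 2, a Q)) ++
    List.replicate n (1, fun _ => 1)) with hl
  have hlen : l.length = H + 3 := by simp [hl, hn]
  have hmem : ∀ r ∈ l, (¬ P ∣ r.1 ∧ r.1.natDegree + 2 * y ≤ 6 * y) ∧ (∀ x, |r.2 x| ≤ 1) ∧
      ∀ x t, r.2 (x + r.1 * t) = r.2 x := fun r hr => by
    simp only [hl, List.mem_cons, List.mem_append, List.mem_map, mem_toList,
      List.mem_replicate] at hr
    rcases hr with rfl | ⟨Q, hQ, rfl⟩ | ⟨-, rfl⟩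
    · exact ⟨⟨fun h => hV (hP.prime.dvd_of_dvd_pow h), by rw [natDegree_pow]; omega⟩, h1, h2⟩
    · obtain ⟨b1, b2, b3, b4⟩ := ha Q hQ
      exact ⟨⟨fun h => b1 (hP.prime.dvd_of_dvd_pow h), by rw [natDegree_pow]; omega⟩, b3, b4⟩
    · exact ⟨⟨hP.prime.not_dvd_one, by simp; omega⟩, by simp, fun _ _ => rfl⟩
  have g := hGOW k (6 * y) (2 * y) l
    (fun x => psi (p x) * f (x0 + φ (m * x)) (y0 + φ (derivative (m * x))))
    fun r hr => ⟨(hmem r hr).1.2, (hmem r hr).2⟩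
  have b := hNGB k K φ P m (6 * y) (2 * y) x0 y0 hP hs hk hm hPy (by omega) (l.map Prod.fst) 3 p f _
    (fun r hr => by obtain ⟨r, hr', rfl⟩ := List.mem_map.1 hr; exact (hmem r hr').1)
    (by rwa [List.length_map, hlen]) hf fun _ _ => rfl
  rw [List.length_map, hlen] at b
  rw [hlen] at g
  have e : ∀ x, A0 x * ∏ Q ∈ s, a Q x = (l.map fun r => r.2 x).prod := fun x => by
    simp [hl, Function.comp_def]
  rw [sum_congr rfl fun x hx => (hΦ x hx).trans (by rw [e])]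
  refine (g.trans b).trans (add_le_add ?_ ?_)
  · have := qq_pos (k := k)
    refine div_le_div_of_nonneg_left (by norm_num) (by positivity) ?_
    rw [← Real.sqrt_sq (x := √(qq k) ^ y) (by positivity), ← pow_mul, mul_comm, pow_mul,
      Real.sq_sqrt this.le]
    exact Real.sqrt_le_sqrt hq
  · rw [show (3 : ℝ) * (((3 : ℕ) : ℝ) * 2 ^ (H + 3)) ^ 2 = 27 * 4 ^ (H + 3) by
      rw [mul_pow, ← pow_mul, mul_comm (H + 3), pow_mul]; norm_num; ring]
    exact div_le_div_of_nonneg_left (by positivity) (pow_pos qq_pos _) hq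

end Pool.Agent.P.MP_6f5b02_nt.CP
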