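import Pool.Agent.P.MP_6f5b02_nt.CP.If

/-! Step TWS. -/

namespace Pool.Agent.P.MP_6f5b02_nt.CP

open Polynomial Finset Filter
open Pool.Agent.P.MP_8be758_nt Pool.Agent.P.MP_8be758_nt.C2 Pool.Agent.P.MP_8be758_nt.L2
open scoped Classical

theorem c_TWS (hTW : Q_TW) :
    Q_TWS := by
  intro k _ _ _ al z H ha hH
  set e := 2 ^ (H + 3) with he
  have he1 : 1 ≤ e := Nat.one_le_two_pow
  obtain ⟨n1, h1⟩ := NEG 0 (4 * H) (3 ^ e * (2 + 27 * 4 ^ (H + 3))) 1 (by omega) one_pos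
  refine ⟨4 * H * e, n1 + H * (al.natDegree + H + 1), Nat.mul_pos (by omega) he1,
    fun N hN v hv m U σ hm hmN hU hinv hσ => ?_⟩
  obtain ⟨v1, v2⟩ := mem_Vs.1 hv
  set y := N / H with hy
  have hy1 : al.natDegree + H + 1 ≤ y := (Nat.le_div_iff_mul_le hH).2 (by nlinarith)
  have hN1 : N < H * (y + 1) := Nat.lt_mul_div_succ N hH
  have hq := qq_pos (k := k)
  set t := N / (4 * H * e) with ht
  have hb : 2 / √(qq k) ^ y + 27 * 4 ^ (H + 3) / qq k ^ y ≤ (1 / (3 * 2 ^ t)) ^ e := by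
    have a1 : (2 : ℝ) ^ (y / 2) ≤ √(qq k) ^ y := by
      refine (two_pow_le_qq (k := k) _).trans ?_
      rw [← Real.sq_sqrt hq.le, ← pow_mul, Real.sqrt_sq (by positivity)]
      exact pow_le_pow_right₀ (Real.one_le_sqrt.2 one_le_qq) (Nat.mul_div_le _ _)
    have a2 : (2 : ℝ) ^ (y / 2) ≤ qq k ^ y :=
      (two_pow_le_qq _).trans (qq_pow_mono (Nat.div_le_self _ _))
    have a3 := h1 N (by omega)
    have a4 : t * e ≤ N / (4 * H) := by
      rw [ht, ← Nat.div_div_eq_div_mul]; exact Nat.div_mul_le_self _ _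
    have a5 : N / (4 * H) = y / 4 := by rw [hy, Nat.div_div_eq_div_mul, mul_comm]
    have a6 : (2 : ℝ) ^ (N / (4 * H)) * 2 ^ (t * e) ≤ 2 ^ (y / 2) := by
      rw [← pow_add]; exact pow_le_pow_right₀ one_le_two (by omega)
    calc _ ≤ 2 / 2 ^ (y / 2) + 27 * 4 ^ (H + 3) / (2 : ℝ) ^ (y / 2) := by gcongr
      _ ≤ _ := by
        rw [← add_div, div_pow, one_pow, mul_pow, ← pow_mul,
          div_le_div_iff₀ (by positivity) (by positivity)]
        simp only [pow_zero, mul_one, one_mul] at a3 ⊢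
        nlinarith [mul_le_mul_of_nonneg_right a3 (show (0 : ℝ) ≤ 2 ^ (t * e) by positivity)]
  have key : ∀ i j, Md i j → |∑ u ∈ U, mu (gg u v) ^ i * mu (FQ al (gg u v)) ^ j| ≤
      U.card * (1 / (3 * 2 ^ t)) := fun i j hij => by
    have a1 := sum_avg U (low k (6 * y)) (fun x => m * x) (fun x hx u hu => hinv u hu x hx)
      fun u => mu (gg u v) ^ i * mu (FQ al (gg u v)) ^ j
    rw [card_low'] at a1
    refine le_of_mul_le_mul_left ?_ (pow_pos hq (6 * y))
    rw [← abs_of_pos (pow_pos hq (6 * y)), ← abs_mul, a1, abs_of_pos (pow_pos hq (6 * y)),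
      mul_left_comm, ← nsmul_eq_mul]
    refine (abs_sum_le_sum_abs _ _).trans (sum_le_card_nsmul _ _ _ fun u hu => ?_)
    rw [← div_le_iff₀' (pow_pos hq _)]
    exact le_of_pow_le_pow_left₀ (by omega) (by positivity)
      ((hTW k al v m u z y H N i j ha (by omega) (by omega) hij v1 v2 hm hmN (hU hu)
        (by nlinarith)).trans hb)
  have k1 := key 1 0 (Or.inl ⟨rfl, rfl⟩)
  have k2 := key 0 1 (Or.inr (Or.inl ⟨rfl, rfl⟩))
  have k3 := key 1 1 (Or.inr (Or.inr ⟨rfl, rfl⟩))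
  simp only [pow_one, pow_zero, mul_one, one_mul] at k1 k2 k3
  simp only [osc, sum_sub_distrib, ← mul_sum]
  refine ((abs_sub _ _).trans (add_le_add (abs_sub _ _) le_rfl)).trans ?_
  rw [abs_mul, abs_mul]
  have b1 := (mul_le_of_le_one_left (abs_nonneg _) hσ).trans k2
  have b2 := (mul_le_of_le_one_left (abs_nonneg _) hσ).trans k3
  have : (U.card : ℝ) / 2 ^ t = 3 * (U.card * (1 / (3 * 2 ^ t))) := by field_simp
  linarith

end Pool.Agent.P.MP_6f5b02_nt.CP
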