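import Pool.Agent.P.MP_6f5b02_nt.CP.If

/-! Step UP. -/

namespace Pool.Agent.P.MP_6f5b02_nt.CP

open Polynomial Finset Filter
open Pool.Agent.P.MP_8be758_nt Pool.Agent.P.MP_8be758_nt.C2 Pool.Agent.P.MP_8be758_nt.L2
open scoped Classical

theorem c_UP (hFL : Q_FL) (hUP1 : Q_UP1) (hVC : Q_VC) (hLEV : Q_LEV) :
    Q_UP := by
  obtain ⟨C1, hC1, hFL⟩ := hFL
  obtain ⟨C, hC, hVC⟩ := hVC (14 * C1) (by omega)
  refine ⟨3 / 2 * C, 14 * C1, by positivity,
    fun k _ _ _ al z y N a W φ B hz h0 h1 h2 h3 hW hB hφ => ?_⟩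
  have hq := qq_pos (k := k)
  have hs : 1 ≤ √(qq k) := Real.one_le_sqrt.2 one_le_qq
  have hss : ∀ n, qq k ^ n = √(qq k) ^ (2 * n) := fun n => by rw [pow_mul, Real.sq_sqrt hq.le]
  obtain ⟨la, De, hSv⟩ := hFL k 1 (a / (14 * C1)) _ le_rfl
    ((Nat.le_div_iff_mul_le (by omega)).2 (by omega)) subset_rfl
  have hL : 14 * (C1 * 1 * (a / (14 * C1))) ≤ a := by
    rw [mul_one, ← mul_assoc]; exact Nat.mul_div_le _ _
  generalize C1 * 1 * (a / (14 * C1)) = Lv at hSv hL
  have hT : ∀ S ∈ Tp k y (2 * N) a, (∀ P ∈ S, IsPr P) ∧ dg S = 2 * N - a := fun S hS =>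
    ⟨fun P hP => (mem_Rg.1 ((mem_Tp.1 hS).1 hP)).1, by have := (mem_Tp.1 hS).2; omega⟩
  have hR : ∑ S ∈ Tp k y (2 * N) a, ∑ E ∈ (Sle k Lv).filter (fun E => Disjoint S E),
      ∑ ρ ∈ low k (dg E), |rm N W E ρ S| ≤ N * qq k ^ (2 * N + 2) / 2 ^ (y / 4) := by
    rw [sum_comm' (t' := Sle k Lv) (s' := fun E => (Tp k y (2 * N) a).filter (Disjoint · E))
      fun S E => by simp only [mem_filter]; tauto]
    refine (sum_le_card_nsmul _ _ (N * √(qq k) ^ (4 * N + 2 + 5 * Lv - a)) fun E hE => ?_).trans ?_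
    · obtain ⟨e1, e2⟩ := mem_Sle.1 hE
      rw [sum_comm]
      refine (sum_le_card_nsmul _ _ _ fun ρ _ => hLEV k N (2 * N - a) W E ρ _ hW e1 (fun S hS =>
        ⟨(hT S (mem_filter.1 hS).1).1, (hT S (mem_filter.1 hS).1).2, (mem_filter.1 hS).2⟩)
        (by omega)).trans ?_
      rw [nsmul_eq_mul, card_low', hss, hss, mul_assoc, mul_left_comm, ← pow_add, ← pow_add]
      exact mul_le_mul_of_nonneg_left (pow_le_pow_right₀ hs (by omega)) (Nat.cast_nonneg N)
    · rw [nsmul_eq_mul, le_div_iff₀ (by positivity)]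
      refine (mul_le_mul (mul_le_mul_of_nonneg_right (card_Sle_le Lv) (by positivity))
        (two_pow_le_qq (k := k) _) (by positivity) (by positivity)).trans ?_
      rw [hss, hss, hss (2 * N + 2), mul_left_comm, mul_assoc, ← pow_add, ← pow_add]
      exact mul_le_mul_of_nonneg_left (pow_le_pow_right₀ hs (by omega)) (Nat.cast_nonneg N)
  calc _ ≤ ∑ S ∈ Tp k y (2 * N) a, (φ S * (3 / 2 * (qq k ^ N * W.card * ww S) *
        (C * VV al z y * y / a)) + B * ∑ E ∈ (Sle k Lv).filter (fun E => Disjoint S E),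
          ∑ ρ ∈ low k (dg E), |rm N W E ρ S|) := by
        refine sum_le_sum fun S hS => ?_
        have h4 := hVC k al z y a S hz h0 h1 (mem_Tp.1 hS).1
          ((card_le_dg (hT S hS).1).trans (by have := (hT S hS).2; omega))
        have h5 := hUP1 k al z y N a _ Lv W S la De hz
          (Nat.div_lt_self (by omega) (by omega)) hSv (hT S hS).1
        have h6 := ww_pos S
        refine (mul_le_mul_of_nonneg_left h5 (hφ S hS).1).trans ?_
        rw [mul_add]
        exact add_le_add (mul_le_mul_of_nonneg_left (mul_le_mul_of_nonneg_left h4 (by positivity))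
          (hφ S hS).1) (mul_le_mul_of_nonneg_right (hφ S hS).2
            (sum_nonneg fun _ _ => sum_nonneg fun _ _ => abs_nonneg _))
    _ ≤ _ := by
        rw [sum_add_distrib, sum_div, mul_sum, ← mul_sum _ _ B]
        refine add_le_add (le_of_eq (sum_congr rfl fun S _ => ?_))
          ((mul_le_mul_of_nonneg_left hR hB).trans_eq ?_) <;> ring

end Pool.Agent.P.MP_6f5b02_nt.CP
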