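import Pool.Agent.P.MP_6f5b02_nt.CP.If

/-! Step UP1. -/

namespace Pool.Agent.P.MP_6f5b02_nt.CP

open Polynomial Finset Filter
open Pool.Agent.P.MP_8be758_nt Pool.Agent.P.MP_8be758_nt.C2 Pool.Agent.P.MP_8be758_nt.L2
open scoped Classical

theorem UP1_cnt (hRES : Q_RES) {k : Type} [Field k] [Finite k] (al : k[X]) (z y N : ℕ)
    (W S E : Finset k[X]) (hE : ∀ P ∈ E, IsPr P) :
    |(((Mo k N ×ˢ W).filter (fun p => pr S ∣ gg p.1 p.2 ∧
        ∀ P ∈ E, Bp al z y P (gg p.1 p.2))).card : ℝ) -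
      qq k ^ N * W.card * ww S * ∏ P ∈ E, hp al z y P| ≤ ∑ ρ ∈ low k (dg E), |rm N W E ρ S| := by
  have hq := qq_pos (k := k)
  have h0 := (monic_pr hE).ne_zero
  have h1 := hRES k E (Bp al z y) hE fun P _ x t => Bp_add al z y P x t
  have hB : ∀ {g ρ : k[X]}, pr E ∣ g - ρ →
      ((∀ P ∈ E, Bp al z y P g) ↔ ∀ P ∈ E, Bp al z y P ρ) := fun h =>
    forall₂_congr fun P hP => Bp_congr al z y ((pr_dvd_iff hE _).1 h P hP)
  refine le_trans (le_of_eq ?_) ((abs_sum_le_sum_abs _ _).trans (sum_le_sum_of_subset_of_nonneg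
    (filter_subset (fun ρ => ∀ P ∈ E, Bp al z y P ρ) _) fun _ _ _ => abs_nonneg _))
  congr 1
  simp only [rm]
  rw [sum_sub_distrib, sum_const, nsmul_eq_mul, h1, card_eq_sum_card_fiberwise
    (f := fun p : k[X] × k[X] => gg p.1 p.2 % pr E)
    (t := (low k (dg E)).filter fun ρ => ∀ P ∈ E, Bp al z y P ρ) fun p hp => mem_coe.2
      (mem_filter.2 ⟨natDegree_pr hE ▸ mod_mem_low h0 _,
        (hB (ROOT_mod _ _)).1 (mem_filter.1 (mem_coe.1 hp)).2.2⟩), Nat.cast_sum]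
  congr 1
  · refine sum_congr rfl fun ρ hρ => ?_
    obtain ⟨r1, r2⟩ := mem_filter.1 hρ
    rw [filter_filter]
    congr 2
    refine filter_congr fun p _ => ⟨fun h => ⟨h.1.1, h.2 ▸ ROOT_mod _ _⟩,
      fun h => ⟨⟨h.1, (hB h.2).2 r2⟩, sub_eq_zero.1 (eq_zero_of_mem_low (L := dg E)
        (sub_mem_low (natDegree_pr hE ▸ mod_mem_low h0 _) r1) ?_ (natDegree_pr hE).ge)⟩⟩
    have := dvd_sub h.2 (ROOT_mod (pr E) (gg p.1 p.2))
    rwa [sub_sub_sub_cancel_left] at this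
  · simp only [hp, ww, dg]
    rw [prod_div_distrib, prod_pow_eq_pow_sum, pow_add]
    push_cast
    field_simp

theorem c_UP1 (hRES : Q_RES) (hHP : Q_HP) :
    Q_UP1 := by
  intro k _ _ al z y N a n Lv W S la De hz ha ⟨s1, s2, s3, s4⟩ hS
  have hq := qq_pos (k := k)
  have hw := ww_pos S
  obtain ⟨hH, hH2⟩ := hHP k al z y hz
  set g : k[X] × k[X] → k[X] → ℝ := fun p P =>
    if P ∉ S ∧ Bp al z y P (gg p.1 p.2) then 1 else 0 with hg
  set h : k[X] → ℝ := fun P => if P ∈ S then 0 else hp al z y P with hh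
  have g0 : ∀ p P, 0 ≤ g p P ∧ g p P ≤ 1 := fun p P => by
    simp only [hg]; split_ifs <;> norm_num
  have h0 : ∀ P, 0 ≤ h P ∧ h P ≤ hp al z y P := fun P => by
    have := hp_nonneg al z y P
    simp only [hh]; split_ifs <;> simp [this]
  have h1 : ∀ P ∈ Pr k n, 0 ≤ h P ∧ h P ≤ 1 / 2 := fun P hP =>
    ⟨(h0 P).1, (h0 P).2.trans (hH P (mem_Pr.1 hP).1).2.2.2⟩
  have h2 := (s3 h fun P hP => ⟨(h1 P hP).1, (h1 P hP).2.trans (by norm_num)⟩).2
  have h3 := s4 h h1 fun b hb => (sum_le_sum fun P _ => (h0 P).2).trans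
    (hH2 _ b (fun P hP => (mem_Pr.1 hP).1) hb)
  have h4 : ∏ P ∈ Pr k n, (1 - h P) = ∏ P ∈ Pr k n \ S, (1 - hp al z y P) := by
    rw [sdiff_eq_filter, prod_filter]
    exact prod_congr rfl fun P _ => by simp only [hh]; split_ifs <;> simp
  set A := (Mo k N ×ˢ W).filter (fun p => pr S ∣ gg p.1 p.2) with hA
  have h5 : cn al z y N a W S ≤ ∑ p ∈ A, ∏ P ∈ Pr k n, (1 - g p P) := by
    rw [cn, card_eq_sum_ones, Nat.cast_sum]
    refine le_trans (sum_le_sum fun p hp => ?_) (sum_le_sum_of_subset_of_nonneg (fun p hp => ?_)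
      fun p _ _ => prod_nonneg fun P _ => sub_nonneg.2 (g0 p P).2)
    · obtain ⟨-, r, Q, hQ, e⟩ := mem_filter.1 hp
      obtain ⟨q1, q2⟩ := mem_Pd.1 hQ
      rw [Nat.cast_one, prod_eq_one fun P hP => ?_]
      obtain ⟨p1, p2⟩ := mem_Pr.1 hP
      simp only [hg]
      rw [if_neg, sub_zero]
      rintro ⟨b1, b2 | b2⟩
      · rw [e] at b2
        rcases p1.prime.dvd_or_dvd b2 with b3 | b3
        · exact b1 ((dvd_pr_iff hS p1).1 b3)
        · rw [p1.eq_of_dvd q1 b3] at p2; omega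
      · exact r P (mem_Pr.2 ⟨p1, b2.2.1⟩) (Or.inr b2)
    · obtain ⟨p1, -, Q, -, e⟩ := mem_filter.1 hp
      exact mem_filter.2 ⟨p1, Q, e⟩
  have h6 : ∀ E ∈ (Pr k n).powerset, la E * ∑ p ∈ A, ∏ P ∈ E, g p P ≤
      qq k ^ N * W.card * ww S * (la E * ∏ P ∈ E, h P) +
      if la E ≠ 0 ∧ Disjoint S E then ∑ ρ ∈ low k (dg E), |rm N W E ρ S| else 0 := fun E hE => by
    by_cases hd : Disjoint S E
    · have e1 : ∏ P ∈ E, h P = ∏ P ∈ E, hp al z y P :=
        prod_congr rfl fun P hP => if_neg (disjoint_right.1 hd hP)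
      have e2 : ∑ p ∈ A, ∏ P ∈ E, g p P = (((Mo k N ×ˢ W).filter (fun p => pr S ∣ gg p.1 p.2 ∧
          ∀ P ∈ E, Bp al z y P (gg p.1 p.2))).card : ℝ) := by
        rw [← filter_filter, card_filter, Nat.cast_sum]
        refine sum_congr rfl fun p _ => ?_
        simp only [hg]
        rw [prod_boole]
        push_cast
        exact if_congr (forall₂_congr fun P hP => and_iff_right (disjoint_right.1 hd hP)) rfl rfl
      have h7 := UP1_cnt hRES al z y N W S E fun P hP => (mem_Pr.1 (mem_powerset.1 hE hP)).1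
      rw [e1, e2]
      by_cases hl : la E = 0
      · simp [hl]
      · rw [if_pos ⟨hl, hd⟩, mul_left_comm, ← sub_le_iff_le_add', ← mul_sub]
        refine (le_abs_self _).trans ?_
        rw [abs_mul]
        exact (mul_le_of_le_one_left (abs_nonneg _) (s1 E)).trans h7
    · obtain ⟨P, p1, p2⟩ := not_disjoint_iff.1 hd
      rw [if_neg fun b => hd b.2, prod_eq_zero p2 (show h P = 0 from if_pos p1),
        sum_eq_zero fun p _ => prod_eq_zero p2 (show g p P = 0 from if_neg fun b => b.1 p1)]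
      simp
  refine h5.trans ((sum_le_sum fun p _ => (s3 (g p) fun P _ => g0 p P).1).trans ?_)
  rw [sum_comm, sum_congr rfl fun E _ => (mul_sum _ _ (la E)).symm]
  refine (sum_le_sum h6).trans ?_
  rw [sum_add_distrib, ← mul_sum, ← sum_filter, ← h4]
  refine add_le_add ((mul_le_mul_of_nonneg_left (h2.trans (add_le_add le_rfl h3))
    (by positivity)).trans_eq (by ring)) (sum_le_sum_of_subset_of_nonneg (fun E hE => ?_)
      fun _ _ _ => sum_nonneg fun _ _ => abs_nonneg _)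
  obtain ⟨e1, e2, e3⟩ := mem_filter.1 hE
  exact mem_filter.2 ⟨mem_Sle.2 ⟨fun P hP => (mem_Pr.1 (mem_powerset.1 e1 hP)).1,
    s2 E e1 (Or.inl e2)⟩, e3⟩

end Pool.Agent.P.MP_6f5b02_nt.CP
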