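import Pool.Agent.P.MP_6f5b02_nt.CP.If

/-! Step VC. -/

namespace Pool.Agent.P.MP_6f5b02_nt.CP

open Polynomial Finset Filter
open Pool.Agent.P.MP_8be758_nt Pool.Agent.P.MP_8be758_nt.C2 Pool.Agent.P.MP_8be758_nt.L2
open scoped Classical

theorem VC_geo (y n : ℕ) : ∑ b ∈ Ioc y n, (3 / 4 : ℝ) ^ b ≤ 4 :=
  (sum_le_hasSum _ (fun _ _ => by positivity)
    (hasSum_geometric_of_lt_one (by norm_num) (by norm_num))).trans_eq (by norm_num)

theorem VC_split {k : Type} [Field k] [Finite k] (f : k[X] → ℝ) {y n : ℕ} (h : y ≤ n) :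
    ∏ P ∈ Pr k n, f P = (∏ P ∈ Pr k y, f P) * ∏ P ∈ Rg k y n, f P := by
  rw [← prod_union (disjoint_left.2 fun P h1 h2 => by
    have := (mem_Pr.1 h1).2; have := (mem_Rg.1 h2).2.1; omega)]
  congr 1
  ext P
  rw [mem_union, mem_Pr, mem_Pr, mem_Rg]
  exact ⟨fun h1 => (le_or_gt P.natDegree y).imp (⟨h1.1, ·⟩) (⟨h1.1, ·, h1.2⟩),
    fun h1 => h1.elim (fun h2 => ⟨h2.1, h2.2.trans h⟩) fun h2 => ⟨h2.1, h2.2.2⟩⟩

theorem VC_low (hGAU : Q_GAU) {k : Type} [Field k] [Finite k] {y n : ℕ} (h : y ≤ n) :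
    Real.log (((n : ℝ) + 1) / (y + 1)) - 8 ≤ ∑ P ∈ Rg k y n, 1 / qq k ^ P.natDegree := by
  have hq := qq_pos (k := k)
  rw [sum_Rg y n fun b => 1 / qq k ^ b]
  refine le_trans (by linarith [le_harm h, VC_geo y n] : _ ≤ ∑ b ∈ Ioc y n, (1 : ℝ) / b -
    2 * ∑ b ∈ Ioc y n, (3 / 4 : ℝ) ^ b) ?_
  rw [mul_sum, ← sum_sub_distrib]
  refine sum_le_sum fun b hb => ?_
  have h1 : 1 ≤ b := by have := (mem_Ioc.1 hb).1; omega
  have h2 : (1 : ℝ) ≤ b := by exact_mod_cast h1
  have h3 : 1 ≤ 3 / 4 * √(qq k) := by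
    have := Real.le_sqrt_of_sq_le (show (4 / 3 : ℝ) ^ 2 ≤ qq k by linarith [two_le_qq (k := k)])
    linarith
  have h4 := one_le_pow₀ (n := b) h3
  have h5 : qq k ^ b = √(qq k) ^ b * √(qq k) ^ b := by rw [← mul_pow, Real.mul_self_sqrt hq.le]
  have h6 := hGAU k b h1
  have h7 : 0 < √(qq k) ^ b := by positivity
  rw [mul_pow] at h4
  rw [mul_one_div, sub_le_iff_le_add, div_add' _ _ _ (by positivity),
    div_le_div_iff₀ (by positivity) (by positivity)]
  have h8 : √(qq k) ^ b ≤ (3 / 4) ^ b * qq k ^ b * b := by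
    rw [h5, ← mul_assoc]
    exact (le_mul_of_one_le_left h7.le h4).trans (le_mul_of_one_le_right (by positivity) h2)
  nlinarith

theorem c_VC (hGAU : Q_GAU) (hHP : Q_HP) :
    Q_VC := by
  intro C2 hC
  have hC' : (1 : ℝ) ≤ C2 := by exact_mod_cast hC
  refine ⟨2 * C2 * Real.exp 9 + (2 * C2) ^ 6 * C2, by positivity,
    fun k _ _ al z y a S hz h0 h1 hS hc => ?_⟩
  have hq := qq_pos (k := k)
  have hH := (hHP k al z y hz).1
  have hV := VV_nonneg al z y
  have h2 : a < C2 * (a / C2 + 1) := Nat.lt_mul_div_succ a hC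
  have h3 : 1 ≤ a / C2 := (Nat.le_div_iff_mul_le hC).2 (by omega)
  generalize a / C2 = n at h2 h3
  have ha : (0 : ℝ) < a := by exact_mod_cast (by omega : 0 < a)
  have hy : (1 : ℝ) ≤ y := by exact_mod_cast hC.trans h0
  have hn : (1 : ℝ) ≤ n := by exact_mod_cast h3
  have h2' : (a : ℝ) ≤ C2 * (n + 1) := by exact_mod_cast h2.le
  rw [le_div_iff₀ ha, add_mul, add_mul]
  rcases le_or_gt y n with h | h
  · refine le_trans ?_ (le_add_of_nonneg_right (by positivity))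
    have e : Pr k n \ S = Pr k y ∪ Rg k y n \ S := by
      ext P
      rw [mem_union, Finset.mem_sdiff, Finset.mem_sdiff, mem_Pr, mem_Pr, mem_Rg]
      exact ⟨fun h1 => (le_or_gt P.natDegree y).imp (⟨h1.1.1, ·⟩) (⟨⟨h1.1.1, ·, h1.1.2⟩, h1.2⟩),
        fun h1 => h1.elim (fun h2 => ⟨⟨h2.1, h2.2.trans h⟩, fun h3 =>
          (mem_Rg.1 (hS h3)).2.1.not_ge h2.2⟩) fun h2 => ⟨⟨h2.1.1, h2.1.2.2⟩, h2.2⟩⟩
    rw [e, prod_union (disjoint_left.2 fun P h1 h2 =>
      (mem_Rg.1 (Finset.mem_sdiff.1 h2).1).2.1.not_ge (mem_Pr.1 h1).2)]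
    have h4 : ∑ P ∈ Rg k y n, 1 / qq k ^ P.natDegree ≤
        ∑ P ∈ Rg k y n \ S, hp al z y P + 1 := by
      rw [← sum_sdiff (inter_subset_left (s₂ := S)), sdiff_inter_self_left]
      refine add_le_add (sum_le_sum fun P hP => (hH P (mem_Rg.1 (Finset.mem_sdiff.1 hP).1).1).1)
        ((sum_le_card_nsmul _ _ (1 / 2 ^ y) fun P hP => one_div_le_one_div_of_le (by positivity)
          ((two_pow_le_qq y).trans (qq_pow_mono (mem_Rg.1 (mem_inter.1 hP).1).2.1.le))).trans ?_)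
      rw [nsmul_eq_mul, mul_one_div, div_le_one (by positivity)]
      exact_mod_cast (card_le_card inter_subset_right).trans hc
    have h5 : ∏ P ∈ Rg k y n \ S, (1 - hp al z y P) ≤ Real.exp 9 * ((y + 1) / (n + 1)) := by
      refine (Finset.prod_le_prod (fun P _ => sub_nonneg.2 (hp_le_one al z y P))
        fun P _ => Real.one_sub_le_exp_neg _).trans ?_
      rw [← Real.exp_sum, sum_neg_distrib, ← Real.exp_log (show (0 : ℝ) < (y + 1) / (n + 1) by
        positivity), ← Real.exp_add, Real.exp_le_exp, ← inv_div, Real.log_inv]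
      linarith [VC_low hGAU (k := k) h]
    calc _ ≤ VV al z y * (Real.exp 9 * ((y + 1) / (n + 1))) * (C2 * (n + 1)) :=
          mul_le_mul (mul_le_mul_of_nonneg_left h5 hV) h2' ha.le (by positivity)
      _ = C2 * Real.exp 9 * VV al z y * (y + 1) := by field_simp
      _ ≤ C2 * Real.exp 9 * VV al z y * (2 * y) := by gcongr; linarith
      _ = _ := by ring
  · refine le_trans ?_ (le_add_of_nonneg_left (by positivity))
    rw [sdiff_eq_self_of_disjoint (disjoint_left.2 fun P h1 h2 => by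
      have := (mem_Pr.1 h1).2; have := (mem_Rg.1 (hS h2)).2.1; omega)]
    have h4 : Real.exp (-(6 * Real.log ((y : ℝ) / n))) ≤ ∏ P ∈ Rg k n y, (1 - hp al z y P) := by
      refine le_trans ?_ (Finset.prod_le_prod (f := fun P : k[X] =>
        Real.exp (-(6 / qq k ^ P.natDegree))) (fun P _ => (Real.exp_pos _).le) fun P hP =>
        le_trans (Real.exp_le_exp.2 ?_) (exp_le_one_sub (hH P (mem_Rg.1 hP).1).2.2.1
          (hH P (mem_Rg.1 hP).1).2.2.2))
      · rw [← Real.exp_sum, sum_neg_distrib, Real.exp_le_exp, neg_le_neg_iff,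
          sum_Rg n y fun b => 6 / qq k ^ b]
        refine le_trans ?_ (mul_le_mul_of_nonneg_left (harm_le h3 h.le) (by norm_num))
        rw [mul_sum]
        refine sum_le_sum fun b hb => le_of_eq_of_le (by ring) (mul_le_mul_of_nonneg_left
          (card_Pd_le (k := k) (by have := (mem_Ioc.1 hb).1; omega)) (by norm_num))
      · obtain ⟨-, b1, b2, b3⟩ := hH P (mem_Rg.1 hP).1
        have : 6 / qq k ^ P.natDegree = 2 * (3 / qq k ^ P.natDegree) := by ring
        nlinarith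
    have h5 : 0 ≤ ∏ P ∈ Pr k n, (1 - hp al z y P) :=
      prod_nonneg fun P _ => sub_nonneg.2 (hp_le_one al z y P)
    have h6 := mul_le_mul_of_nonneg_left h4 h5
    rw [← VC_split _ h.le, Real.exp_neg, ← div_eq_mul_inv, div_le_iff₀ (Real.exp_pos _),
      show (6 : ℝ) = (6 : ℕ) by norm_num, Real.exp_nat_mul, Real.exp_log (by positivity)] at h6
    have h7 : (y : ℝ) / n ≤ 2 * C2 := by
      have : (y : ℝ) ≤ a := by exact_mod_cast h1.le
      rw [div_le_iff₀ (by positivity)]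
      nlinarith
    have h8 : (a : ℝ) ≤ C2 * y := h2'.trans (by gcongr; exact_mod_cast h)
    calc _ ≤ VV al z y * (2 * C2) ^ 6 * (C2 * y) :=
          mul_le_mul (h6.trans (by rw [VV]; gcongr)) h8 ha.le (by positivity)
      _ = _ := by ring

end Pool.Agent.P.MP_6f5b02_nt.CP
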