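import Pool.Agent.P.MP_6f5b02_nt.CP.TLOCF
import Pool.Agent.P.MP_6f5b02_nt.CP.TDEC
import Pool.Agent.P.MP_6f5b02_nt.CP.TGOW
import Pool.Agent.P.MP_6f5b02_nt.CP.TINF
import Pool.Agent.P.MP_6f5b02_nt.CP.TQUAD
import Pool.Agent.P.MP_6f5b02_nt.CP.TLOC0
import Pool.Agent.P.MP_6f5b02_nt.CP.TLOC1
import Pool.Agent.P.MP_6f5b02_nt.CP.TLOCM
import Pool.Agent.P.MP_6f5b02_nt.CP.TEQD
import Pool.Agent.P.MP_6f5b02_nt.CP.TNGB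
import Pool.Agent.P.MP_6f5b02_nt.CP.TTWG
import Pool.Agent.P.MP_6f5b02_nt.CP.TTW
import Pool.Agent.P.MP_6f5b02_nt.CP.TTWS
import Pool.Agent.P.MP_6f5b02_nt.CP.TFL
import Pool.Agent.P.MP_6f5b02_nt.CP.TGAU
import Pool.Agent.P.MP_6f5b02_nt.CP.TRES
import Pool.Agent.P.MP_6f5b02_nt.CP.TCNT
import Pool.Agent.P.MP_6f5b02_nt.CP.THP
import Pool.Agent.P.MP_6f5b02_nt.CP.TPRD
import Pool.Agent.P.MP_6f5b02_nt.CP.TMPHI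
import Pool.Agent.P.MP_6f5b02_nt.CP.TID
import Pool.Agent.P.MP_6f5b02_nt.CP.TMD
import Pool.Agent.P.MP_6f5b02_nt.CP.TMAIN
import Pool.Agent.P.MP_6f5b02_nt.CP.TNEGL
import Pool.Agent.P.MP_6f5b02_nt.CP.TFEJ
import Pool.Agent.P.MP_6f5b02_nt.CP.TOPN
import Pool.Agent.P.MP_6f5b02_nt.CP.TRNK
import Pool.Agent.P.MP_6f5b02_nt.CP.TETF1
import Pool.Agent.P.MP_6f5b02_nt.CP.TETF2
import Pool.Agent.P.MP_6f5b02_nt.CP.TETF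
import Pool.Agent.P.MP_6f5b02_nt.CP.TEEB
import Pool.Agent.P.MP_6f5b02_nt.CP.TLSD
import Pool.Agent.P.MP_6f5b02_nt.CP.TLS
import Pool.Agent.P.MP_6f5b02_nt.CP.TDIV
import Pool.Agent.P.MP_6f5b02_nt.CP.TLEV1
import Pool.Agent.P.MP_6f5b02_nt.CP.TLEV
import Pool.Agent.P.MP_6f5b02_nt.CP.TUP1
import Pool.Agent.P.MP_6f5b02_nt.CP.TVC
import Pool.Agent.P.MP_6f5b02_nt.CP.TUP
import Pool.Agent.P.MP_6f5b02_nt.CP.TERR1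
import Pool.Agent.P.MP_6f5b02_nt.CP.TERR
import Pool.Agent.P.MP_6f5b02_nt.CP.TNI1
import Pool.Agent.P.MP_6f5b02_nt.CP.TNICE
import Pool.Agent.P.MP_6f5b02_nt.CP.TAS
import Pool.Agent.P.MP_6f5b02_nt.CP.TCHI
import Pool.Agent.P.MP_6f5b02_nt.CP.THPC
import Pool.Agent.P.MP_6f5b02_nt.CP.TRED
import Pool.Agent.P.MP_6f5b02_nt.CP.TCZ
import Pool.Agent.P.MP_6f5b02_nt.CP.TSQS
import Pool.Agent.P.MP_6f5b02_nt.CP.TEUL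
import Pool.Agent.P.MP_6f5b02_nt.CP.TCST
import Pool.Agent.P.MP_6f5b02_nt.CP.TRHO
import Pool.Agent.P.MP_6f5b02_nt.CP.TMERT
import Pool.Agent.P.MP_6f5b02_nt.CP.TKEY
import Pool.Agent.P.MP_6f5b02_nt.CP.TPAR
import Pool.Agent.P.MP_6f5b02_nt.CP.TLOW1
import Pool.Agent.P.MP_6f5b02_nt.CP.TLOW
import Pool.Agent.P.MP_6f5b02_nt.CP.TFIN
import Pool.Agent.P.MP_8be758_nt.C2.TFORM
import Pool.Agent.P.MP_8be758_nt.C2.TSPLIT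
import Pool.Agent.P.MP_8be758_nt.C2.TLOC
import Pool.Agent.P.MP_8be758_nt.C2.TVDC
import Pool.Agent.P.MP_8be758_nt.C2.TPF
import Pool.Agent.P.MP_8be758_nt.C2.TINFY
import Pool.Agent.P.MP_8be758_nt.L2.TGAUSS
import Pool.Agent.P.MP_8be758_nt.L2.TBIJ
import Pool.Agent.P.MP_8be758_nt.L2.TORTH
import Pool.Agent.P.MP_8be758_nt.L2.TROOT
import Pool.Agent.P.MP_8be758_nt.L2.TRF
import Pool.Agent.P.MP_8be758_nt.L2.TSQ2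

/-! All steps put together. -/

namespace Pool.Agent.P.MP_6f5b02_nt.CP

open Pool.Agent.P.MP_8be758_nt

theorem a_LOCF : Q_LOCF := c_LOCF
theorem a_DEC : Q_DEC := c_DEC a_LOCF (C2.p_FORM C2.p_PF C2.p_INFY) (C2.p_SPLIT C2.p_LOC)
theorem a_GOW : Q_GOW := c_GOW C2.p_VDC
theorem a_INF : Q_INF := c_INF
theorem a_QUAD : Q_QUAD := c_QUAD
theorem a_LOC0 : Q_LOC0 := c_LOC0 a_QUAD
theorem a_LOC1 : Q_LOC1 := c_LOC1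
theorem a_LOCM : Q_LOCM := c_LOCM
theorem a_EQD : Q_EQD := c_EQD
theorem a_NGB : Q_NGB := c_NGB a_LOC0 a_LOC1 a_EQD
theorem a_TWG : Q_TWG := c_TWG a_GOW a_NGB
theorem a_TW : Q_TW := c_TW a_DEC a_INF a_LOCM a_TWG
theorem a_TWS : Q_TWS := c_TWS a_TW
theorem a_FL : Q_FL := c_FL
theorem a_GAU : Q_GAU := c_GAU
theorem a_RES : Q_RES := c_RES
theorem a_CNT : Q_CNT := c_CNT a_RES
theorem a_HP : Q_HP := c_HP L2.p_GAUSS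
theorem a_PRD : Q_PRD := c_PRD L2.p_GAUSS
theorem a_MPHI : Q_MPHI := c_MPHI
theorem a_ID : Q_ID := c_ID
theorem a_MD : Q_MD := c_MD a_CNT a_HP
theorem a_MAIN : Q_MAIN := c_MAIN a_MD a_MPHI a_PRD a_HP
theorem a_NEGL : Q_NEGL := c_NEGL L2.p_SQ2
theorem a_FEJ : Q_FEJ := c_FEJ
theorem a_OPN : Q_OPN := c_OPN a_FEJ L2.p_GAUSS
theorem a_RNK : Q_RNK := c_RNK a_PRD
theorem a_ETF1 : Q_ETF1 := c_ETF1 a_OPN a_RNK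
theorem a_ETF2 : Q_ETF2 := c_ETF2 a_PRD L2.p_GAUSS
theorem a_ETF : Q_ETF := c_ETF a_ETF1 a_ETF2
theorem a_EEB : Q_EEB := c_EEB
theorem a_LSD : Q_LSD := c_LSD L2.p_ORTH
theorem a_LS : Q_LS := c_LS a_LSD
theorem a_DIV : Q_DIV := c_DIV
theorem a_LEV1 : Q_LEV1 := c_LEV1 (L2.p_RF L2.p_ROOT L2.p_ORTH) L2.p_ROOT
theorem a_LEV : Q_LEV := c_LEV a_LEV1 a_LS a_DIV
theorem a_UP1 : Q_UP1 := c_UP1 a_RES a_HP
theorem a_VC : Q_VC := c_VC a_GAU a_HP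
theorem a_UP : Q_UP := c_UP a_FL a_UP1 a_VC a_LEV
theorem a_ERR1 : Q_ERR1 := c_ERR1 a_EEB
theorem a_ERR : Q_ERR := c_ERR a_ERR1 a_UP a_ETF a_EEB a_HP
theorem a_NI1 : Q_NI1 := c_NI1 L2.p_GAUSS
theorem a_NICE : Q_NICE := c_NICE a_NI1
theorem a_AS : Q_AS := c_AS
theorem a_CHI : Q_CHI := c_CHI C2.p_LOC
theorem a_HPC : Q_HPC := c_HPC a_AS a_CHI
theorem a_RED : Q_RED := c_RED
theorem a_CZ : Q_CZ := c_CZ
theorem a_SQS : Q_SQS := c_SQS a_CHI L2.p_BIJ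
theorem a_EUL : Q_EUL := c_EUL L2.p_GAUSS
theorem a_CST : Q_CST := c_CST L2.p_GAUSS a_GAU
theorem a_RHO : Q_RHO := c_RHO a_AS a_CHI a_RED a_CZ a_SQS a_EUL a_CST
theorem a_MERT : Q_MERT := c_MERT a_RHO a_HPC a_HP L2.p_GAUSS
theorem a_KEY : Q_KEY := c_KEY a_ID
theorem a_PAR : Q_PAR := c_PAR
theorem a_LOW1 : Q_LOW1 := c_LOW1 a_FL a_PAR a_TWS a_MAIN a_ERR a_NEGL a_KEY a_HP
theorem a_LOW : Q_LOW := c_LOW a_LOW1 a_NICE a_MERT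
theorem a_FIN : Q_FIN := c_FIN a_LOW

end Pool.Agent.P.MP_6f5b02_nt.CP
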