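import Pool.Agent.P.MP_6f5b02_nt.CP.Defs
import Pool.Agent.P.MP_8be758_nt.C2.TFORM
import Pool.Agent.P.MP_8be758_nt.L2.TROOT
import Pool.Agent.P.MP_8be758_nt.L2.TBIJ
import Pool.Agent.P.MP_8be758_nt.L2.TGAUSS

/-! Basic lemmas for the project on prime arguments in characteristic two. -/

namespace Pool.Agent.P.MP_6f5b02_nt.CP

open Polynomial Finset
open Pool.Agent.P.MP_8be758_nt.C2 Pool.Agent.P.MP_8be758_nt.L2
open scoped Classical

set_option linter.unusedSectionVars false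

variable {k : Type} [Field k]

/-! ### the two halves -/

theorem gg_lt [Finite k] {N : ℕ} {u v : k[X]} (hu : u ∈ Mo k N) (hv : v ∈ low k N) :
    (X * v ^ 2).degree < (u ^ 2).degree := by
  obtain ⟨h1, h2⟩ := mem_Mo.1 hu
  by_cases h0 : v = 0
  · rw [h0, zero_pow two_ne_zero, mul_zero, degree_zero, bot_lt_iff_ne_bot, Ne, degree_eq_bot]
    exact pow_ne_zero _ h1.ne_zero
  · have := natDegree_lt_of_mem_low hv h0
    refine degree_lt_degree ?_
    rw [natDegree_mul X_ne_zero (pow_ne_zero _ h0), natDegree_X, natDegree_pow, natDegree_pow]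
    omega

theorem gg_mem [Finite k] {N : ℕ} {u v : k[X]} (hu : u ∈ Mo k N) (hv : v ∈ low k N) :
    gg u v ∈ Mo k (2 * N) := by
  obtain ⟨h1, h2⟩ := mem_Mo.1 hu
  refine mem_Mo.2 ⟨(h1.pow 2).add_of_left (gg_lt hu hv), ?_⟩
  rw [gg, natDegree_add_eq_left_of_degree_lt (gg_lt hu hv), natDegree_pow, h2]

theorem gg_ne [Finite k] {N : ℕ} {u v : k[X]} (hu : u ∈ Mo k N) (hv : v ∈ low k N) :
    gg u v ≠ 0 := (mem_Mo.1 (gg_mem hu hv)).1.ne_zero

theorem Mo_low [Finite k] {N : ℕ} (hN : 1 ≤ N) {v : k[X]} (hv : v ∈ Mo k (N - 1)) :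
    v ∈ (low k N).erase 0 := by
  obtain ⟨h1, h2⟩ := mem_Mo.1 hv
  exact mem_erase.2 ⟨h1.ne_zero, mem_low_of_natDegree_lt (by omega)⟩

theorem add_mem_Mo [Finite k] {N : ℕ} {u x : k[X]} (hu : u ∈ Mo k N) (hx : x ∈ low k N) :
    u + x ∈ Mo k N := add_mem_Gs hu hx (one_dvd _)

theorem U2_mem [Finite k] {N : ℕ} {al u v : k[X]} (hu : u ∈ Mo k N) (hv : v ∈ low k N)
    (hN : 1 ≤ N) (ha : al.natDegree < 2 * N) : U2 al v u ∈ Mo k (2 * N) := by
  have e : U2 al v u = gg u v + (u + al) := by unfold U2 gg; ring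
  rw [e]
  exact add_mem_Mo (gg_mem hu hv) (add_mem_low
    (mem_low_of_natDegree_lt (by have := (mem_Mo.1 hu).2; omega)) (mem_low_of_natDegree_lt ha))

section two
variable [CharP k 2]

theorem two0 : (2 : k[X]) = 0 := CharTwo.two_eq_zero

theorem FQ_gg (al u v : k[X]) : FQ al (gg u v) = gg (U2 al v u) v := by
  unfold FQ gg U2
  linear_combination (-(u ^ 3 + u ^ 2 * al + u * X * v ^ 2 + u * al + X * v ^ 2 * al)) * two0 (k := k)

theorem gg_add (u x v : k[X]) : gg (u + x) v = gg u v + x ^ 2 := by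
  unfold gg
  linear_combination (u * x) * two0 (k := k)

theorem U2_add (al v u x : k[X]) : U2 al v (u + x) = U2 al v u + (x ^ 2 + x) := by
  unfold U2
  linear_combination (u * x) * two0 (k := k)

theorem der_sq (x : k[X]) : derivative (x ^ 2) = 0 := by
  simpa using derivative_sq_add x 0

theorem der_U2 (al v u : k[X]) :
    derivative (U2 al v u) = derivative u + v ^ 2 + derivative al := by
  have e : U2 al v u = (u ^ 2 + X * v ^ 2) + u + al := by unfold U2; ring
  rw [e, derivative_add, derivative_add, derivative_sq_add]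
  ring

theorem gg_eq_eo (U V : k[X]) : gg U V = eo (fr U) (fr V) := by
  rw [gg, eo, expand_fr, expand_fr]

theorem mu_gg [Finite k] (U V : k[X]) : mu (gg U V) = mu (eo U V) := by
  rw [← mu_equiv (mapEquiv (frobeniusEquiv k 2)).toMulEquiv (eo U V), gg_eq_eo]
  exact (congrArg mu (map_eo (frobenius k 2) U V)).symm

theorem gg_inj {u v u' v' : k[X]} (h : gg u v = gg u' v') : u = u' ∧ v = v' := by
  rw [gg_eq_eo, gg_eq_eo] at h
  have hi := map_injective (frobenius k 2) (frobenius k 2).injective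
  exact ⟨hi (eo_inj h).1, hi (eo_inj h).2⟩

theorem gg_eq_zero {u v : k[X]} (h : gg u v = 0) : u = 0 ∧ v = 0 :=
  gg_inj (h.trans (by simp [gg]))

end two

/-! ### membership -/

theorem Bp_congr (al : k[X]) (z y : ℕ) {P g g' : k[X]} (h : P ∣ g - g') :
    Bp al z y P g ↔ Bp al z y P g' := by
  have h2 : P ∣ FQ al g - FQ al g' := by
    have e : FQ al g - FQ al g' = (g - g') * (g + g' + 1) := by unfold FQ; ring
    exact e ▸ h.mul_right _
  unfold Bp
  rw [(dvd_iff_dvd_of_dvd_sub h), dvd_iff_dvd_of_dvd_sub h2]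

theorem Bp_add (al : k[X]) (z y : ℕ) (P x t : k[X]) : Bp al z y P (x + P * t) ↔ Bp al z y P x :=
  Bp_congr al z y ⟨t, by ring⟩

section fin
variable [Finite k]

theorem mem_Rg {y n : ℕ} {P : k[X]} :
    P ∈ Rg k y n ↔ IsPr P ∧ y < P.natDegree ∧ P.natDegree ≤ n := by
  rw [Rg, mem_filter, mem_Pr]; tauto

theorem Rg_mono {y y' n n' : ℕ} (h : y' ≤ y) (h' : n ≤ n') : Rg k y n ⊆ Rg k y' n' := fun P hP => by
  obtain ⟨a, b, c⟩ := mem_Rg.1 hP
  exact mem_Rg.2 ⟨a, by omega, by omega⟩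

theorem Pr_mono {n n' : ℕ} (h : n ≤ n') : Pr k n ⊆ Pr k n' := fun _ hP =>
  mem_Pr.2 ⟨(mem_Pr.1 hP).1, (mem_Pr.1 hP).2.trans h⟩

theorem Pr_eq_Rg (n : ℕ) : Pr k n = Rg k 0 n := by
  ext P
  rw [mem_Pr, mem_Rg]
  exact ⟨fun h => ⟨h.1, h.1.pos, h.2⟩, fun h => ⟨h.1, h.2.2⟩⟩

theorem mem_Tp {y n a : ℕ} {S : Finset k[X]} :
    S ∈ Tp k y n a ↔ S ⊆ Rg k y a ∧ dg S + a = n := by
  rw [Tp, mem_filter, mem_powerset]

theorem mem_Vs {z H N : ℕ} {v : k[X]} :
    v ∈ Vs k z H N ↔ v ∈ Mo k (N - 1) ∧ Nice z (N / H) H v := by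
  rw [Vs, mem_filter]

theorem mem_Rs {al : k[X]} {z y N : ℕ} {W : Finset k[X]} {p : k[X] × k[X]} :
    p ∈ Rs al z y N W ↔ p.1 ∈ Mo k N ∧ p.2 ∈ W ∧ Rough al z y (gg p.1 p.2) := by
  rw [Rs, mem_filter, mem_product, and_assoc]

theorem Rough.lt {al g P : k[X]} {z y : ℕ} (h : Rough al z y g) (hP : IsPr P) (hd : P ∣ g) :
    y < P.natDegree := by
  by_contra h1
  exact h P (mem_Pr.2 ⟨hP, not_lt.1 h1⟩) (Or.inl hd)

theorem card_mul_le_dg {S : Finset k[X]} {y : ℕ} (h : ∀ P ∈ S, y ≤ P.natDegree) :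
    S.card * y ≤ dg S := by
  simpa [dg] using card_nsmul_le_sum S _ y h

/-- a sum over primes, grouped by the degree -/
theorem sum_Rg (y n : ℕ) (f : ℕ → ℝ) :
    ∑ P ∈ Rg k y n, f P.natDegree = ∑ a ∈ Ioc y n, ((Pd k a).card : ℝ) * f a := by
  rw [← sum_fiberwise_of_maps_to (g := natDegree) (t := Ioc y n)
    fun P hP => mem_Ioc.2 (mem_Rg.1 hP).2]
  refine sum_congr rfl fun a ha => ?_
  have e : (Rg k y n).filter (fun P => P.natDegree = a) = Pd k a := by
    ext P
    rw [mem_filter, mem_Rg, mem_Pd]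
    have := mem_Ioc.1 ha
    exact ⟨fun h => ⟨h.1.1, h.2⟩, fun h => ⟨⟨h.1, by omega, by omega⟩, h.2⟩⟩
  rw [e, sum_congr rfl fun P hP => by rw [(mem_Pd.1 hP).2], sum_const, nsmul_eq_mul]

theorem card_Pd_le {a : ℕ} (ha : 1 ≤ a) : ((Pd k a).card : ℝ) / qq k ^ a ≤ 1 / a := by
  have h := (p_GAUSS k a ha).1
  have := qq_pos (k := k)
  rw [div_le_div_iff₀ (by positivity) (by exact_mod_cast ha)]
  linarith

theorem ww_pos (S : Finset k[X]) : 0 < ww S := by
  have := qq_pos (k := k)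
  unfold ww; positivity

theorem ww_empty : ww (∅ : Finset k[X]) = 1 := by simp [ww, dg_empty]

theorem ww_union {S T : Finset k[X]} (h : Disjoint S T) : ww (S ∪ T) = ww S * ww T := by
  rw [ww, ww, ww, dg_union h, pow_add, one_div_mul_one_div]

theorem ww_insert {P : k[X]} {S : Finset k[X]} (h : P ∉ S) :
    ww (insert P S) = 1 / qq k ^ P.natDegree * ww S := by
  rw [ww, ww, dg_insert h, pow_add, one_div_mul_one_div]

theorem ww_eq_prod (S : Finset k[X]) : ww S = ∏ P ∈ S, 1 / qq k ^ P.natDegree := by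
  rw [ww, dg, prod_div_distrib, prod_const_one, prod_pow_eq_pow_sum]

theorem pr_injOn (T : Finset (Finset k[X])) (h : ∀ S ∈ T, ∀ P ∈ S, IsPr P) :
    Set.InjOn pr (T : Set (Finset k[X])) := fun S hS S' hS' e => by
  rw [← pf_pr (h S hS), ← pf_pr (h S' hS'), e]

theorem card_dg_le (T : Finset (Finset k[X])) (D : ℕ)
    (h : ∀ S ∈ T, (∀ P ∈ S, IsPr P) ∧ dg S = D) : (T.card : ℝ) ≤ qq k ^ D := by
  rw [← card_Mo]
  exact_mod_cast card_le_card_of_injOn pr (fun S hS => mem_Mo.2 ⟨monic_pr (h S hS).1,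
    (natDegree_pr (h S hS).1).trans (h S hS).2⟩) (pr_injOn T fun S hS => (h S hS).1)

theorem card_Sle_le (L : ℕ) : ((Sle k L).card : ℝ) ≤ qq k ^ (L + 1) := by
  rw [← card_low']
  exact_mod_cast card_le_card_of_injOn pr (fun S hS => mem_low_of_natDegree_lt (by
    rw [natDegree_pr (mem_Sle.1 hS).1]; exact Nat.lt_succ_of_le (mem_Sle.1 hS).2))
    (pr_injOn _ fun S hS => (mem_Sle.1 hS).1)

theorem dg_pf {f : k[X]} (hm : f.Monic) (hs : Squarefree f) : dg (pf f) = f.natDegree := by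
  rw [← natDegree_pr fun P => isPr_of_mem_pf, BIJ_pr_pf hm hs]

theorem mu_pr {S : Finset k[X]} (h : ∀ P ∈ S, IsPr P) : mu (pr S) = sg S := by
  induction S using Finset.induction_on with
  | empty => simp [mu, pr_empty, sg_empty]
  | insert P S hP ih =>
    have h1 := h P (mem_insert_self _ _)
    have h2 : ∀ Q ∈ S, IsPr Q := fun Q hQ => h Q (mem_insert_of_mem hQ)
    have h3 : IsRelPrime P (pr S) :=
      (h1.2.coprime_iff_not_dvd.2 fun d => hP ((dvd_pr_iff h2 h1).1 d)).isRelPrime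
    rw [pr_insert hP, sg_insert hP, ← ih h2, mu, mu, h3.moebius_mul, h1.2.moebius_eq]
    simp

theorem mu_eq_sg {f : k[X]} (hm : f.Monic) (hs : Squarefree f) : mu f = sg (pf f) := by
  rw [← mu_pr fun P => isPr_of_mem_pf, BIJ_pr_pf hm hs]

theorem hp_nonneg (al : k[X]) (z y : ℕ) (P : k[X]) : 0 ≤ hp al z y P := by
  have := qq_pos (k := k)
  unfold hp; positivity

theorem hp_le_one (al : k[X]) (z y : ℕ) (P : k[X]) : hp al z y P ≤ 1 := by
  have := qq_pos (k := k)
  rw [hp, div_le_one (by positivity), ← card_low']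
  exact_mod_cast card_filter_le _ _

theorem VV_nonneg (al : k[X]) (z y : ℕ) : 0 ≤ VV al z y :=
  prod_nonneg fun P _ => sub_nonneg.2 (hp_le_one al z y P)

theorem VV_le_one (al : k[X]) (z y : ℕ) : VV al z y ≤ 1 :=
  prod_le_one (fun P _ => sub_nonneg.2 (hp_le_one al z y P))
    fun P _ => sub_le_self _ (hp_nonneg al z y P)

end fin

theorem mu_zero {f : k[X]} (h : ¬ Squarefree f) : mu f = 0 := by simp [mu, h]

theorem mu_eq {f : k[X]} (h : Squarefree f) : mu f = 1 ∨ mu f = -1 := by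
  rw [mu, h.moebius_eq]
  push_cast
  exact neg_one_pow_eq_or _ _

theorem one_add_osc (al : k[X]) (σ : ℝ) (g : k[X]) :
    1 + osc al σ g = (1 - mu g) * (1 + σ * mu (FQ al g)) := by unfold osc; ring

theorem osc_bd (al : k[X]) {σ : ℝ} (hσ : |σ| ≤ 1) (g : k[X]) :
    0 ≤ 1 + osc al σ g ∧ 1 + osc al σ g ≤ 4 := by
  have h1 := abs_le.1 (abs_mu_le g)
  have h2 : |σ * mu (FQ al g)| ≤ 1 := by
    rw [abs_mul]; exact mul_le_one₀ hσ (abs_nonneg _) (abs_mu_le _)
  have h3 := abs_le.1 h2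
  rw [one_add_osc]
  constructor <;> nlinarith

theorem ee_nonneg (N J : ℕ) (S : Finset k[X]) : 0 ≤ ee N J S := by unfold ee; positivity

theorem Gf_empty (ψ : ℤ → ℝ) (x : ℤ) : Gf ψ (∅ : Finset k[X]) x = ψ x := by
  simp [Gf, sg_empty, dg_empty]

theorem Gf_insert (ψ : ℤ → ℝ) {P : k[X]} {S : Finset k[X]} (h : P ∉ S) (x : ℤ) :
    Gf ψ (insert P S) x = Gf ψ S x - Gf ψ S (x + P.natDegree) := by
  rw [Gf, sum_powerset_insert h, Gf, Gf, sub_eq_add_neg, ← sum_neg_distrib]
  congr 1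
  refine sum_congr rfl fun t ht => ?_
  have h1 : P ∉ t := fun h1 => h (mem_powerset.1 ht h1)
  rw [sg_insert h1, dg_insert h1, Nat.cast_add, add_assoc, neg_mul]

theorem Gf_finite {ψ : ℤ → ℝ} (h : (Function.support ψ).Finite) (S : Finset k[X]) :
    (Function.support (Gf ψ S)).Finite := by
  induction S using Finset.induction_on with
  | empty => rwa [show Gf ψ (∅ : Finset k[X]) = ψ from funext (Gf_empty ψ)]
  | insert P S hP ih =>
    refine (ih.union (ih.preimage (add_left_injective (P.natDegree : ℤ)).injOn)).subset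
      fun x hx => ?_
    by_contra h1
    simp only [Set.mem_union, Set.mem_preimage, Function.mem_support, not_or, not_not] at h1
    exact hx (by rw [Gf_insert ψ hP, h1.1, h1.2, sub_zero])

theorem nrm_nonneg (f : ℤ → ℝ) : 0 ≤ nrm f := tsum_nonneg fun _ => sq_nonneg _

theorem nrm_eq {f : ℤ → ℝ} {T : Finset ℤ} (h : ∀ x ∉ T, f x = 0) : nrm f = ∑ x ∈ T, f x ^ 2 :=
  tsum_eq_sum fun x hx => by rw [h x hx]; simp

theorem sum_le_nrm {f : ℤ → ℝ} (h : (Function.support f).Finite) (T : Finset ℤ) :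
    ∑ x ∈ T, f x ^ 2 ≤ nrm f := by
  rw [nrm_eq (T := T ∪ h.toFinset) fun x hx => by
    by_contra h1
    exact hx (mem_union_right _ (h.mem_toFinset.2 h1))]
  exact sum_le_sum_of_subset_of_nonneg subset_union_left fun _ _ _ => sq_nonneg _

theorem nrm_shift (f : ℤ → ℝ) (a : ℤ) : nrm (fun x => f (x + a)) = nrm f :=
  (Equiv.addRight a).tsum_eq (fun x => f x ^ 2)

/-! ### real inequalities -/

theorem harm_le {y n : ℕ} (hy : 1 ≤ y) (h : y ≤ n) :
    ∑ a ∈ Ioc y n, (1 : ℝ) / a ≤ Real.log ((n : ℝ) / y) := by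
  induction n, h using Nat.le_induction with
  | base => rw [div_self (by positivity)]; simp
  | succ n hn ih =>
    have h0 : (0 : ℝ) < n := by exact_mod_cast (by omega : 0 < n)
    have h1 : (0 : ℝ) < y := by exact_mod_cast hy
    have h2 := Real.one_sub_inv_le_log_of_pos (show (0 : ℝ) < (n + 1) / n by positivity)
    have e : ((n + 1 : ℕ) : ℝ) / y = n / y * ((n + 1) / n) := by push_cast; field_simp
    have e2 : 1 - (((n : ℝ) + 1) / n)⁻¹ = 1 / ((n + 1 : ℕ) : ℝ) := by push_cast; field_simp; ring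
    rw [sum_Ioc_succ_top hn, e, Real.log_mul (by positivity) (by positivity)]
    linarith

theorem le_harm {y n : ℕ} (h : y ≤ n) :
    Real.log (((n : ℝ) + 1) / (y + 1)) ≤ ∑ a ∈ Ioc y n, (1 : ℝ) / a := by
  induction n, h using Nat.le_induction with
  | base => rw [div_self (by positivity)]; simp
  | succ n hn ih =>
    have h2 := Real.log_le_sub_one_of_pos (show (0 : ℝ) < (n + 2) / (n + 1) by positivity)
    have e : (((n + 1 : ℕ) : ℝ) + 1) / (y + 1) = (n + 1) / (y + 1) * ((n + 2) / (n + 1)) := by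
      push_cast; field_simp; ring
    have e2 : ((n : ℝ) + 2) / (n + 1) - 1 = 1 / ((n + 1 : ℕ) : ℝ) := by push_cast; field_simp; ring
    rw [sum_Ioc_succ_top hn, e, Real.log_mul (by positivity) (by positivity)]
    linarith

theorem harm_zero {n : ℕ} (hn : 1 ≤ n) : ∑ a ∈ Ioc 0 n, (1 : ℝ) / a ≤ 1 + Real.log n := by
  have h := harm_le le_rfl hn
  rw [← sum_Ioc_consecutive _ (Nat.zero_le 1) hn]
  simp only [Nat.cast_one, div_one] at h
  simpa using h

theorem exp_le_one_sub {h : ℝ} (h0 : 0 ≤ h) (h1 : h ≤ 1 / 2) :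
    Real.exp (-(h + 2 * h ^ 2)) ≤ 1 - h := by
  rw [Real.exp_neg, inv_le_iff_one_le_mul₀ (Real.exp_pos _)]
  nlinarith [Real.add_one_le_exp (h + 2 * h ^ 2), mul_nonneg h0 h0,
    mul_nonneg (mul_nonneg h0 h0) (sub_nonneg.2 h1)]

/-! ### differences -/

section deg
variable [Finite k] {A B : Type} {L : ℕ}

theorem Deg.congr [Add A] : ∀ {d : ℕ} {p p' : k[X] → A}, Deg L d p →
    (∀ x ∈ low k L, p x = p' x) → Deg L d p'
  | 0, _, _, h, e => fun x hx y hy => by rw [← e x hx, ← e y hy]; exact h x hx y hy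
  | _ + 1, _, _, h, e => fun t ht => (h t ht).congr fun x hx => by
      rw [e x hx, e _ (add_mem_low hx ht)]

theorem Deg.succ [Add A] : ∀ {d : ℕ} {p : k[X] → A}, Deg L d p → Deg L (d + 1) p
  | 0, _, h => fun t ht x hx y hy => by
      show _ + _ = _ + _
      rw [h x hx y hy, h _ (add_mem_low hx ht) _ (add_mem_low hy ht)]
  | _ + 1, _, h => fun t ht => (h t ht).succ

theorem Deg.mono [Add A] {d d' : ℕ} {p : k[X] → A} (h : Deg L d p) (hd : d ≤ d') :
    Deg L d' p := by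
  induction d', hd using Nat.le_induction with
  | base => exact h
  | succ _ _ ih => exact ih.succ

theorem Deg.const [Add A] (d : ℕ) (c : A) : Deg L d (fun _ : k[X] => c) :=
  Deg.mono (d := 0) (fun _ _ _ _ => rfl) (Nat.zero_le d)

theorem Deg.add [AddCommMonoid A] : ∀ {d : ℕ} {p p' : k[X] → A}, Deg L d p → Deg L d p' →
    Deg L d (fun x => p x + p' x)
  | 0, _, _, h, h' => fun x hx y hy => by
      show _ + _ = _ + _
      rw [h x hx y hy, h' x hx y hy]
  | _ + 1, _, _, h, h' => fun t ht => ((h t ht).add (h' t ht)).congr fun _ _ => add_add_add_comm _ _ _ _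

theorem Deg.sum [AddCommMonoid A] {ι : Type} (s : Finset ι) {d : ℕ} {p : ι → k[X] → A}
    (h : ∀ i ∈ s, Deg L d (p i)) : Deg L d (fun x => ∑ i ∈ s, p i x) := by
  induction s using Finset.induction_on with
  | empty => exact Deg.const d _
  | insert i s hi ih =>
    exact ((h i (mem_insert_self _ _)).add (ih fun j hj => h j (mem_insert_of_mem hj))).congr
      fun x _ => by rw [sum_insert hi]

theorem Deg.map [Add A] [Add B] (φ : A → B) (hφ : ∀ a b, φ (a + b) = φ a + φ b) :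
    ∀ {d : ℕ} {p : k[X] → A}, Deg L d p → Deg L d (fun x => φ (p x))
  | 0, _, h => fun x hx y hy => congrArg φ (h x hx y hy)
  | _ + 1, _, h => fun t ht => (Deg.map φ hφ (h t ht)).congr fun _ _ => hφ _ _

theorem Deg.shift [Add A] {s : k[X]} (hs : s ∈ low k L) :
    ∀ {d : ℕ} {p : k[X] → A}, Deg L d p → Deg L d (fun x => p (x + s))
  | 0, _, h => fun x hx y hy => h _ (add_mem_low hx hs) _ (add_mem_low hy hs)
  | _ + 1, _, h => fun t ht => (Deg.shift hs (h t ht)).congr fun x _ => by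
      show _ + _ = _ + _
      rw [add_right_comm x s t]

/-- multiplication by an affine function raises the order by one -/
theorem Deg.mul_aff [CharP k 2] (c : k[X]) (E : k[X] → k[X]) (hE : ∀ x y, E (x + y) = E x + E y) :
    ∀ {d : ℕ} {p : k[X] → k[X]}, Deg L d p → Deg L (d + 1) (fun x => p x * (c + E x))
  | 0, p, h => fun t ht => (Deg.const 0 (p 0 * E t)).congr fun x hx => by
      beta_reduce
      rw [hE, h x hx 0 (zero_mem_low L), h _ (add_mem_low hx ht) 0 (zero_mem_low L)]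
      linear_combination (-(p 0 * (c + E x))) * two0 (k := k)
  | _ + 1, p, h => fun t ht =>
      ((Deg.mul_aff c E hE (h t ht)).add (Deg.map (· * E t) (fun a b => add_mul a b _)
        (h.shift ht))).congr fun x _ => by
      beta_reduce
      rw [hE]
      ring

theorem NG_nonneg (L H : ℕ) : ∀ (R : List k[X]) (b : k[X] → ℝ), 0 ≤ NG L H R b
  | [], _ => div_nonneg (abs_nonneg _) (pow_pos qq_pos _).le
  | _ :: R, _ => div_nonneg (sum_nonneg fun _ _ => NG_nonneg L H R _) (pow_pos qq_pos _).le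

theorem NG_le_one (L H : ℕ) : ∀ (R : List k[X]) (b : k[X] → ℝ),
    (∀ r ∈ R, r.natDegree + H ≤ L) → (∀ x ∈ low k L, |b x| ≤ 1) → NG L H R b ≤ 1
  | [], b, _, hb => by
      rw [NG, div_le_one (pow_pos qq_pos _), ← card_low']
      refine (abs_sum_le_sum_abs _ _).trans ?_
      simpa using sum_le_card_nsmul _ _ 1 hb
  | r :: R, b, hR, hb => by
      rw [NG, div_le_one (pow_pos qq_pos _), ← card_low']
      simpa using sum_le_card_nsmul (low k H) _ 1 fun y hy =>
        NG_le_one L H R (fun x => b x * b (x + r * y))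
          (fun r' hr' => hR r' (List.mem_cons_of_mem _ hr')) fun x hx => by
            rw [abs_mul]
            exact mul_le_one₀ (hb x hx) (abs_nonneg _)
              (hb _ (add_mem_low hx (mul_mem_low hy (hR r List.mem_cons_self))))

end deg

theorem Loc.abs_le {K : Type} [Field K] {M : ℕ} {f : K → K → ℝ} (h : Loc K M f) (x y : K) :
    |f x y| ≤ 1 := by
  obtain ⟨ι, κ, A, B, Nn, D, h1, -, -, -, -, -, h2⟩ := h
  rw [h2, abs_mul, abs_psi, mul_one]
  exact h1 x

theorem Loc.pos {K : Type} [Field K] {M : ℕ} {f : K → K → ℝ} (h : Loc K M f) : 1 ≤ M := by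
  obtain ⟨ι, κ, A, B, Nn, D, -, -, h1, h2, -⟩ := h
  omega

/-- a non-trivial additive character sums to zero -/
theorem sum_psi_mul {K : Type} [Field K] [Fintype K] [CharP K 2] (c : K) :
    ∑ y : K, psi (c * y) = if c = 0 then (Fintype.card K : ℝ) else 0 := by
  split_ifs with h
  · simp [h, psi_zero]
  · obtain ⟨t, ht⟩ := exists_psi_neg (K := K)
    have e := Equiv.sum_comp (Equiv.addRight (t / c)) fun y => psi (c * y)
    simp only [Equiv.coe_addRight, mul_add, psi_add, mul_div_cancel₀ _ h, ht, mul_neg, mul_one,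
      sum_neg_distrib] at e
    linarith

theorem sum_psi_sq {K : Type} [Field K] [Fintype K] [CharP K 2] (c : K) :
    ∑ y : K, psi (c * y ^ 2) = if c = 0 then (Fintype.card K : ℝ) else 0 := by
  rw [← sum_psi_mul]
  exact Equiv.sum_comp (frobeniusEquiv K 2).toEquiv fun y => psi (c * y)

end Pool.Agent.P.MP_6f5b02_nt.CP
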