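import Pool.Agent.P.MP_8be758_nt.L2.If

/-! Definitions for the project on prime arguments in characteristic two. -/

namespace Pool.Agent.P.MP_6f5b02_nt.CP

open Polynomial Finset
open Pool.Agent.P.MP_8be758_nt.C2 Pool.Agent.P.MP_8be758_nt.L2
open scoped Classical

variable {k : Type} [Field k]

/-- the polynomial with the two halves `u` and `v` -/
noncomputable def gg (u v : k[X]) : k[X] := u ^ 2 + X * v ^ 2

/-- the quadratic polynomial -/
noncomputable def FQ (al g : k[X]) : k[X] := g ^ 2 + g + al ^ 2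

/-- the first half of the value of the quadratic polynomial -/
noncomputable def U2 (al v u : k[X]) : k[X] := u ^ 2 + u + X * v ^ 2 + al

/-- the event that is sifted out at the prime `P` -/
def Bp (al : k[X]) (z y : ℕ) (P g : k[X]) : Prop :=
  P ∣ g ∨ (z < P.natDegree ∧ P.natDegree ≤ y ∧ P ∣ FQ al g)

/-- the density of that event -/
noncomputable def hp [Finite k] (al : k[X]) (z y : ℕ) (P : k[X]) : ℝ :=
  (((low k P.natDegree).filter (Bp al z y P)).card : ℝ) / qq k ^ P.natDegree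

/-- the sieve product -/
noncomputable def VV [Finite k] (al : k[X]) (z y : ℕ) : ℝ := ∏ P ∈ Pr k y, (1 - hp al z y P)

/-- the survivors of the sieve -/
def Rough [Finite k] (al : k[X]) (z y : ℕ) (g : k[X]) : Prop := ∀ P ∈ Pr k y, ¬ Bp al z y P g

/-- a short factor without small primes times at most `H` primes of degree in `(y, 2 y]` -/
def Nice [Finite k] (z y H : ℕ) (v : k[X]) : Prop :=
  ∃ (V1 : k[X]) (s : Finset k[X]), v = V1 * pr s ∧ V1.natDegree ≤ y ∧ (∀ P ∈ Pr k z, ¬ P ∣ V1) ∧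
    s.card ≤ H ∧ ∀ P ∈ s, IsPr P ∧ y < P.natDegree ∧ P.natDegree ≤ 2 * y

/-- the admissible second halves -/
noncomputable def Vs (k : Type) [Field k] [Finite k] (z H N : ℕ) : Finset k[X] :=
  (Mo k (N - 1)).filter (Nice z (N / H) H)

/-- the primes with degree in `(y, n]` -/
noncomputable def Rg (k : Type) [Field k] [Finite k] (y n : ℕ) : Finset k[X] :=
  (Pr k n).filter (fun P => y < P.natDegree)

/-- the reciprocal of the norm -/
noncomputable def ww (S : Finset k[X]) : ℝ := 1 / qq k ^ dg S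

/-- the part of the identity that is evaluated -/
noncomputable def AA (N J : ℕ) (A : Finset k[X]) : ℝ :=
  ∑ d ∈ A.powerset.filter (fun d => dg d ≤ J), sg d * ((N : ℝ) - dg d)

/-- the part of the identity that is estimated -/
noncomputable def EE (N J : ℕ) (A : Finset k[X]) : ℝ :=
  ∑ d ∈ A.powerset.filter (fun d => J < dg d ∧ dg d < N), sg d * ((N : ℝ) - dg d)

/-- iterated differences of `ψ` along the degrees of a set -/
noncomputable def Gf (ψ : ℤ → ℝ) (S : Finset k[X]) (x : ℤ) : ℝ :=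
  ∑ t ∈ S.powerset, sg t * ψ (x + dg t)

/-- the square norm -/
noncomputable def nrm (f : ℤ → ℝ) : ℝ := ∑' x, f x ^ 2

/-- the weight of the window -/
noncomputable def ps1 (N J : ℕ) (x : ℤ) : ℝ := if (J : ℤ) < x ∧ x < N then (N : ℝ) - x else 0

/-- the reflected weight -/
noncomputable def ps2 (N J : ℕ) (x : ℤ) : ℝ := ps1 N J (2 * N - x)

/-- a bound for `EE` that does not see the largest prime -/
noncomputable def ee (N J : ℕ) (S : Finset k[X]) : ℝ :=
  |Gf (ps1 N J) S 0| + |Gf (ps2 N J) S 0|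

/-- the sets that leave room for a largest prime of degree `a` -/
noncomputable def Tp (k : Type) [Field k] [Finite k] (y n a : ℕ) : Finset (Finset k[X]) :=
  (Rg k y a).powerset.filter (fun S => dg S + a = n)

/-- the number of rough polynomials that are `pr S` times a prime of degree `a` -/
noncomputable def cn [Finite k] (al : k[X]) (z y N a : ℕ) (W : Finset k[X]) (S : Finset k[X]) : ℝ :=
  (((Mo k N ×ˢ W).filter (fun p => Rough al z y (gg p.1 p.2) ∧
    ∃ P ∈ Pd k a, gg p.1 p.2 = pr S * P)).card : ℝ)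

/-- the remainder term of a pair of congruences -/
noncomputable def rm [Finite k] (N : ℕ) (W : Finset k[X]) (E : Finset k[X]) (ρ : k[X])
    (S : Finset k[X]) : ℝ :=
  (((Mo k N ×ˢ W).filter (fun p => pr S ∣ gg p.1 p.2 ∧ pr E ∣ gg p.1 p.2 - ρ)).card : ℝ) -
    qq k ^ N * W.card / qq k ^ (dg S + dg E)

/-- the oscillating part of the weight -/
noncomputable def osc (al : k[X]) (σ : ℝ) (g : k[X]) : ℝ :=
  σ * mu (FQ al g) - mu g - σ * (mu g * mu (FQ al g))

/-- the differences of order `d` are constant on the polynomials of degree less than `L` -/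
def Deg [Finite k] {A : Type} [Add A] (L : ℕ) : ℕ → (k[X] → A) → Prop
  | 0, p => ∀ x ∈ low k L, ∀ y ∈ low k L, p x = p y
  | d + 1, p => ∀ h ∈ low k L, Deg L d (fun x => p x + p (x + h))

/-- the quantity produced by iterated differencing along a list of moduli -/
noncomputable def NG [Finite k] (L H : ℕ) : List k[X] → (k[X] → ℝ) → ℝ
  | [], b => |∑ x ∈ low k L, b x| / qq k ^ L
  | R :: Rs, b => (∑ y ∈ low k H, NG L H Rs (fun x => b x * b (x + R * y))) / qq k ^ H

/-- a cubic phase whose leading coefficient is a non-trivial rational function -/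
def Loc (K : Type) [Field K] (M : ℕ) (f : K → K → ℝ) : Prop :=
  ∃ (ι : K → ℝ) (κ A B : K → K) (Nn D : K[X]), (∀ x, |ι x| ≤ 1) ∧ IsCoprime Nn D ∧
    1 ≤ D.natDegree ∧ D.natDegree ≤ M ∧ Nn.natDegree ≤ D.natDegree ∧
    (∀ x, D.eval x ≠ 0 → κ x = Nn.eval x / D.eval x) ∧
    ∀ x y, f x y = ι x * psi (κ x * y ^ 3 + A x * y ^ 2 + B x * y)

/-- the three non-trivial pairs of exponents -/
def Md (i j : ℕ) : Prop := (i = 1 ∧ j = 0) ∨ (i = 0 ∧ j = 1) ∨ (i = 1 ∧ j = 1)

/-- sieve weights of level `Lv` and quality `s` on the set `P` -/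
def Sv (P : Finset k[X]) (Lv s : ℕ) (la De : Finset k[X] → ℝ) : Prop :=
  (∀ E, |la E| ≤ 1) ∧ (∀ E ∈ P.powerset, la E ≠ 0 ∨ De E ≠ 0 → dg E ≤ Lv) ∧
    (∀ g : k[X] → ℝ, (∀ p ∈ P, 0 ≤ g p ∧ g p ≤ 1) →
      ∏ p ∈ P, (1 - g p) ≤ ∑ E ∈ P.powerset, la E * ∏ p ∈ E, g p ∧
      ∑ E ∈ P.powerset, la E * ∏ p ∈ E, g p ≤
        ∏ p ∈ P, (1 - g p) + ∑ E ∈ P.powerset, De E * ∏ p ∈ E, g p) ∧
    ∀ h : k[X] → ℝ, (∀ p ∈ P, 0 ≤ h p ∧ h p ≤ 1 / 2) →
      (∀ a : ℕ, 1 ≤ a → ∑ p ∈ P.filter (fun p => p.natDegree = a), h p ≤ 3 / (a : ℝ)) →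
      ∑ E ∈ P.powerset, De E * ∏ p ∈ E, h p ≤ (∏ p ∈ P, (1 - h p)) / 2 ^ s

/-- the character attached to the quadratic extension -/
noncomputable def chi (A f : k[X]) : ℝ := psi (res f (A * derivative f))

/-- the sifted pairs -/
noncomputable def Rs [Finite k] (al : k[X]) (z y N : ℕ) (W : Finset k[X]) : Finset (k[X] × k[X]) :=
  (Mo k N ×ˢ W).filter (fun p => Rough al z y (gg p.1 p.2))

/-- a square divides the polynomial or its value -/
def Nsq (al g : k[X]) : Prop := ¬ Squarefree g ∨ ¬ Squarefree (FQ al g)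

/-- the pairs that give a prime whose value has the sign `σ` -/
noncomputable def Tg [Finite k] (al : k[X]) (z H N : ℕ) (σ : ℝ) : Finset (k[X] × k[X]) :=
  (Mo k N ×ˢ Vs k z H N).filter (fun p => Rough al z (N / H) (gg p.1 p.2) ∧
    Irreducible (gg p.1 p.2) ∧ mu (FQ al (gg p.1 p.2)) = σ)

end Pool.Agent.P.MP_6f5b02_nt.CP
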