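import Pool.Agent.P.MP_6f5b02_nt.CP.Basic

/-! The steps of the project on prime arguments in characteristic two, as statements. -/

namespace Pool.Agent.P.MP_6f5b02_nt.CP

open Polynomial Finset Filter
open Pool.Agent.P.MP_8be758_nt Pool.Agent.P.MP_8be758_nt.C2 Pool.Agent.P.MP_8be758_nt.L2
open scoped Classical

/-! ### Cancellation on fibres -/

-- deps:
def Q_LOCF : Prop :=
  ∀ (k : Type) [Field k] [Finite k] [CharP k 2] (P U V U0 a V0 b w c : k[X]), IsPr P →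
    U = U0 ^ 2 + X * a ^ 2 → V = V0 ^ 2 + X * b ^ 2 → P ∣ V → ¬ P ∣ derivative V →
    P ∣ w * U - 1 → P ∣ c ^ 2 - X * derivative V ^ 2 →
    lp P (w * (X * a ^ 2 * b ^ 2 + a ^ 3 * U0 + X * b ^ 3 * V0)) (derivative V) =
      lp P ((derivative U + c) ^ 3) (U * derivative V ^ 2)

-- deps: Q_LOCF C2.S_FORM C2.S_SPLIT
def Q_DEC : Prop :=
  ∀ (k : Type) [Field k] [Finite k] [CharP k 2] (V V1 : k[X]) (s : Finset k[X]), V1 ≠ 0 →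
    V = V1 * pr s → (∀ P ∈ s, IsPr P ∧ ¬ P ∣ V1) →
    ∃ (a0 : k[X] → ℝ) (c : k[X] → k[X]) (e : ℕ → ℝ), (∀ U, |a0 U| ≤ 1) ∧
      (∀ U S, a0 (U + V1 ^ 2 * S) = a0 U) ∧ (∀ D, |e D| ≤ 1) ∧ (∀ P ∈ s, ¬ P ∣ derivative V) ∧
      ∀ U : k[X], U.Monic → V.natDegree < U.natDegree →
        mu (gg U V) = e U.natDegree * psi (res (U * V ^ 2) (X * derivative U ^ 3)) * a0 U *
          ∏ P ∈ s, lk P ((derivative U + c P) ^ 3) (U * derivative V ^ 2)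

-- deps: C2.S_VDC
def Q_GOW : Prop :=
  ∀ (k : Type) [Field k] [Finite k] [CharP k 2] (L H : ℕ) (l : List (k[X] × (k[X] → ℝ)))
    (b : k[X] → ℝ),
    (∀ p ∈ l, p.1.natDegree + H ≤ L ∧ (∀ x, |p.2 x| ≤ 1) ∧ ∀ x y, p.2 (x + p.1 * y) = p.2 x) →
    (|∑ x ∈ low k L, (l.map fun p => p.2 x).prod * b x| / qq k ^ L) ^ 2 ^ l.length ≤
      NG L H (l.map Prod.fst) b

-- deps:
def Q_INF : Prop :=
  ∀ (k : Type) [Field k] [Finite k] [CharP k 2] (U W Y0 : k[X]) (E E1 : k[X] → k[X])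
    (L ω i0 : ℕ), U.Monic → W ≠ 0 → (∀ x y, E (x + y) = E x + E y) →
    (∀ x y, E1 (x + y) = E1 x + E1 y) →
    (∀ x ∈ low k L, (E x).natDegree + ω ≤ U.natDegree ∧ (E1 x).natDegree ≤ U.natDegree) →
    Y0.natDegree ≤ U.natDegree → 1 ≤ ω → 2 * U.natDegree + 3 ≤ i0 * ω →
    Deg L (i0 + 2) (fun x => res ((U + E x) * W) (X * (Y0 + E1 x) ^ 3))

-- deps:
def Q_QUAD : Prop :=
  ∀ (K : Type) [Field K] [Fintype K] [CharP K 2] (κ A B : K), κ ≠ 0 →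
    |∑ y : K, psi (κ * y ^ 3 + A * y ^ 2 + B * y)| ≤ 2 * √(Fintype.card K : ℝ)

-- deps: Q_QUAD
def Q_LOC0 : Prop :=
  ∀ (K : Type) [Field K] [Fintype K] [CharP K 2] (M : ℕ) (f : K → K → ℝ), Loc K M f →
    ∑ x : K, |∑ y : K, f x y| ≤
      (Fintype.card K : ℝ) * (2 * √(Fintype.card K : ℝ)) + 2 * M * (Fintype.card K : ℝ)

-- deps:
def Q_LOC1 : Prop :=
  ∀ (K : Type) [Field K] [Fintype K] [CharP K 2] (M : ℕ) (f : K → K → ℝ), Loc K M f →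
    ∃ Bad : Finset K, Bad.card ≤ M ^ 2 ∧ ∀ x1 ∉ Bad, ∀ y1,
      Loc K (2 * M) (fun x y => f x y * f (x + x1) (y + y1))

-- deps:
def Q_LOCM : Prop :=
  ∀ (K : Type) [Field K] [Fintype K] [CharP K 2] (β c1 c2 a0 : K) (i j : ℕ), β ≠ 0 → a0 ≠ 0 →
    Md i j → Loc K 3 (fun x y => (if x = 0 then 0 else psi ((y + c1) ^ 3 / (x * β))) ^ i *
      (if x ^ 2 + x + a0 = 0 then 0 else psi ((y + c2) ^ 3 / ((x ^ 2 + x + a0) * β))) ^ j)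

-- deps:
def Q_EQD : Prop :=
  ∀ (k K : Type) [Field k] [Finite k] [Field K] [Fintype K] (φ : k[X] →+* K) (P c : k[X])
    (H : ℕ) (F : K → ℝ), IsPr P → Function.Surjective φ → (∀ x, φ x = 0 ↔ P ∣ x) → ¬ P ∣ c →
    P.natDegree ≤ H →
    (Fintype.card K : ℝ) * ∑ y ∈ low k H, F (φ (c * y)) = qq k ^ H * ∑ x : K, F x

-- deps: Q_LOC0 Q_LOC1 Q_EQD
def Q_NGB : Prop :=
  ∀ (k K : Type) [Field k] [Finite k] [CharP k 2] [Field K] [Fintype K] [CharP K 2]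
    (φ : k[X] →+* K) (P m : k[X]) (L H : ℕ) (x0 y0 : K), IsPr P → Function.Surjective φ →
    (∀ x, φ x = 0 ↔ P ∣ x) → ¬ P ∣ m → P.natDegree ≤ H → 2 * P.natDegree ≤ L →
    ∀ (R : List k[X]) (M : ℕ) (p : k[X] → k) (f : K → K → ℝ) (b : k[X] → ℝ),
      (∀ r ∈ R, ¬ P ∣ r ∧ r.natDegree + H ≤ L) → Deg L R.length p → Loc K M f →
      (∀ x ∈ low k L, b x = psi (p x) * f (x0 + φ (m * x)) (y0 + φ (derivative (m * x)))) →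
      NG L H R b ≤ 2 / √(Fintype.card K : ℝ) +
        3 * ((M : ℝ) * 2 ^ R.length) ^ 2 / (Fintype.card K : ℝ)

-- deps: Q_GOW Q_NGB
def Q_TWG : Prop :=
  ∀ (k K : Type) [Field k] [Finite k] [CharP k 2] [Field K] [Fintype K] [CharP K 2]
    (φ : k[X] →+* K) (P m V1 : k[X]) (s : Finset k[X]) (y H : ℕ) (x0 y0 : K)
    (A0 Φ : k[X] → ℝ) (a : k[X] → k[X] → ℝ) (p : k[X] → k) (f : K → K → ℝ),
    IsPr P → Function.Surjective φ → (∀ x, φ x = 0 ↔ P ∣ x) → ¬ P ∣ m → ¬ P ∣ V1 →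
    V1.natDegree ≤ y → P.natDegree ≤ 2 * y → qq k ^ y ≤ (Fintype.card K : ℝ) → s.card ≤ H →
    (∀ Q ∈ s, ¬ P ∣ Q ∧ Q.natDegree ≤ 2 * y ∧ (∀ x, |a Q x| ≤ 1) ∧
      ∀ x t, a Q (x + Q ^ 2 * t) = a Q x) →
    (∀ x, |A0 x| ≤ 1) → (∀ x t, A0 (x + V1 ^ 2 * t) = A0 x) →
    Deg (6 * y) (H + 3) p → Loc K 3 f →
    (∀ x ∈ low k (6 * y), Φ x = A0 x * (∏ Q ∈ s, a Q x) *
      (psi (p x) * f (x0 + φ (m * x)) (y0 + φ (derivative (m * x))))) →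
    (|∑ x ∈ low k (6 * y), Φ x| / qq k ^ (6 * y)) ^ 2 ^ (H + 3) ≤
      2 / √(qq k) ^ y + 27 * 4 ^ (H + 3) / qq k ^ y

-- deps: Q_DEC Q_INF Q_LOCM Q_TWG
def Q_TW : Prop :=
  ∀ (k : Type) [Field k] [Finite k] [CharP k 2] (al v m u0 : k[X]) (z y H N i j : ℕ), al ≠ 0 →
    al.natDegree ≤ y → 1 ≤ y → Md i j → v ∈ Mo k (N - 1) → Nice z y H v → m.Monic →
    m.natDegree + 8 * y ≤ N → u0 ∈ Mo k N → 2 * N + 3 ≤ (H + 1) * (2 * y + 1) →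
    (|∑ x ∈ low k (6 * y), mu (gg (u0 + m * x) v) ^ i * mu (FQ al (gg (u0 + m * x) v)) ^ j| /
      qq k ^ (6 * y)) ^ 2 ^ (H + 3) ≤ 2 / √(qq k) ^ y + 27 * 4 ^ (H + 3) / qq k ^ y

-- deps: Q_TW
def Q_TWS : Prop :=
  ∀ (k : Type) [Field k] [Finite k] [CharP k 2] (al : k[X]) (z H : ℕ), al ≠ 0 → 1 ≤ H →
    ∃ κ n0 : ℕ, 1 ≤ κ ∧ ∀ N ≥ n0, ∀ v ∈ Vs k z H N, ∀ (m : k[X]) (U : Finset k[X]) (σ : ℝ),
      m.Monic → m.natDegree + 8 * (N / H) ≤ N → U ⊆ Mo k N →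
      (∀ u ∈ U, ∀ x ∈ low k (6 * (N / H)), u + m * x ∈ U) → |σ| ≤ 1 →
      |∑ u ∈ U, osc al σ (gg u v)| ≤ (U.card : ℝ) / 2 ^ (N / κ)

/-! ### The sieve -/

-- deps:
def Q_FL : Prop :=
  ∃ C1 : ℕ, 1 ≤ C1 ∧ ∀ (k : Type) [Field k] [Finite k] (s y : ℕ) (P : Finset k[X]), 1 ≤ s →
    1 ≤ y → P ⊆ Pr k y → ∃ la De : Finset k[X] → ℝ, Sv P (C1 * s * y) s la De

-- deps:
def Q_GAU : Prop :=
  ∀ (k : Type) [Field k] [Finite k] (a : ℕ), 1 ≤ a →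
    qq k ^ a ≤ (a : ℝ) * (Pd k a).card + 2 * √(qq k) ^ a

-- deps:
def Q_RES : Prop :=
  ∀ (k : Type) [Field k] [Finite k] (E : Finset k[X]) (B : k[X] → k[X] → Prop),
    (∀ P ∈ E, IsPr P) → (∀ P ∈ E, ∀ x t, B P (x + P * t) ↔ B P x) →
    ((low k (dg E)).filter (fun ρ => ∀ P ∈ E, B P ρ)).card =
      ∏ P ∈ E, ((low k P.natDegree).filter (B P)).card

-- deps: Q_RES
def Q_CNT : Prop :=
  ∀ (k : Type) [Field k] [Finite k] [CharP k 2] (al v : k[X]) (z y N : ℕ) (D E : Finset k[X]),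
    (∀ P ∈ D, IsPr P) → (∀ P ∈ E, IsPr P) → Disjoint D E → dg D + dg E ≤ N →
    (((Mo k N).filter (fun u => pr D ∣ gg u v ∧ ∀ P ∈ E, Bp al z y P (gg u v))).card : ℝ) =
      qq k ^ N * ww D * ∏ P ∈ E, hp al z y P

-- deps: L2.S_GAUSS
def Q_HP : Prop :=
  ∀ (k : Type) [Field k] [Finite k] (al : k[X]) (z y : ℕ), 2 ≤ z →
    (∀ P : k[X], IsPr P → 1 / qq k ^ P.natDegree ≤ hp al z y P ∧
      hp al z y P ≤ 3 / qq k ^ P.natDegree ∧ 0 ≤ hp al z y P ∧ hp al z y P ≤ 1 / 2) ∧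
    ∀ (T : Finset k[X]) (a : ℕ), (∀ P ∈ T, IsPr P) → 1 ≤ a →
      ∑ P ∈ T.filter (fun P => P.natDegree = a), hp al z y P ≤ 3 / (a : ℝ)

-- deps: L2.S_GAUSS
def Q_PRD : Prop :=
  ∀ (k : Type) [Field k] [Finite k] (y n : ℕ) (t : ℕ → ℝ), (∀ a, 0 ≤ t a) →
    ∑ S ∈ (Rg k y n).powerset, (∏ P ∈ S, t P.natDegree) * ww S ≤
      Real.exp (∑ a ∈ Ioc y n, t a / a)

-- deps:
def Q_MPHI : Prop :=
  ∀ (k : Type) [Field k] [Finite k] (y J N : ℕ), y < J → J ≤ N →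
    (y : ℝ) ≤ ∑ D ∈ (Rg k y N).powerset.filter (fun D => dg D ≤ J),
      sg D * ((N : ℝ) - dg D) * ww D

-- deps:
def Q_ID : Prop :=
  ∀ (k : Type) [Field k] (A : Finset k[X]) (N J : ℕ), dg A = 2 * N → J < N →
    (1 - sg A) * (AA N J A + EE N J A) = if A.card = 1 then 2 * (N : ℝ) else 0

-- deps: Q_CNT Q_HP
def Q_MD : Prop :=
  ∀ (k : Type) [Field k] [Finite k] [CharP k 2] (al v : k[X]) (z y N Lv s : ℕ)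
    (la De : Finset k[X] → ℝ) (D : Finset k[X]) (σ τ : ℝ), 2 ≤ z → 1 ≤ y → |σ| ≤ 1 → 0 ≤ τ →
    Sv (Pr k y) Lv s la De → D ⊆ Rg k y N → dg D + Lv ≤ N →
    (∀ E ⊆ Pr k y, dg E ≤ Lv →
      |∑ u ∈ (Mo k N).filter (fun u => pr D ∣ gg u v ∧ ∀ P ∈ E, Bp al z y P (gg u v)),
        osc al σ (gg u v)| ≤
      τ * ((Mo k N).filter (fun u => pr D ∣ gg u v ∧ ∀ P ∈ E, Bp al z y P (gg u v))).card) →
    |∑ u ∈ (Mo k N).filter (fun u => Rough al z y (gg u v) ∧ pr D ∣ gg u v),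
        (1 + osc al σ (gg u v)) - qq k ^ N * ww D * VV al z y| ≤
      qq k ^ N * ww D * (5 * VV al z y / 2 ^ s + 21 * τ * (y : ℝ) ^ 3)

-- deps: Q_MD Q_MPHI Q_PRD Q_HP
def Q_MAIN : Prop :=
  ∀ (k : Type) [Field k] [Finite k] [CharP k 2] (al v : k[X]) (z y N J Lv s : ℕ)
    (la De : Finset k[X] → ℝ) (σ τ : ℝ), 2 ≤ z → 1 ≤ y → |σ| ≤ 1 → 0 ≤ τ →
    Sv (Pr k y) Lv s la De → y < J → J + Lv + 8 * y ≤ N → v ∈ low k N →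
    (∀ (m : k[X]) (U : Finset k[X]), m.Monic → m.natDegree + 8 * y ≤ N → U ⊆ Mo k N →
      (∀ u ∈ U, ∀ x ∈ low k (6 * y), u + m * x ∈ U) →
      |∑ u ∈ U, osc al σ (gg u v)| ≤ τ * U.card) →
    qq k ^ N * (VV al z y * (y - 5 * (N : ℝ) ^ 2 / (y * 2 ^ s)) - 21 * τ * (N : ℝ) ^ 4) ≤
      ∑ u ∈ (Mo k N).filter (fun u => Rough al z y (gg u v)),
        (1 + osc al σ (gg u v)) * AA N J (pf (gg u v))

-- deps: L2.S_SQ2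
def Q_NEGL : Prop :=
  ∀ (k : Type) [Field k] [Finite k] [CharP k 2] (al v : k[X]) (z y H N : ℕ), z ≤ y → 1 ≤ N →
    v ∈ Mo k (N - 1) → Nice z y H v →
    (((Mo k N).filter (fun u => Rough al z y (gg u v) ∧ Nsq al (gg u v))).card : ℝ) *
      qq k ^ y ≤ 3 * N * qq k ^ N

/-! ### The window in the middle -/

-- deps:
def Q_FEJ : Prop :=
  ∀ (f : ℤ → ℝ) (y n : ℕ), (Function.support f).Finite → 1 ≤ y → y ≤ n →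
    ∑ a ∈ Ioc y n, nrm (fun x => f x - f (x + a)) / a ≤ (2 * Real.log (n / y) + 5) * nrm f

-- deps: Q_FEJ L2.S_GAUSS
def Q_OPN : Prop :=
  ∀ (k : Type) [Field k] [Finite k] (ψ : ℤ → ℝ) (y n : ℕ), (Function.support ψ).Finite →
    1 ≤ y → y ≤ n →
    ∑ S ∈ (Rg k y n).powerset, (2 / 3 : ℝ) ^ S.card * ww S * nrm (Gf ψ S) ≤
      Real.exp 4 * ((n : ℝ) / y) ^ (4 / 3 : ℝ) * nrm ψ

-- deps: Q_PRD
def Q_RNK : Prop :=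
  ∀ (k : Type) [Field k] [Finite k] (y a : ℕ) (D : ℝ), 1 ≤ y → y ≤ a →
    ∑ S ∈ (Rg k y a).powerset.filter (fun S => D ≤ dg S), (3 / 2 : ℝ) ^ S.card * ww S ≤
      Real.exp 3 * ((a : ℝ) / y) ^ (3 / 2 : ℝ) * Real.exp (-(D / a))

-- deps: Q_OPN Q_RNK
def Q_ETF1 : Prop :=
  ∃ C : ℝ, 0 < C ∧ ∀ (k : Type) [Field k] [Finite k] (ψ : ℤ → ℝ) (y n : ℕ),
    (Function.support ψ).Finite → 1 ≤ y → y ≤ n → (∀ x : ℤ, 4 * x < n → ψ x = 0) →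
    (∑ a ∈ Ioc y n, ((n : ℝ) / a) ^ 2 / a *
      ∑ S ∈ (Rg k y a).powerset, ww S * |Gf ψ S a|) ^ 2 ≤
      C * ((n : ℝ) / y) ^ (17 / 6 : ℝ) * nrm ψ / n

-- deps: Q_PRD L2.S_GAUSS
def Q_ETF2 : Prop :=
  ∀ (k : Type) [Field k] [Finite k] (ψ : ℤ → ℝ) (y n : ℕ), 1 ≤ y → ψ 0 = 0 →
    ∑ a ∈ Ioc y n, (∑ S ∈ Tp k y n a, |Gf ψ S 0| * ww S) / a ≤
      2 / (n : ℝ) * ∑ a ∈ Ioc y n, ((n : ℝ) / a) ^ 2 / a *
        ∑ S ∈ (Rg k y a).powerset, ww S * |Gf ψ S a|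

-- deps: Q_ETF1 Q_ETF2
def Q_ETF : Prop :=
  ∃ C : ℝ, 0 < C ∧ ∀ (k : Type) [Field k] [Finite k] (y N J : ℕ), 1 ≤ y → y ≤ N → J < N →
    N ≤ 2 * J →
    ∑ a ∈ Ioc y (2 * N), (∑ S ∈ Tp k y (2 * N) a, ee N J S * ww S) / a ≤
      C * (2 * (N : ℝ) / y) ^ (17 / 12 : ℝ) * (((N : ℝ) - J) / (2 * N)) ^ (3 / 2 : ℝ)

-- deps:
def Q_EEB : Prop :=
  ∀ (k : Type) [Field k] (S : Finset k[X]) (N J : ℕ),
    ee N J S ≤ 2 * N * 2 ^ S.card ∧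
    ∀ P ∉ S, dg S + P.natDegree = 2 * N → |EE N J (insert P S)| ≤ ee N J S

/-! ### The level of distribution -/

-- deps: L2.S_ORTH
def Q_LSD : Prop :=
  ∀ (k : Type) [Field k] [Finite k] [CharP k 2] (D : ℕ) (M M' τ τ' : k[X]), M ∈ Mo k D →
    M' ∈ Mo k D → M ∣ τ ^ 2 - X → M' ∣ τ' ^ 2 - X → M ≠ M' →
    ∑ y ∈ low k D, psi (res M (y * τ)) * psi (res M' (y * τ')) = 0

-- deps: Q_LSD
def Q_LS : Prop :=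
  ∀ (k : Type) [Field k] [Finite k] [CharP k 2] (D : ℕ) (T : Finset k[X]) (τ : k[X] → k[X])
    (c : k[X] → ℝ), T ⊆ Mo k D → (∀ M ∈ T, M ∣ τ M ^ 2 - X) →
    ∑ M ∈ T, (∑ y ∈ low k D, c y * psi (res M (y * τ M))) ^ 2 ≤
      qq k ^ D * ∑ y ∈ low k D, c y ^ 2

-- deps:
def Q_DIV : Prop :=
  ∀ (k : Type) [Field k] [Finite k] (a b : ℕ),
    (((((low k a).erase 0 ×ˢ (low k b).erase 0) ×ˢ ((low k a).erase 0 ×ˢ (low k b).erase 0)).filter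
      (fun p => p.1.1 * p.1.2 = p.2.1 * p.2.2)).card : ℝ) ≤ a * b * qq k ^ (a + b + 2)

-- deps: L2.S_RF L2.S_ROOT
def Q_LEV1 : Prop :=
  ∀ (k : Type) [Field k] [Finite k] [CharP k 2] (N : ℕ) (W E S : Finset k[X]) (ρ τ γ : k[X]),
    (∀ P ∈ E, IsPr P) → (∀ P ∈ S, IsPr P) → Disjoint S E → pr S * pr E ∣ τ ^ 2 - X →
    pr E ∣ (pr S * γ) ^ 2 - ρ →
    (dg S + dg E ≤ N → rm N W E ρ S = 0) ∧
    (N < dg S + dg E → rm N W E ρ S =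
      (∑ p ∈ (low k (dg S + dg E - N)).erase 0 ×ˢ W,
        psi (p.1.coeff (dg S + dg E - N - 1)) * psi (res (pr E) (p.1 * γ)) *
          psi (res (pr S * pr E) (p.1 * p.2 * τ))) / qq k ^ (dg S + dg E - N))

-- deps: Q_LEV1 Q_LS Q_DIV
def Q_LEV : Prop :=
  ∀ (k : Type) [Field k] [Finite k] [CharP k 2] (N D1 : ℕ) (W E : Finset k[X]) (ρ : k[X])
    (T : Finset (Finset k[X])), W ⊆ (low k N).erase 0 → (∀ P ∈ E, IsPr P) →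
    (∀ S ∈ T, (∀ P ∈ S, IsPr P) ∧ dg S = D1 ∧ Disjoint S E) → D1 + dg E ≤ 2 * N →
    ∑ S ∈ T, |rm N W E ρ S| ≤ N * qq k ^ (N + dg E + 1) * √(qq k) ^ (D1 + dg E)

-- deps: Q_RES Q_HP
def Q_UP1 : Prop :=
  ∀ (k : Type) [Field k] [Finite k] (al : k[X]) (z y N a y' Lv : ℕ) (W S : Finset k[X])
    (la De : Finset k[X] → ℝ), 2 ≤ z → y' < a → Sv (Pr k y') Lv 1 la De → (∀ P ∈ S, IsPr P) →
    cn al z y N a W S ≤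
      3 / 2 * (qq k ^ N * W.card * ww S) * ∏ P ∈ Pr k y' \ S, (1 - hp al z y P) +
      ∑ E ∈ (Sle k Lv).filter (fun E => Disjoint S E), ∑ ρ ∈ low k (dg E), |rm N W E ρ S|

-- deps: Q_GAU Q_HP
def Q_VC : Prop :=
  ∀ C2 : ℕ, 1 ≤ C2 → ∃ C : ℝ, 0 < C ∧ ∀ (k : Type) [Field k] [Finite k] (al : k[X])
    (z y a : ℕ) (S : Finset k[X]), 2 ≤ z → C2 ≤ y → y < a → S ⊆ Rg k y a → S.card ≤ 2 ^ y →
    ∏ P ∈ Pr k (a / C2) \ S, (1 - hp al z y P) ≤ C * VV al z y * y / a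

-- deps: Q_FL Q_UP1 Q_VC Q_LEV
def Q_UP : Prop :=
  ∃ (C : ℝ) (y0 : ℕ), 0 < C ∧ ∀ (k : Type) [Field k] [Finite k] [CharP k 2] (al : k[X])
    (z y N a : ℕ) (W : Finset k[X]) (φ : Finset k[X] → ℝ) (B : ℝ), 2 ≤ z → y0 ≤ y → y < a →
    a ≤ 2 * N → 2 * N ≤ 2 ^ y → W ⊆ (low k N).erase 0 → 0 ≤ B →
    (∀ S ∈ Tp k y (2 * N) a, 0 ≤ φ S ∧ φ S ≤ B) →
    ∑ S ∈ Tp k y (2 * N) a, φ S * cn al z y N a W S ≤
      C * (qq k ^ N * W.card * VV al z y * y) * ((∑ S ∈ Tp k y (2 * N) a, φ S * ww S) / a) +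
      B * N * qq k ^ (2 * N + 2) / 2 ^ (y / 4)

-- deps: Q_EEB
def Q_ERR1 : Prop :=
  ∀ (k : Type) [Field k] [Finite k] (al : k[X]) (z y N J : ℕ) (W : Finset k[X]), 1 ≤ N →
    W ⊆ low k N →
    ∑ p ∈ (Rs al z y N W).filter (fun p => Squarefree (gg p.1 p.2)),
        |EE N J (pf (gg p.1 p.2))| ≤
      ∑ a ∈ Ioc y (2 * N), ∑ S ∈ Tp k y (2 * N) a, ee N J S * cn al z y N a W S

-- deps: Q_ERR1 Q_UP Q_ETF Q_EEB Q_HP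
def Q_ERR : Prop :=
  ∃ (C : ℝ) (y0 : ℕ), 0 < C ∧ ∀ (k : Type) [Field k] [Finite k] [CharP k 2] (al : k[X])
    (z y N J G : ℕ) (W : Finset k[X]), 2 ≤ z → y0 ≤ y → 1 ≤ y → y ≤ N → J < N → N ≤ 2 * J →
    2 * N ≤ 2 ^ y → 2 * N ≤ G * y → W ⊆ (low k N).erase 0 →
    ∑ p ∈ (Rs al z y N W).filter (fun p => Squarefree (gg p.1 p.2)),
        |EE N J (pf (gg p.1 p.2))| ≤
      C * (qq k ^ N * W.card * VV al z y * y) *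
        ((2 * (N : ℝ) / y) ^ (17 / 12 : ℝ) * (((N : ℝ) - J) / (2 * N)) ^ (3 / 2 : ℝ)) +
      4 * (N : ℝ) ^ 3 * 2 ^ G * qq k ^ (2 * N + 2) / 2 ^ (y / 4)

/-! ### The admissible second halves -/

-- deps: L2.S_GAUSS
def Q_NI1 : Prop :=
  ∀ (k : Type) [Field k] [Finite k] (z y w j : ℕ), 4 ≤ y → j * w ≤ y → ∀ d : ℕ,
    2 * dg (Pr k z) + 2 * j * y + w * j * (j + 1) ≤ 2 * d →
    2 * d + w * j ≤ 2 * y + 2 * j * y + w * j * j →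
    ((w : ℝ) / (4 * y)) ^ j * qq k ^ d / qq k ^ dg (Pr k z) ≤
      ((Mo k d).filter (fun v => ∃ (V1 : k[X]) (s : Finset k[X]), v = V1 * pr s ∧
        V1.natDegree ≤ y ∧ (∀ P ∈ Pr k z, ¬ P ∣ V1) ∧ s.card = j ∧
        ∀ P ∈ s, IsPr P ∧ y < P.natDegree ∧ P.natDegree ≤ y + j * w)).card

-- deps: Q_NI1
def Q_NICE : Prop :=
  ∀ (k : Type) [Field k] [Finite k] (z H : ℕ), 3 ≤ H → ∃ (c : ℝ) (n0 : ℕ), 0 < c ∧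
    ∀ N ≥ n0, c * qq k ^ N ≤ (Vs k z H N).card

/-! ### The sieve product -/

-- deps:
def Q_AS : Prop :=
  ∀ (K : Type) [Field K] [Fintype K] [CharP K 2] (a : K),
    ((univ.filter (fun x : K => x ^ 2 + x = a)).card : ℝ) = 1 + psi a

-- deps: C2.S_LOC
def Q_CHI : Prop :=
  ∀ (k : Type) [Field k] [Finite k] [CharP k 2] (A : k[X]),
    (∀ f g : k[X], f ≠ 0 → g ≠ 0 → chi A (f * g) = chi A f * chi A g) ∧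
    (∀ P : k[X], IsPr P → chi A P = lp P A 1) ∧
    ∀ h P : k[X], IsPr P → chi (A + h ^ 2 + h) P = chi A P

-- deps: Q_AS Q_CHI
def Q_HPC : Prop :=
  ∀ (k : Type) [Field k] [Finite k] [CharP k 2] (al P : k[X]) (z y : ℕ), IsPr P →
    hp al z y P ≤ (2 + chi (al ^ 2) P) / qq k ^ P.natDegree

-- deps:
def Q_RED : Prop :=
  ∀ (k : Type) [Field k] [Finite k] [CharP k 2] (A : k[X]), ∃ h : k[X],
    (A + h ^ 2 + h).natDegree = 0 ∨ Odd (A + h ^ 2 + h).natDegree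

-- deps:
def Q_CZ : Prop :=
  ∀ (k : Type) [Field k] [Finite k] [CharP k 2] (A : k[X]) (j : ℕ), Odd A.natDegree →
    A.natDegree ≤ j → ∑ f ∈ Mo k j, chi A f = 0

-- deps: Q_CHI L2.S_BIJ
def Q_SQS : Prop :=
  ∀ (k : Type) [Field k] [Finite k] [CharP k 2] (A : k[X]) (D j : ℕ),
    (∀ i, D ≤ i → ∑ f ∈ Mo k i, chi A f = 0) →
    |∑ S ∈ Sc (∅ : Finset k[X]) j, ∏ P ∈ S, chi A P| ≤ 2 * √(qq k) ^ D * √(qq k) ^ j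

-- deps: L2.S_GAUSS
def Q_EUL : Prop :=
  ∀ (k : Type) [Field k] [Finite k] (χ : k[X] → ℝ) (K : ℝ), (∀ P, |χ P| ≤ 1) →
    (∀ j, |∑ S ∈ Sc (∅ : Finset k[X]) j, ∏ P ∈ S, χ P| ≤ K * √(qq k) ^ j) →
    ∃ C : ℝ, ∀ y : ℕ, 2 ≤ y → ∑ P ∈ Pr k y, χ P / qq k ^ P.natDegree ≤ C

-- deps: L2.S_GAUSS Q_GAU
def Q_CST : Prop :=
  ∀ (k : Type) [Field k] [Finite k] [CharP k 2] (a : k), psi a = -1 →
    ∃ C : ℝ, ∀ y : ℕ, ∑ P ∈ Pr k y, chi (Polynomial.C a) P / qq k ^ P.natDegree ≤ C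

-- deps: Q_AS Q_CHI Q_RED Q_CZ Q_SQS Q_EUL Q_CST
def Q_RHO : Prop :=
  ∀ (k : Type) [Field k] [Finite k] [CharP k 2] (A : k[X]), (∀ x : k[X], x ^ 2 + x + A ≠ 0) →
    ∃ C : ℝ, ∀ y : ℕ, 2 ≤ y → ∑ P ∈ Pr k y, chi A P / qq k ^ P.natDegree ≤ C

-- deps: Q_RHO Q_HPC Q_HP L2.S_GAUSS
def Q_MERT : Prop :=
  ∀ (k : Type) [Field k] [Finite k] [CharP k 2] (al : k[X]) (z : ℕ), 2 ≤ z →
    (∀ x : k[X], x ^ 2 + x + al ^ 2 ≠ 0) →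
    ∃ c : ℝ, 0 < c ∧ ∀ y : ℕ, 2 ≤ y → c / (y : ℝ) ^ 2 ≤ VV al z y

/-! ### The end -/

-- deps: Q_ID
def Q_KEY : Prop :=
  ∀ (k : Type) [Field k] [Finite k] (al : k[X]) (z H N J G : ℕ) (σ : ℝ), σ = 1 ∨ σ = -1 →
    J < N → 1 ≤ N / H → 2 * N ≤ G * (N / H) →
    ∑ p ∈ Rs al z (N / H) N (Vs k z H N),
        (1 + osc al σ (gg p.1 p.2)) * AA N J (pf (gg p.1 p.2)) ≤
      4 * N * (Tg al z H N σ).card +
      4 * ∑ p ∈ (Rs al z (N / H) N (Vs k z H N)).filter (fun p => Squarefree (gg p.1 p.2)),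
        |EE N J (pf (gg p.1 p.2))| +
      4 * N * 2 ^ G *
        ((Rs al z (N / H) N (Vs k z H N)).filter (fun p => Nsq al (gg p.1 p.2))).card

-- deps:
def Q_PAR : Prop :=
  ∀ (C1 : ℕ) (C : ℝ), 0 < C → ∃ H s : ℕ, 4 ≤ H ∧ 1 ≤ s ∧ 160 * H ^ 2 ≤ 2 ^ s ∧
    2 * (C1 * s + 8) ≤ H ∧
    C * ((4 * (H : ℝ)) ^ (17 / 12 : ℝ) * (((C1 : ℝ) * s + 8) / (2 * H)) ^ (3 / 2 : ℝ)) ≤ 1 / 32

-- deps: Q_FL Q_PAR Q_TWS Q_MAIN Q_ERR Q_NEGL Q_KEY Q_HP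
def Q_LOW1 : Prop :=
  ∀ (k : Type) [Field k] [Finite k] [CharP k 2] (al : k[X]) (z : ℕ), al ≠ 0 → 2 ≤ z →
    ∃ (H κ n0 : ℕ) (K : ℝ), 4 ≤ H ∧ 1 ≤ κ ∧ ∀ N ≥ n0, ∀ σ : ℝ, σ = 1 ∨ σ = -1 →
      3 / 4 * (qq k ^ N * (Vs k z H N).card * VV al z (N / H) * (N / H : ℕ)) ≤
        4 * N * (Tg al z H N σ).card + K * ((N : ℝ) + 1) ^ 4 * qq k ^ (2 * N) / 2 ^ (N / κ)

-- deps: Q_LOW1 Q_NICE Q_MERT
def Q_LOW : Prop :=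
  ∀ (k : Type) [Field k] [Finite k] [CharP k 2] (al : k[X]) (z : ℕ), 2 ≤ z →
    (∀ x : k[X], x ^ 2 + x + al ^ 2 ≠ 0) →
    ∃ (H n0 : ℕ) (c : ℝ), 1 ≤ H ∧ 0 < c ∧ ∀ N ≥ n0, ∀ σ : ℝ, σ = 1 ∨ σ = -1 →
      c * qq k ^ (2 * N) / (2 * (N : ℝ)) ^ 2 ≤ (Tg al z H N σ).card

-- deps: Q_LOW
def Q_FIN : Prop :=
  ∀ (k : Type) [Field k] [Finite k] [CharP k 2] (al : k[X]),
    (∀ x : k[X], x ^ 2 + x + al ^ 2 ≠ 0) →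
    ∃ (r : ℕ) (c : ℝ), 0 < c ∧ ∀ᶠ N : ℕ in atTop, ∀ e : ℕ,
      c * (Nat.card k : ℝ) ^ (2 * N) / (2 * (N : ℝ)) ^ 2 ≤
        (Set.ncard {P : k[X] | P.Monic ∧ Irreducible P ∧ P.natDegree = 2 * N ∧
          Squarefree (P ^ 2 + P + al ^ 2) ∧
          (UniqueFactorizationMonoid.normalizedFactors (P ^ 2 + P + al ^ 2)).card ≤ r ∧
          (UniqueFactorizationMonoid.normalizedFactors (P ^ 2 + P + al ^ 2)).card % 2 = e % 2} : ℝ)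

end Pool.Agent.P.MP_6f5b02_nt.CP
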