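import Pool.Agent.P.MP_6f5b02_nt.CP.If

/-! Step ERR1. -/

namespace Pool.Agent.P.MP_6f5b02_nt.CP

open Polynomial Finset Filter
open Pool.Agent.P.MP_8be758_nt Pool.Agent.P.MP_8be758_nt.C2 Pool.Agent.P.MP_8be758_nt.L2
open scoped Classical

theorem c_ERR1 (hEEB : Q_EEB) :
    Q_ERR1 := by
  intro k _ _ al z y N J W hN hW
  calc _ ≤ ∑ p ∈ Mo k N ×ˢ W, ∑ a ∈ Ioc y (2 * N), ∑ S ∈ Tp k y (2 * N) a, ee N J S *
        if Rough al z y (gg p.1 p.2) ∧ ∃ P ∈ Pd k a, gg p.1 p.2 = pr S * P then 1 else 0 := by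
        have h0 : ∀ (p : k[X] × k[X]) a S, 0 ≤ ee N J S * if Rough al z y (gg p.1 p.2) ∧
            ∃ P ∈ Pd k a, gg p.1 p.2 = pr S * P then (1 : ℝ) else 0 := fun p a S =>
          mul_nonneg (ee_nonneg N J S) (by positivity)
        refine le_trans (sum_le_sum fun p hp => ?_) (sum_le_sum_of_subset_of_nonneg
          ((filter_subset _ _).trans (filter_subset _ _)) fun p _ _ =>
            sum_nonneg fun a _ => sum_nonneg fun S _ => h0 p a S)
        obtain ⟨hp, hs⟩ := mem_filter.1 hp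
        obtain ⟨h1, h2, h3⟩ := mem_Rs.1 hp
        obtain ⟨m, d⟩ := mem_Mo.1 (gg_mem h1 (hW h2))
        have hd := (dg_pf m hs).trans d
        obtain ⟨P, hP, hmax⟩ := exists_max_image (pf (gg p.1 p.2)) natDegree
          (nonempty_iff_ne_empty.2 fun e => by rw [e, dg_empty] at hd; omega)
        have hy : ∀ Q ∈ pf (gg p.1 p.2), y < Q.natDegree := fun Q hQ =>
          h3.lt (isPr_of_mem_pf hQ) ((mem_pf m.ne_zero).1 hQ).2
        have e := insert_erase hP
        have hn := notMem_erase P (pf (gg p.1 p.2))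
        have e2 : dg ((pf (gg p.1 p.2)).erase P) + P.natDegree = 2 * N := by
          rw [← hd, add_comm, ← dg_insert hn, e]
        have hS : (pf (gg p.1 p.2)).erase P ∈ Tp k y (2 * N) P.natDegree :=
          mem_Tp.2 ⟨fun Q hQ => mem_Rg.2 ⟨isPr_of_mem_pf (mem_of_mem_erase hQ),
            hy Q (mem_of_mem_erase hQ), hmax Q (mem_of_mem_erase hQ)⟩, e2⟩
        refine le_trans ?_ ((single_le_sum (fun S _ => h0 p _ S) hS).trans (single_le_sum
          (fun a _ => sum_nonneg fun S _ => h0 p a S) (mem_Ioc.2 ⟨hy P hP, by omega⟩)))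
        rw [if_pos ⟨h3, P, mem_Pd.2 ⟨isPr_of_mem_pf hP, rfl⟩, by
          rw [mul_comm, ← pr_insert hn, e, BIJ_pr_pf m hs]⟩, mul_one]
        have := (hEEB k _ N J).2 P hn e2
        rwa [e] at this
    _ = _ := by
        rw [sum_comm]
        refine sum_congr rfl fun a _ => ?_
        rw [sum_comm]
        refine sum_congr rfl fun S _ => ?_
        rw [← mul_sum, cn, card_filter]
        push_cast
        rfl

end Pool.Agent.P.MP_6f5b02_nt.CP
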