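import Pool.Agent.P.MP_6f5b02_nt.CP.If

/-! Step ETF. -/

namespace Pool.Agent.P.MP_6f5b02_nt.CP

open Polynomial Finset Filter
open Pool.Agent.P.MP_8be758_nt Pool.Agent.P.MP_8be758_nt.C2 Pool.Agent.P.MP_8be758_nt.L2
open scoped Classical

theorem c_ETF (hETF1 : Q_ETF1) (hETF2 : Q_ETF2) :
    Q_ETF := by
  obtain ⟨C, hC, h1⟩ := hETF1
  refine ⟨4 * √C, by positivity, fun k _ _ y N J hy hN hJ hJ2 => ?_⟩
  have y0 : (0 : ℝ) < y := by exact_mod_cast hy
  have N0 : (0 : ℝ) < N := by exact_mod_cast hy.trans hN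
  have D0 : (0 : ℝ) < (N : ℝ) - J := sub_pos.2 (by exact_mod_cast hJ)
  have key : ∀ (ψ : ℤ → ℝ) (c : ℤ), (∀ x ∉ Ioo c (c + (N - J)), ψ x = 0) → J ≤ c →
      (∀ x, ψ x ^ 2 ≤ ((N : ℝ) - J) ^ 2) →
      ∑ a ∈ Ioc y (2 * N), (∑ S ∈ Tp k y (2 * N) a, |Gf ψ S 0| * ww S) / a ≤
        2 * √C * (2 * (N : ℝ) / y) ^ (17 / 12 : ℝ) * (((N : ℝ) - J) / (2 * N)) ^ (3 / 2 : ℝ) :=
    fun ψ c f1 f2 f3 => by
      have f4 : nrm ψ ≤ ((N : ℝ) - J) ^ 3 := by
        rw [nrm_eq f1, pow_succ']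
        refine (sum_le_card_nsmul _ _ _ fun x _ => f3 x).trans ?_
        rw [nsmul_eq_mul]
        refine mul_le_mul_of_nonneg_right ?_ (by positivity)
        have : (Ioo c (c + (N - J))).card + J ≤ N := by rw [Int.card_Ioo]; omega
        exact le_sub_iff_add_le.2 (by exact_mod_cast this)
      refine (hETF2 k ψ y (2 * N) hy (f1 0 (by rw [mem_Ioo]; omega))).trans ?_
      have a := (h1 k ψ y (2 * N) ((Ioo c (c + (N - J))).finite_toSet.subset fun x hx => by
        by_contra h; exact hx (f1 x h)) hy (by omega)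
        fun x hx => f1 x (by rw [mem_Ioo]; omega)).trans (div_le_div_of_nonneg_right
          (mul_le_mul_of_nonneg_left f4 (by positivity)) (by positivity))
      have e : C * (((2 * N : ℕ) : ℝ) / y) ^ (17 / 6 : ℝ) * ((N : ℝ) - J) ^ 3 / (2 * N : ℕ) =
          (√C * (2 * (N : ℝ) / y) ^ (17 / 12 : ℝ) * (((N : ℝ) - J) / (2 * N)) ^ (3 / 2 : ℝ) *
            (2 * N)) ^ 2 := by
        rw [mul_pow, mul_pow, mul_pow, Real.sq_sqrt hC.le, ← Real.rpow_mul_natCast (by positivity),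
          ← Real.rpow_mul_natCast (by positivity), show (3 / 2 : ℝ) * (2 : ℕ) = (3 : ℕ) by norm_num,
          Real.rpow_natCast, show (17 / 12 : ℝ) * (2 : ℕ) = 17 / 6 by norm_num]
        push_cast
        field_simp
      refine (mul_le_mul_of_nonneg_left (abs_le_of_sq_le_sq' (a.trans_eq e) (by positivity)).2
        (by positivity)).trans (le_of_eq ?_)
      push_cast
      field_simp
  have h2 : ∀ x, ps1 N J x ^ 2 ≤ ((N : ℝ) - J) ^ 2 := fun x => by
    unfold ps1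
    split_ifs with h
    · have a1 : (x : ℝ) < N := by exact_mod_cast h.2
      have a2 : (J : ℝ) < x := by exact_mod_cast h.1
      exact pow_le_pow_left₀ (by linarith) (by linarith) _
    · rw [zero_pow two_ne_zero]; positivity
  have k1 := key (ps1 N J) J (fun x hx => if_neg (by rw [mem_Ioo] at hx; omega)) le_rfl h2
  have k2 := key (ps2 N J) N (fun x hx => if_neg (by rw [mem_Ioo] at hx; omega)) (by omega)
    fun x => h2 _
  simp only [ee, add_mul, sum_add_distrib, add_div]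
  linarith

end Pool.Agent.P.MP_6f5b02_nt.CP
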