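import Pool.Agent.P.MP_6f5b02_nt.CP.If

/-! Step EUL. -/

namespace Pool.Agent.P.MP_6f5b02_nt.CP

open Polynomial Finset Filter
open Pool.Agent.P.MP_8be758_nt Pool.Agent.P.MP_8be758_nt.C2 Pool.Agent.P.MP_8be758_nt.L2
open scoped Classical

theorem EUL_log {x : ℝ} (h : |x| ≤ 1 / 2) : Real.exp (x - 2 * x ^ 2) ≤ 1 + x := by
  obtain ⟨h1, h2⟩ := abs_le.1 h
  rw [← neg_sub, Real.exp_neg, inv_le_iff_one_le_mul₀ (Real.exp_pos _)]
  nlinarith [mul_le_mul_of_nonneg_right (Real.add_one_le_exp (2 * x ^ 2 - x))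
    (show 0 ≤ 1 + x by linarith), mul_nonneg (sq_nonneg x) (show 0 ≤ 1 + 2 * x by linarith)]

theorem EUL_geo {r : ℝ} (h0 : 0 ≤ r) (h1 : r < 1) (s : Finset ℕ) : ∑ i ∈ s, r ^ i ≤ (1 - r)⁻¹ :=
  ((summable_geometric_of_lt_one h0 h1).sum_le_tsum s fun _ _ => by positivity).trans_eq
    (tsum_geometric_of_lt_one h0 h1)

theorem c_EUL (_hGAUSS : L2.S_GAUSS) :
    Q_EUL := by
  intro k _ _ χ K h1 h2
  have hq := qq_pos (k := k)
  have q2 := two_le_qq (k := k)
  have hK : 0 ≤ K := by simpa using (abs_nonneg _).trans (h2 0)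
  refine ⟨4 * K + 7, fun y hy => ?_⟩
  have y2 : (2 : ℝ) ≤ y := by exact_mod_cast hy
  obtain ⟨r, hr⟩ : ∃ r : ℝ, r = 1 - 1 / y := ⟨_, rfl⟩
  have r0 : 0 ≤ r := by rw [hr, sub_nonneg, div_le_one (by positivity)]; linarith
  have r1 : r < 1 := by rw [hr]; exact sub_lt_self _ (by positivity)
  have ry : (1 - r)⁻¹ = y := by rw [hr, sub_sub_cancel, one_div, inv_inv]
  obtain ⟨n0, hn0⟩ := exists_pow_lt_of_lt_one (show 0 < 1 / (y : ℝ) by positivity) r1
  obtain ⟨n, hn, hny⟩ : ∃ n, r ^ n * y ≤ 1 ∧ y ≤ n := ⟨n0 + y, by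
    rw [← le_div_iff₀ (by positivity)]
    exact (pow_le_pow_of_le_one r0 r1.le (Nat.le_add_right _ _)).trans hn0.le, Nat.le_add_left _ _⟩
  set x : k[X] → ℝ := fun P => χ P * (r / qq k) ^ P.natDegree with hx
  have x1 : ∀ P, |x P| ≤ 1 / qq k ^ P.natDegree := fun P => by
    rw [hx, abs_mul, abs_of_nonneg (show 0 ≤ (r / qq k) ^ P.natDegree by positivity), div_pow]
    exact (mul_le_of_le_one_left (by positivity) (h1 P)).trans
      (div_le_div_of_nonneg_right (pow_le_one₀ r0 r1.le) (by positivity))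
  have pw : ∀ a, 1 / qq k ^ a ≤ (1 / 2) ^ a := fun a => by
    rw [one_div_pow]; exact one_div_le_one_div_of_le (by positivity) (two_pow_le_qq a)
  have b1 : ∏ P ∈ Pr k n, (1 + x P) ≤ 4 * K + 1 := by
    rw [prod_one_add, ← sum_fiberwise_of_maps_to (g := dg) (t := range (dg (Pr k n) + 1))
      fun S hS => mem_range.2 (Nat.lt_succ_of_le (dg_mono (mem_powerset.1 hS)))]
    refine (sum_le_sum (g := fun j => K * (3 / 4) ^ j + if n < j then r ^ j else 0)
      fun j _ => ?_).trans ?_
    · rw [sum_congr rfl fun S hS => show _ = (r / qq k) ^ j * ∏ P ∈ S, χ P by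
        rw [prod_mul_distrib, prod_pow_eq_pow_sum, ← dg, (mem_filter.1 hS).2, mul_comm], ← mul_sum]
      split_ifs with h
      · refine le_add_of_nonneg_of_le (by positivity) ?_
        have := (sum_le_card_nsmul ((Pr k n).powerset.filter fun S => dg S = j) _ 1 fun S _ =>
          (le_abs_self (∏ P ∈ S, χ P)).trans (by
            rw [abs_prod]; exact prod_le_one (fun _ _ => abs_nonneg _) fun P _ => h1 P)).trans
          ((nsmul_one _).trans_le (card_dg_le _ j fun S hS => ⟨fun P hP => (mem_Pr.1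
            (mem_powerset.1 (mem_filter.1 hS).1 hP)).1, (mem_filter.1 hS).2⟩))
        refine (mul_le_mul_of_nonneg_left this (by positivity)).trans (le_of_eq ?_)
        rw [div_pow, div_mul_cancel₀ _ (by positivity)]
      · rw [show (Pr k n).powerset.filter (fun S => dg S = j) = Sc ∅ j from ?_, add_zero]
        · refine (mul_le_mul_of_nonneg_left ((le_abs_self _).trans (h2 j)) (by positivity)).trans ?_
          rw [mul_left_comm, ← mul_pow]
          refine mul_le_mul_of_nonneg_left (pow_le_pow_left₀ (by positivity) ?_ _) hK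
          rw [div_mul_eq_mul_div, mul_div_assoc, Real.sqrt_div_self', mul_one_div,
            div_le_iff₀ (by positivity)]
          have : (4 / 3 : ℝ) ≤ √(qq k) := Real.le_sqrt_of_sq_le (by linarith)
          linarith
        · ext S
          rw [mem_filter, mem_powerset, mem_Sc]
          exact ⟨fun a => ⟨fun P hP => (mem_Pr.1 (a.1 hP)).1, a.2, disjoint_empty_right _⟩,
            fun a => ⟨fun P hP => mem_Pr.2 ⟨a.1 P hP, by have := natDegree_le_dg hP; omega⟩, a.2.1⟩⟩
    · rw [sum_add_distrib, ← mul_sum, ← sum_filter]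
      have a1 := EUL_geo (r := 3 / 4) (by norm_num) (by norm_num) (range (dg (Pr k n) + 1))
      have a2 : ∑ j ∈ (range (dg (Pr k n) + 1)).filter (n < ·), r ^ j ≤ r ^ n * y := by
        rw [← ry]
        refine le_trans ?_ (mul_le_mul_of_nonneg_left (EUL_geo r0 r1
          (((range (dg (Pr k n) + 1)).filter (n < ·)).image (· - n))) (by positivity))
        rw [sum_image fun a ha b hb e => by
          have := (mem_filter.1 ha).2; have := (mem_filter.1 hb).2; omega, mul_sum]
        refine sum_le_sum fun j hj => ?_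
        rw [← pow_add, Nat.add_sub_cancel' (mem_filter.1 hj).2.le]
      norm_num at a1
      nlinarith
  have b2 : ∑ P ∈ Pr k n, (x P - 2 * x P ^ 2) ≤ 4 * K := by
    have := (prod_le_prod (fun P _ => (Real.exp_pos _).le) fun P hP => EUL_log ((x1 P).trans
      ((pw _).trans (pow_le_of_le_one (by norm_num) (by norm_num)
        (by have := (mem_Pr.1 hP).1.pos; omega))))).trans b1
    rw [← Real.exp_sum] at this
    linarith [Real.add_one_le_exp (∑ P ∈ Pr k n, (x P - 2 * x P ^ 2))]
  have pd : ∀ a ∈ Ioc 0 n, ∀ t, 0 ≤ t → (Pd k a).card * (1 / qq k ^ a * t) ≤ t / a := fun a ha t ht => by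
    rw [← mul_assoc, mul_one_div, div_eq_mul_one_div t, mul_comm t]
    exact mul_le_mul_of_nonneg_right (card_Pd_le (mem_Ioc.1 ha).1) ht
  have b3 : ∑ P ∈ Pr k n, x P ^ 2 ≤ 2 := by
    refine (sum_le_sum (g := fun P : k[X] => 1 / qq k ^ P.natDegree * (1 / 2) ^ P.natDegree)
      fun P _ => ?_).trans ?_
    · rw [← sq_abs, sq]
      exact mul_le_mul (x1 P) ((x1 P).trans (pw _)) (abs_nonneg _) (by positivity)
    · rw [Pr_eq_Rg, sum_Rg 0 n fun a => 1 / qq k ^ a * (1 / 2) ^ a]
      refine (sum_le_sum fun a ha => (pd a ha _ (by positivity)).trans (div_le_self (by positivity)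
        (by exact_mod_cast (mem_Ioc.1 ha).1))).trans ((EUL_geo (by norm_num) (by norm_num) _).trans ?_)
      norm_num
  have b4 : ∑ P ∈ Pr k n, ((if P.natDegree ≤ y then χ P / qq k ^ P.natDegree else 0) - x P) ≤ 2 := by
    refine (sum_le_sum (g := fun P : k[X] => 1 / qq k ^ P.natDegree *
      if P.natDegree ≤ y then 1 - r ^ P.natDegree else r ^ P.natDegree) fun P _ => ?_).trans ?_
    · obtain ⟨a1, a2⟩ := abs_le.1 (h1 P)
      have a3 : r ^ P.natDegree ≤ 1 := pow_le_one₀ r0 r1.le
      have a4 : 0 ≤ r ^ P.natDegree := by positivity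
      simp only [hx, div_pow]
      split_ifs
      · rw [mul_div_assoc', ← sub_div, one_div_mul_eq_div]
        exact div_le_div_of_nonneg_right (by nlinarith) (by positivity)
      · rw [mul_div_assoc', zero_sub, ← neg_div, one_div_mul_eq_div]
        exact div_le_div_of_nonneg_right (by nlinarith) (by positivity)
    · rw [Pr_eq_Rg, sum_Rg 0 n fun a => 1 / qq k ^ a * if a ≤ y then 1 - r ^ a else r ^ a]
      refine (sum_le_sum (g := fun a => (if a ≤ y then 1 / (y : ℝ) else 0) + r ^ a / y)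
        fun a ha => ?_).trans ?_
      · have a0 : (0 : ℝ) < a := by exact_mod_cast (mem_Ioc.1 ha).1
        split_ifs with h
        · refine (pd a ha _ (sub_nonneg.2 (pow_le_one₀ r0 r1.le))).trans
            (le_add_of_le_of_nonneg ?_ (by positivity))
          have := one_add_mul_sub_le_pow (show -1 ≤ r by linarith) a
          rw [div_le_iff₀ a0]
          rw [show r - 1 = -(1 / y) by rw [hr]; ring] at this
          linarith
        · rw [zero_add]
          refine (pd a ha _ (by positivity)).trans ?_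
          gcongr
          omega
      · rw [sum_add_distrib, ← sum_filter, sum_const, ← sum_div,
          show (Ioc 0 n).filter (· ≤ y) = Ioc 0 y by ext; simp; omega, Nat.card_Ioc, nsmul_eq_mul,
          Nat.sub_zero, mul_one_div_cancel (by positivity)]
        have := (div_le_one (by positivity)).2 ((EUL_geo r0 r1 (Ioc 0 n)).trans_eq ry)
        linarith
  rw [sum_sub_distrib, ← sum_filter, show (Pr k n).filter (·.natDegree ≤ y) = Pr k y by
    ext P; simp only [mem_filter, mem_Pr]
    exact ⟨fun h => ⟨h.1.1, h.2⟩, fun h => ⟨⟨h.1, h.2.trans hny⟩, h.2⟩⟩] at b4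
  rw [sum_sub_distrib, ← mul_sum] at b2
  linarith

end Pool.Agent.P.MP_6f5b02_nt.CP
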