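import Pool.Agent.P.MP_6f5b02_nt.CP.If

/-! Step LOCF. -/

namespace Pool.Agent.P.MP_6f5b02_nt.CP

open Polynomial Finset Filter
open Pool.Agent.P.MP_8be758_nt Pool.Agent.P.MP_8be758_nt.C2 Pool.Agent.P.MP_8be758_nt.L2
open scoped Classical

theorem LOCF_a {K : Type} [Field K] [Finite K] [CharP K 2] (t U0 a V0 b w c : K)
    (hV : V0 ^ 2 + t * b ^ 2 = 0) (hb : b ≠ 0) (hw : w * (U0 ^ 2 + t * a ^ 2) = 1)
    (hc : c ^ 2 = t * (b ^ 2) ^ 2) :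
    psi (w * (t * a ^ 2 * b ^ 2 + a ^ 3 * U0 + t * b ^ 3 * V0) / b ^ 2) =
      psi ((a ^ 2 + c) ^ 3 / ((U0 ^ 2 + t * a ^ 2) * (b ^ 2) ^ 2)) := by
  have h2 : (2 : K) = 0 := CharTwo.two_eq_zero
  obtain ⟨τ, rfl⟩ := exists_sqrt t
  have sq : ∀ x y : K, x ^ 2 = y ^ 2 → x = y := fun x y h => frobenius_inj K 2 h
  obtain rfl : V0 = τ * b := sq _ _ (by linear_combination hV - τ ^ 2 * b ^ 2 * h2)
  obtain rfl : c = τ * b ^ 2 := sq _ _ (by linear_combination hc)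
  obtain ⟨A, rfl⟩ : ∃ A, U0 = A + τ * a := ⟨U0 - τ * a, by ring⟩
  have e : (A + τ * a) ^ 2 + τ ^ 2 * a ^ 2 = A ^ 2 := by
    linear_combination (A * τ * a + τ ^ 2 * a ^ 2) * h2
  rw [e] at hw ⊢
  have hA : A ≠ 0 := fun h => by simp [h] at hw
  obtain rfl : w = 1 / A ^ 2 := by field_simp; linear_combination hw
  have e1 : 1 / A ^ 2 * (τ ^ 2 * a ^ 2 * b ^ 2 + a ^ 3 * (A + τ * a) + τ ^ 2 * b ^ 3 * (τ * b)) /
      b ^ 2 = a ^ 3 / (A * b ^ 2) +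
        (τ ^ 2 * a ^ 2 * b ^ 2 + τ * a ^ 4 + τ ^ 3 * b ^ 4) / (A ^ 2 * b ^ 2) := by
    field_simp; ring
  have e2 : (a ^ 2 + τ * b ^ 2) ^ 3 / (A ^ 2 * (b ^ 2) ^ 2) = (a ^ 3 / (A * b ^ 2)) ^ 2 +
      (τ ^ 2 * a ^ 2 * b ^ 2 + τ * a ^ 4 + τ ^ 3 * b ^ 4) / (A ^ 2 * b ^ 2) := by
    field_simp
    linear_combination (a ^ 4 * τ * b ^ 2 + a ^ 2 * τ ^ 2 * b ^ 4) * h2
  rw [e1, e2, psi_add, psi_add, psi_sq]

theorem LOCF_b {R K : Type} [CommRing R] [Field K] [Finite K] [CharP K 2] (φ : R →+* K)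
    (t U0 a V0 b w c : R) (hV : φ (V0 ^ 2 + t * b ^ 2) = 0) (hb : φ (b ^ 2) ≠ 0)
    (hw : φ (w * (U0 ^ 2 + t * a ^ 2)) = φ 1) (hc : φ (c ^ 2) = φ (t * (b ^ 2) ^ 2)) :
    psi (φ (w * (t * a ^ 2 * b ^ 2 + a ^ 3 * U0 + t * b ^ 3 * V0)) / φ (b ^ 2)) =
      psi (φ ((a ^ 2 + c) ^ 3) / φ ((U0 ^ 2 + t * a ^ 2) * (b ^ 2) ^ 2)) := by
  simp only [map_add, map_mul, map_pow, map_one] at *
  exact LOCF_a _ _ _ _ _ _ _ hV (fun h => hb (by rw [h]; simp)) hw hc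

theorem c_LOCF :
    Q_LOCF := by
  intro k _ _ _ P U V U0 a V0 b w c hP hU hV h1 h2 h3 h4
  have : Fact (Irreducible P) := ⟨hP.2⟩
  have := finite_adjoinRoot hP.ne_zero
  have := charP_adjoinRoot (P := P)
  have dU : derivative U = a ^ 2 := by rw [hU, derivative_sq_add]
  have dV : derivative V = b ^ 2 := by rw [hV, derivative_sq_add]
  rw [dV] at h2 h4
  rw [dU, dV, lp_eq, lp_eq, hU]
  exact LOCF_b (AdjoinRoot.mk P) X U0 a V0 b w c (AdjoinRoot.mk_eq_zero.2 (hV ▸ h1))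
    (mt AdjoinRoot.mk_eq_zero.1 h2) (AdjoinRoot.mk_eq_mk.2 (hU ▸ h3)) (AdjoinRoot.mk_eq_mk.2 h4)

end Pool.Agent.P.MP_6f5b02_nt.CP
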