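import Pool.Agent.P.MP_6f5b02_nt.CP.If

/-! Step MPHI. -/

namespace Pool.Agent.P.MP_6f5b02_nt.CP

open Polynomial Finset Filter
open Pool.Agent.P.MP_8be758_nt Pool.Agent.P.MP_8be758_nt.C2 Pool.Agent.P.MP_8be758_nt.L2
open scoped Classical

theorem MPHI_a {k : Type} [Field k] [Finite k] (T : Finset k[X]) (hT : ∀ P ∈ T, IsPr P) (j : ℕ) :
    0 ≤ ∑ D ∈ T.powerset.filter (fun D => dg D ≤ j), sg D * ww D := by
  have hq := qq_pos (k := k)
  have e : ∀ D ∈ T.powerset.filter (fun D => dg D ≤ j), qq k ^ j * (sg D * ww D) =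
      ∑ f ∈ Mo k j, if D ⊆ pf f then sg D else 0 := fun D hD => by
    obtain ⟨h1, h2⟩ := mem_filter.1 hD
    have h3 : ∀ P ∈ D, IsPr P := fun P hP => hT P (mem_powerset.1 h1 hP)
    have h4 := card_Gs (monic_pr h3).ne_zero 0 (n := j) (by rwa [natDegree_pr h3])
    rw [← sum_filter, sum_const, nsmul_eq_mul, show (Mo k j).filter (fun f => D ⊆ pf f) =
      Gs (pr D) 0 j from ?_, h4, natDegree_pr h3, ww]
    · ring
    · ext f
      rw [mem_filter, mem_Mo, mem_Gs, sub_zero, and_assoc]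
      exact and_congr_right fun h => and_congr_right fun _ => subset_pf_iff h.ne_zero h3
  refine nonneg_of_mul_nonneg_right ?_ (pow_pos hq j) |> fun h => h
  rw [mul_sum, sum_congr rfl e, sum_comm]
  refine sum_nonneg fun f hf => ?_
  obtain ⟨f1, f2⟩ := mem_Mo.1 hf
  rw [← sum_filter, show (T.powerset.filter fun D => dg D ≤ j).filter (fun D => D ⊆ pf f) =
    (T ∩ pf f).powerset from ?_, sum_sg_powerset]
  · positivity
  · ext D
    simp only [mem_filter, mem_powerset, subset_inter_iff]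
    exact ⟨fun h => ⟨h.1.1, h.2⟩, fun h => ⟨⟨h.1, (dg_mono h.2).trans
      (f2 ▸ dg_pf_le f1.ne_zero)⟩, h.2⟩⟩

theorem c_MPHI :
    Q_MPHI := by
  intro k _ _ y J N hy hJ
  have hT : ∀ P ∈ Rg k y N, IsPr P := fun P hP => (mem_Rg.1 hP).1
  have e : ∀ D ∈ (Rg k y N).powerset.filter (fun D => dg D ≤ J), sg D * ((N : ℝ) - dg D) * ww D =
      (N - J) * (sg D * ww D) + ∑ j ∈ range J, if dg D ≤ j then sg D * ww D else 0 :=
    fun D hD => by
      rw [← sum_filter, sum_const, show (range J).filter (fun j => dg D ≤ j) = Ico (dg D) J by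
        ext; simp [and_comm], Nat.card_Ico, nsmul_eq_mul, Nat.cast_sub (mem_filter.1 hD).2]
      ring
  rw [sum_congr rfl e, sum_add_distrib, ← mul_sum, sum_comm]
  refine le_add_of_nonneg_of_le (mul_nonneg (sub_nonneg.2 (by exact_mod_cast hJ)) (MPHI_a _ hT J)) ?_
  have e2 : ∀ j ∈ range J, (if j < y then (1 : ℝ) else 0) ≤
      ∑ D ∈ (Rg k y N).powerset.filter (fun D => dg D ≤ J),
        if dg D ≤ j then sg D * ww D else 0 := fun j hj => by
    rw [← sum_filter, filter_filter, filter_congr (q := fun D => dg D ≤ j) fun D _ => by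
      have := mem_range.1 hj; omega]
    split_ifs with h
    · rw [sum_eq_single_of_mem ∅ (by simp [dg_empty]) fun D hD h0 => ?_, sg_empty, ww_empty, mul_one]
      obtain ⟨P, hP⟩ := nonempty_iff_ne_empty.2 h0
      obtain ⟨h1, h2⟩ := mem_filter.1 hD
      have := (mem_Rg.1 (mem_powerset.1 h1 hP)).2.1
      have := natDegree_le_dg hP
      omega
    · exact MPHI_a _ hT j
  refine le_trans (le_of_eq ?_) (sum_le_sum e2)
  rw [← sum_filter, show (range J).filter (· < y) = range y by ext; simp; omega]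
  simp

end Pool.Agent.P.MP_6f5b02_nt.CP
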