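import Pool.Agent.P.MP_6f5b02_nt.CP.If

/-! Step NGB. -/

namespace Pool.Agent.P.MP_6f5b02_nt.CP

open Polynomial Finset Filter
open Pool.Agent.P.MP_8be758_nt Pool.Agent.P.MP_8be758_nt.C2 Pool.Agent.P.MP_8be758_nt.L2
open scoped Classical

theorem c_NGB (hLOC0 : Q_LOC0) (hLOC1 : Q_LOC1) (hEQD : Q_EQD) :
    Q_NGB := by
  intro k K _ _ _ _ _ _ φ P m L H x0 y0 hP hs hk hm hH hL
  have hq := qq_pos (k := k)
  have hQ : (0 : ℝ) < Fintype.card K := by exact_mod_cast Fintype.card_pos
  have hd : ¬ P ∣ derivative P := fun h =>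
    hP.2.not_isUnit ((PerfectField.separable_of_irreducible hP.2).isUnit_of_dvd' dvd_rfl h)
  have hmul : ∀ r, ¬ P ∣ r → ¬ P ∣ m * r := fun r hr h => (hP.prime.dvd_or_dvd h).elim hm hr
  have key : ∀ (R : List k[X]) (M : ℕ) (p : k[X] → k) (f : K → K → ℝ) (b : k[X] → ℝ),
      (∀ r ∈ R, ¬ P ∣ r ∧ r.natDegree + H ≤ L) → Deg L R.length p → Loc K M f →
      (∀ x ∈ low k L, b x = psi (p x) * f (x0 + φ (m * x)) (y0 + φ (derivative (m * x)))) →
      NG L H R b ≤ 2 / √(Fintype.card K : ℝ) + (2 * ((M : ℝ) * 2 ^ R.length) +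
        ((M : ℝ) * 2 ^ R.length) ^ 2 - M ^ 2) / (Fintype.card K : ℝ) := by
    intro R
    induction R with
    | nil =>
      intro M p f b _ hp hf hb
      have e1 := sum_avg (low k L) (low k P.natDegree) (fun t => P * t)
        (fun t ht g hg => add_mem_low hg (mul_mem_low ht (by omega)))
        fun x => f (x0 + φ (m * x)) (y0 + φ (derivative (m * x)))
      have e2 : ∀ x, (Fintype.card K : ℝ) * ∑ t ∈ low k P.natDegree,
          f (x0 + φ (m * (x + P * t))) (y0 + φ (derivative (m * (x + P * t)))) =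
          qq k ^ P.natDegree * ∑ y, f (x0 + φ (m * x)) y := fun x => by
        rw [← Equiv.sum_comp (Equiv.addLeft (y0 + φ (derivative (m * x)))),
          ← hEQD k K φ P (m * derivative P) _ _ hP hs hk (hmul _ hd) le_rfl]
        congr 1
        refine sum_congr rfl fun t _ => ?_
        simp only [mul_add, derivative_mul, map_add, map_mul, (hk P).2 dvd_rfl,
          Equiv.coe_addLeft]
        congr 1 <;> ring
      have e3 := hEQD k K φ P m L (fun t => |∑ y, f (x0 + t) y|) hP hs hk hm (by omega)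
      rw [show ∑ t, |∑ y, f (x0 + t) y| = ∑ t, |∑ y, f t y| from
        Equiv.sum_comp (Equiv.addLeft x0) fun t => |∑ y, f t y|] at e3
      have e4 : (Fintype.card K : ℝ) *
          ∑ x ∈ low k L, f (x0 + φ (m * x)) (y0 + φ (derivative (m * x))) =
          ∑ x ∈ low k L, ∑ y, f (x0 + φ (m * x)) y := by
        refine mul_left_cancel₀ (pow_pos hq P.natDegree).ne' ?_
        rw [mul_left_comm, ← card_low', e1, mul_sum, card_low', mul_sum]
        exact sum_congr rfl fun x _ => e2 x
      have e5 := mul_le_mul_of_nonneg_left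
        (abs_sum_le_sum_abs (fun x => ∑ y, f (x0 + φ (m * x)) y) (low k L)) hQ.le
      rw [e3, ← e4, abs_mul, abs_of_pos hQ] at e5
      have e6 := e5.trans (mul_le_mul_of_nonneg_left (hLOC0 K M f hf) (pow_pos hq L).le)
      have e7 : 2 / √(Fintype.card K : ℝ) = 2 * √(Fintype.card K : ℝ) / Fintype.card K := by
        rw [mul_div_assoc, Real.sqrt_div_self', mul_one_div]
      rw [NG, sum_congr rfl fun x hx => (hb x hx).trans (by rw [hp x hx 0 (zero_mem_low L)]),
        ← mul_sum, abs_mul, abs_psi, one_mul, e7, ← add_div, div_le_div_iff₀ (by positivity) hQ]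
      refine le_of_mul_le_mul_left ?_ hQ
      simp only [List.length_nil, pow_zero, mul_one]
      linarith
    | cons r R ih =>
      intro M p f b hR hp hf hb
      obtain ⟨Bad, h1, h2⟩ := hLOC1 K M f hf
      obtain ⟨r1, r2⟩ := hR r List.mem_cons_self
      have hR' := fun r' hr' => hR r' (List.mem_cons_of_mem r hr')
      have hM : (1 : ℝ) ≤ M := by exact_mod_cast hf.pos
      have hj : (1 : ℝ) ≤ 2 ^ R.length := one_le_pow₀ one_le_two
      set c : ℝ := 2 / √(Fintype.card K : ℝ) + (2 * (((2 * M : ℕ) : ℝ) * 2 ^ R.length) +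
        (((2 * M : ℕ) : ℝ) * 2 ^ R.length) ^ 2 - ((2 * M : ℕ) : ℝ) ^ 2) / Fintype.card K with hc
      have hc0 : 0 ≤ c := by
        refine add_nonneg (by positivity) (div_nonneg ?_ hQ.le)
        have := pow_le_pow_left₀ (by positivity)
          (le_mul_of_one_le_right (show (0 : ℝ) ≤ (2 * M : ℕ) by positivity) hj) 2
        exact sub_nonneg.2 (le_add_of_nonneg_of_le (by positivity) this)
      have e1 : ∀ t ∈ low k H, NG L H R (fun x => b x * b (x + r * t)) ≤
          c + if φ (m * r * t) ∈ Bad then 1 else 0 := fun t ht => by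
        have hrt := mul_mem_low ht r2
        split_ifs with h
        · refine le_add_of_nonneg_of_le hc0 (NG_le_one L H R _ (fun r hr => (hR' r hr).2)
            fun x hx => ?_)
          rw [hb x hx, hb _ (add_mem_low hx hrt), abs_mul, abs_mul, abs_mul, abs_psi, abs_psi,
            one_mul, one_mul]
          exact mul_le_one₀ (hf.abs_le _ _) (abs_nonneg _) (hf.abs_le _ _)
        · rw [add_zero]
          refine ih (2 * M) _ _ _ hR' (hp _ hrt) (h2 _ h (φ (derivative (m * r * t))))
            fun x hx => ?_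
          rw [hb x hx, hb _ (add_mem_low hx hrt), psi_add, mul_add m, ← mul_assoc m,
            derivative_add, map_add, map_add, ← add_assoc, ← add_assoc]
          ring
      have e2 := hEQD k K φ P (m * r) H (fun t => if t ∈ Bad then 1 else 0) hP hs hk (hmul r r1) hH
      have e3 : ∑ t : K, (if t ∈ Bad then (1 : ℝ) else 0) ≤ M ^ 2 := by
        simpa using (by exact_mod_cast h1 : (Bad.card : ℝ) ≤ M ^ 2)
      have e4 : ∑ t ∈ low k H, (if φ (m * r * t) ∈ Bad then (1 : ℝ) else 0) ≤
          M ^ 2 / Fintype.card K * qq k ^ H := by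
        rw [div_mul_eq_mul_div, le_div_iff₀' hQ, e2, mul_comm]
        exact mul_le_mul_of_nonneg_right e3 (by positivity)
      rw [NG, div_le_iff₀ (by positivity)]
      refine (sum_le_sum e1).trans ?_
      rw [sum_add_distrib, sum_const, nsmul_eq_mul, card_low', mul_comm]
      refine (add_le_add le_rfl e4).trans ?_
      rw [← add_mul, hc, add_assoc, ← add_div, List.length_cons, pow_succ (2 : ℝ)]
      gcongr
      push_cast
      nlinarith
  intro R M p f b h1 h2 h3 h4
  refine (key R M p f b h1 h2 h3 h4).trans ?_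
  have hM : (1 : ℝ) ≤ M := by exact_mod_cast h3.pos
  have := one_le_mul_of_one_le_of_one_le hM (one_le_pow₀ (n := R.length) one_le_two)
  gcongr
  nlinarith

end Pool.Agent.P.MP_6f5b02_nt.CP
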